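import Mathlib

/-!
# Derivations with holes, and how to cut them

`Ret` is the big-step semantics of a pushdown program: from the node `q` the program reads `l`
and arrives at a node `p` which either halts or pops a symbol that was on the stack before. `Der` is
the same with positions and with holes: at the position `c`, in the node `q`, a part of the
computation may be skipped; a hole is denoted by `none` in the list.
-/

set_option autoImplicit false

namespace Pool.Agent.W896.MO

/-- Actions, internal version. -/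
inductive QAct (ι α S Γ : Type) where
  | query (i : ι) (nxt : α → S)
  | push (a : Γ) (q : S)
  | pop (nxt : Γ → S)
  | halt

/-- Programs, internal version. -/
structure QP (ι α : Type) where
  /-- the nodes -/
  State : Type
  /-- the stack symbols -/
  Sym : Type
  /-- what is done in a node -/
  act : State → QAct ι α State Sym

variable {ι α : Type}

/-- The node halts or pops. -/
def Stop (P : QP ι α) (q : P.State) : Prop :=
  (∃ nxt, P.act q = QAct.pop nxt) ∨ P.act q = QAct.halt

/-- Big-step semantics. -/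
inductive Ret (P : QP ι α) (x : ι → α) : P.State → List ι → P.State → Prop
  | stop {q : P.State} (h : Stop P q) : Ret P x q [] q
  | query {q : P.State} {i : ι} {nxt : α → P.State} {l : List ι} {p : P.State}
      (h : P.act q = QAct.query i nxt) (r : Ret P x (nxt (x i)) l p) : Ret P x q (i :: l) p
  | cont {q : P.State} {a : P.Sym} {q' : P.State} {l₁ l₂ : List ι} {p₁ p : P.State}
      {nxt : P.Sym → P.State} (h : P.act q = QAct.push a q') (r₁ : Ret P x q' l₁ p₁)
      (h₁ : P.act p₁ = QAct.pop nxt) (r₂ : Ret P x (nxt a) l₂ p) : Ret P x q (l₁ ++ l₂) p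
  | halt {q : P.State} {a : P.Sym} {q' : P.State} {l : List ι} {p : P.State}
      (h : P.act q = QAct.push a q') (r : Ret P x q' l p) (h₁ : P.act p = QAct.halt) :
      Ret P x q l p

/-- At the position `c` there is no hole with the entry `q`. -/
def Free {S : Type} (H : ℕ → Option (S × S)) (q : S) (c : ℕ) : Prop :=
  ∀ p, H c ≠ some (q, p)

/-- Big-step semantics with positions and holes. -/
inductive Der (P : QP ι α) (H : ℕ → Option (P.State × P.State)) (x : ι → α) :
    P.State → ℕ → List (Option ι) → P.State → ℕ → Prop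
  | hole {q : P.State} {c : ℕ} {p : P.State} (h : H c = some (q, p)) :
      Der P H x q c [none] p (c + 1)
  | stop {q : P.State} {c : ℕ} (hf : Free H q c) (h : Stop P q) : Der P H x q c [] q c
  | query {q : P.State} {c : ℕ} {i : ι} {nxt : α → P.State} {l : List (Option ι)} {p : P.State}
      {c' : ℕ} (hf : Free H q c) (h : P.act q = QAct.query i nxt)
      (r : Der P H x (nxt (x i)) (c + 1) l p c') : Der P H x q c (some i :: l) p c'
  | cont {q : P.State} {c : ℕ} {a : P.Sym} {q' : P.State} {l₁ l₂ : List (Option ι)}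
      {p₁ p : P.State} {nxt : P.Sym → P.State} {c₁ c' : ℕ} (hf : Free H q c)
      (h : P.act q = QAct.push a q') (r₁ : Der P H x q' c l₁ p₁ c₁)
      (h₁ : P.act p₁ = QAct.pop nxt) (r₂ : Der P H x (nxt a) c₁ l₂ p c') :
      Der P H x q c (l₁ ++ l₂) p c'
  | halt {q : P.State} {c : ℕ} {a : P.Sym} {q' : P.State} {l : List (Option ι)} {p : P.State}
      {c' : ℕ} (hf : Free H q c) (h : P.act q = QAct.push a q') (r : Der P H x q' c l p c')
      (h₁ : P.act p = QAct.halt) : Der P H x q c l p c'

theorem Der.len {P : QP ι α} {H : ℕ → Option (P.State × P.State)} {x : ι → α} {q p : P.State}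
    {c c' : ℕ} {l : List (Option ι)} (h : Der P H x q c l p c') : c' = c + l.length := by
  induction h with
  | hole => simp
  | stop => simp
  | query _ _ _ ih => simp only [List.length_cons]; omega
  | cont _ _ _ _ _ ih1 ih2 => simp only [List.length_append]; omega
  | halt _ _ _ _ ih => exact ih

/-- If two inputs agree on the variables which are read on both of them, then the derivations are
the same. -/
theorem Der.agree {P : QP ι α} {H : ℕ → Option (P.State × P.State)} {x y : ι → α}
    {q p : P.State} {c c' : ℕ} {l : List (Option ι)} (h : Der P H x q c l p c') :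
    ∀ {l₂ : List (Option ι)} {p₂ : P.State} {c₂ : ℕ}, Der P H y q c l₂ p₂ c₂ →
      (∀ i, some i ∈ l → some i ∈ l₂ → x i = y i) → l = l₂ ∧ p = p₂ ∧ c' = c₂ := by
  induction h with
  | @hole q c p h =>
    intro l₂ p₂ c₂ h2 _
    cases h2 with
    | hole h' =>
      rw [h] at h'
      simp only [Option.some.injEq, Prod.mk.injEq] at h'
      exact ⟨rfl, h'.2, rfl⟩
    | stop hf _ => exact absurd h (hf p)
    | query hf _ _ => exact absurd h (hf p)
    | cont hf _ _ _ _ => exact absurd h (hf p)
    | halt hf _ _ _ => exact absurd h (hf p)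
  | @stop q c hf hs =>
    intro l₂ p₂ c₂ h2 _
    cases h2 with
    | hole h' => exact absurd h' (hf _)
    | stop _ _ => exact ⟨rfl, rfl, rfl⟩
    | query _ h' _ => rcases hs with ⟨n, hn⟩ | hn <;> rw [hn] at h' <;> simp at h'
    | cont _ h' _ _ _ => rcases hs with ⟨n, hn⟩ | hn <;> rw [hn] at h' <;> simp at h'
    | halt _ h' _ _ => rcases hs with ⟨n, hn⟩ | hn <;> rw [hn] at h' <;> simp at h'
  | @query q c i nxt l p c' hf h r ih =>
    intro l₂ p₂ c₂ h2 hxy
    cases h2 with
    | hole h' => exact absurd h' (hf _)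
    | stop _ hs => rcases hs with ⟨n, hn⟩ | hn <;> rw [hn] at h <;> simp at h
    | query _ h' r' =>
      rw [h] at h'
      simp only [QAct.query.injEq] at h'
      obtain ⟨rfl, rfl⟩ := h'
      have hi := hxy i (List.mem_cons_self ..) (List.mem_cons_self ..)
      rw [← hi] at r'
      obtain ⟨rfl, rfl, rfl⟩ := ih r' (fun j hj hj' =>
        hxy j (List.mem_cons_of_mem _ hj) (List.mem_cons_of_mem _ hj'))
      exact ⟨rfl, rfl, rfl⟩
    | cont _ h' _ _ _ => rw [h] at h'; simp at h'
    | halt _ h' _ _ => rw [h] at h'; simp at h'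
  | @cont q c a q' l₁ l₂ p₁ p nxt c₁ c' hf h r₁ h₁ r₂ ih1 ih2 =>
    intro l₃ p₂ c₂ h2 hxy
    cases h2 with
    | hole h' => exact absurd h' (hf _)
    | stop _ hs => rcases hs with ⟨n, hn⟩ | hn <;> rw [hn] at h <;> simp at h
    | query _ h' _ => rw [h] at h'; simp at h'
    | cont _ h' r₁' h₁' r₂' =>
      rw [h] at h'
      simp only [QAct.push.injEq] at h'
      obtain ⟨rfl, rfl⟩ := h'
      obtain ⟨rfl, rfl, rfl⟩ := ih1 r₁' (fun j hj hj' =>
        hxy j (List.mem_append_left _ hj) (List.mem_append_left _ hj'))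
      rw [h₁] at h₁'
      simp only [QAct.pop.injEq] at h₁'
      obtain rfl := h₁'
      obtain ⟨rfl, rfl, rfl⟩ := ih2 r₂' (fun j hj hj' =>
        hxy j (List.mem_append_right _ hj) (List.mem_append_right _ hj'))
      exact ⟨rfl, rfl, rfl⟩
    | halt _ h' r' h₁' =>
      rw [h] at h'
      simp only [QAct.push.injEq] at h'
      obtain ⟨rfl, rfl⟩ := h'
      obtain ⟨rfl, rfl, rfl⟩ := ih1 r' (fun j hj hj' =>
        hxy j (List.mem_append_left _ hj) hj')
      rw [h₁] at h₁'
      simp at h₁'
  | @halt q c a q' l p c' hf h r h₁ ih =>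
    intro l₃ p₂ c₂ h2 hxy
    cases h2 with
    | hole h' => exact absurd h' (hf _)
    | stop _ hs => rcases hs with ⟨n, hn⟩ | hn <;> rw [hn] at h <;> simp at h
    | query _ h' _ => rw [h] at h'; simp at h'
    | cont _ h' r₁' h₁' r₂' =>
      rw [h] at h'
      simp only [QAct.push.injEq] at h'
      obtain ⟨rfl, rfl⟩ := h'
      obtain ⟨rfl, rfl, rfl⟩ := ih r₁' (fun j hj hj' =>
        hxy j hj (List.mem_append_left _ hj'))
      rw [h₁] at h₁'
      simp at h₁'
    | halt _ h' r' h₁' =>
      rw [h] at h'
      simp only [QAct.push.injEq] at h'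
      obtain ⟨rfl, rfl⟩ := h'
      obtain ⟨rfl, rfl, rfl⟩ := ih r' hxy
      exact ⟨rfl, rfl, rfl⟩

theorem Der.unique {P : QP ι α} {H : ℕ → Option (P.State × P.State)} {x : ι → α}
    {q p : P.State} {c c' : ℕ} {l : List (Option ι)} (h : Der P H x q c l p c')
    {l₂ : List (Option ι)} {p₂ : P.State} {c₂ : ℕ} (h2 : Der P H x q c l₂ p₂ c₂) :
    l = l₂ ∧ p = p₂ ∧ c' = c₂ := h.agree h2 (fun _ _ _ => rfl)

/-- An input which agrees with `x` on the variables that are read has the same derivation. -/
theorem Der.transfer {P : QP ι α} {H : ℕ → Option (P.State × P.State)} {x z : ι → α}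
    {q p : P.State} {c c' : ℕ} {l : List (Option ι)} (h : Der P H x q c l p c') :
    (∀ i, some i ∈ l → z i = x i) → Der P H z q c l p c' := by
  induction h with
  | hole h => intro _; exact Der.hole h
  | stop hf h => intro _; exact Der.stop hf h
  | @query q c i nxt l p c' hf h r ih =>
    intro hz
    refine Der.query hf h ?_
    rw [hz i (List.mem_cons_self ..)]
    exact ih (fun j hj => hz j (List.mem_cons_of_mem _ hj))
  | cont hf h r₁ h₁ r₂ ih1 ih2 =>
    intro hz
    exact Der.cont hf h (ih1 (fun j hj => hz j (List.mem_append_left _ hj))) h₁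
      (ih2 (fun j hj => hz j (List.mem_append_right _ hj)))
  | halt hf h r h₁ ih => intro hz; exact Der.halt hf h (ih hz) h₁

/-- The weight: holes count `a`. -/
def wt (a : ℕ) : List (Option ι) → ℕ
  | [] => 0
  | none :: l => a + wt a l
  | some _ :: l => 1 + wt a l

theorem wt_append (a : ℕ) (l l' : List (Option ι)) : wt a (l ++ l') = wt a l + wt a l' := by
  induction l with
  | nil => simp [wt]
  | cons o l ih => cases o <;> simp only [List.cons_append, wt, ih] <;> omega

theorem len_le_wt {a : ℕ} (ha : 1 ≤ a) (l : List (Option ι)) : l.length ≤ wt a l := by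
  induction l with
  | nil => simp
  | cons o l ih => cases o <;> simp only [List.length_cons, wt] <;> omega

/-- A new hole, which comes later. -/
theorem Der.before {P : QP ι α} {H H' : ℕ → Option (P.State × P.State)} {x : ι → α} {a₀ : ℕ}
    {q₀ p₀ : P.State} {c₀ d₀ : ℕ} {l₀ : List (Option ι)} (h₀ : Der P H x q₀ c₀ l₀ p₀ d₀)
    (hlt : ∀ j < c₀, H' j = H j) (he : H' c₀ = some (q₀, p₀))
    {q p : P.State} {c c' : ℕ} {l : List (Option ι)} (h : Der P H x q c l p c') :
    c' ≤ c₀ → wt a₀ l < wt a₀ l₀ → Der P H' x q c l p c' := by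
  have key : ∀ {q p : P.State} {c c' : ℕ} {l : List (Option ι)}, Der P H x q c l p c' →
      Free H q c → c' ≤ c₀ → wt a₀ l < wt a₀ l₀ → Free H' q c := by
    intro q p c c' l hd hf hc hl p'
    have := hd.len
    rcases Nat.lt_or_ge c c₀ with h1 | h1
    · rw [hlt c h1]; exact hf p'
    · have h2 : c = c₀ := by omega
      subst h2
      rw [he]
      intro h3
      simp only [Option.some.injEq, Prod.mk.injEq] at h3
      obtain ⟨rfl, -⟩ := h3
      have h4 := (hd.unique h₀).1
      rw [h4] at hl
      omega
  induction h with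
  | @hole q c p h => intro hc _; exact Der.hole (by rw [hlt c (by omega)]; exact h)
  | @stop q c hf h => intro hc hl; exact Der.stop (key (Der.stop hf h) hf hc hl) h
  | @query q c i nxt l p c' hf h r ih =>
    intro hc hl
    refine Der.query (key (Der.query hf h r) hf hc hl) h (ih hc ?_)
    simp only [wt] at hl
    omega
  | @cont q c a q' l₁ l₂ p₁ p nxt c₁ c' hf h r₁ h₁ r₂ ih1 ih2 =>
    intro hc hl
    have h3 := r₂.len
    have hl' := hl
    rw [wt_append] at hl'
    exact Der.cont (key (Der.cont hf h r₁ h₁ r₂) hf hc hl) h (ih1 (by omega) (by omega)) h₁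
      (ih2 hc (by omega))
  | @halt q c a q' l p c' hf h r h₁ ih =>
    intro hc hl
    exact Der.halt (key (Der.halt hf h r h₁) hf hc hl) h (ih hc hl) h₁

/-- Shifting the positions down. -/
theorem Der.shift {P : QP ι α} {H H' : ℕ → Option (P.State × P.State)} {x : ι → α}
    {c₀ δ : ℕ} (hH : ∀ j, c₀ ≤ j → H' j = H (j + δ))
    {q p : P.State} {d d' : ℕ} {l : List (Option ι)} (h : Der P H x q d l p d') :
    ∀ c, d = c + δ → c₀ ≤ c → ∃ c', Der P H' x q c l p c' := by
  have key : ∀ {q : P.State} {c : ℕ}, Free H q (c + δ) → c₀ ≤ c → Free H' q c := by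
    intro q c hf hc p'
    rw [hH c hc]; exact hf p'
  induction h with
  | @hole q d p h =>
    rintro c rfl hc
    exact ⟨c + 1, Der.hole (by rw [hH c hc]; exact h)⟩
  | @stop q d hf h =>
    rintro c rfl hc
    exact ⟨c, Der.stop (key hf hc) h⟩
  | @query q d i nxt l p d' hf h r ih =>
    rintro c rfl hc
    obtain ⟨c', h2⟩ := ih (c + 1) (by omega) (by omega)
    exact ⟨c', Der.query (key hf hc) h h2⟩
  | @cont q d a q' l₁ l₂ p₁ p nxt d₁ d' hf h r₁ h₁ r₂ ih1 ih2 =>
    rintro c rfl hc
    obtain ⟨c₁, h4⟩ := ih1 c rfl hc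
    have h5 := h4.len
    have h6 := r₁.len
    obtain ⟨c', h2⟩ := ih2 c₁ (by omega) (by omega)
    exact ⟨c', Der.cont (key hf hc) h h4 h₁ h2⟩
  | @halt q d a q' l p d' hf h r h₁ ih =>
    rintro c rfl hc
    obtain ⟨c', h2⟩ := ih c rfl hc
    exact ⟨c', Der.halt (key hf hc) h h2 h₁⟩

/-- The inner part of a derivation. -/
theorem Der.inner {P : QP ι α} {H H' : ℕ → Option (P.State × P.State)} {x : ι → α}
    {c₀ e : ℕ} (hH : ∀ j < e, H' j = H (c₀ + j)) (he : H' e = none)
    {q p : P.State} {d d' : ℕ} {l : List (Option ι)} (h : Der P H x q d l p d') :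
    ∀ c, d = c₀ + c → d' ≤ c₀ + e → ∃ c', Der P H' x q c l p c' := by
  have key : ∀ {q : P.State} {c : ℕ}, Free H q (c₀ + c) → c ≤ e → Free H' q c := by
    intro q c hf hc p'
    rcases Nat.lt_or_ge c e with h1 | h1
    · rw [hH c h1]; exact hf p'
    · have : c = e := by omega
      subst this
      rw [he]; simp
  induction h with
  | @hole q d p h =>
    rintro c rfl hc
    exact ⟨c + 1, Der.hole (by rw [hH c (by omega)]; exact h)⟩
  | @stop q d hf h =>
    rintro c rfl hc
    exact ⟨c, Der.stop (key hf (by omega)) h⟩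
  | @query q d i nxt l p d' hf h r ih =>
    rintro c rfl hc
    have h0 := r.len
    obtain ⟨c', h2⟩ := ih (c + 1) (by omega) hc
    exact ⟨c', Der.query (key hf (by omega)) h h2⟩
  | @cont q d a q' l₁ l₂ p₁ p nxt d₁ d' hf h r₁ h₁ r₂ ih1 ih2 =>
    rintro c rfl hc
    have e1 := r₁.len
    have e2 := r₂.len
    obtain ⟨c₁, h4⟩ := ih1 c rfl (by omega)
    have e3 := h4.len
    obtain ⟨c', h2⟩ := ih2 c₁ (by omega) hc
    exact ⟨c', Der.cont (key hf (by omega)) h h4 h₁ h2⟩
  | @halt q d a q' l p d' hf h r h₁ ih =>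
    rintro c rfl hc
    have e1 := r.len
    obtain ⟨c', h2⟩ := ih c rfl hc
    exact ⟨c', Der.halt (key hf (by omega)) h h2 h₁⟩

/-- What a cut gives. -/
def Cut (P : QP ι α) (H : ℕ → Option (P.State × P.State)) (x : ι → α) (a t : ℕ) (q p : P.State)
    (c : ℕ) (l : List (Option ι)) : Prop :=
  ∃ (q₀ p₀ : P.State) (la l₀ lb : List (Option ι)), l = la ++ l₀ ++ lb ∧ l₀ ≠ [] ∧
    Der P H x q₀ (c + la.length) l₀ p₀ (c + la.length + l₀.length) ∧ t ≤ wt a l₀ ∧
    wt a l₀ ≤ 2 * t ∧
    ∀ H' : ℕ → Option (P.State × P.State), (∀ j < c + la.length, H' j = H j) →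
      H' (c + la.length) = some (q₀, p₀) →
      (∀ j, c + la.length + 1 ≤ j → H' j = H (j + (l₀.length - 1))) →
      ∃ c'', Der P H' x q c (la ++ none :: lb) p c''

/-- **Cutting.** A derivation with weight at least `t` contains one with weight between `t` and
`2 t`, which may be replaced by a hole. -/
theorem Der.cut {P : QP ι α} {H : ℕ → Option (P.State × P.State)} {x : ι → α} {a t : ℕ}
    (ha : 1 ≤ a) (hat : a < t) {q p : P.State} {c c' : ℕ} {l : List (Option ι)}
    (h : Der P H x q c l p c') : t ≤ wt a l → Cut P H x a t q p c l := by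
  -- the whole derivation
  have whole : ∀ {q p : P.State} {c c' : ℕ} {l : List (Option ι)}, Der P H x q c l p c' →
      t ≤ wt a l → wt a l ≤ 2 * t → Cut P H x a t q p c l := by
    intro q p c c' l hd h1 h2
    have h3 := hd.len
    subst h3
    refine ⟨q, p, [], l, [], by simp, ?_, by simpa using hd, h1, h2, ?_⟩
    · rintro rfl
      simp [wt] at h1
      omega
    · intro H' _ he _
      exact ⟨c + 1, Der.hole (by simpa using he)⟩
  induction h with
  | hole => intro h; simp [wt] at h; omega
  | stop => intro h; simp [wt] at h; omega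
  | @query q c i nxt l p c' hf h r ih =>
    intro hl
    rcases Nat.lt_or_ge (2 * t) (wt a (some i :: l)) with h2 | h2
    · simp only [wt] at h2
      obtain ⟨q₀, p₀, la, l₀, lb, h3, h4, h5, h6, h7, h8⟩ := ih (by omega)
      refine ⟨q₀, p₀, some i :: la, l₀, lb, by rw [h3]; simp, h4, ?_, h6, h7, ?_⟩
      · have e : c + (some i :: la).length = c + 1 + la.length := by
          simp only [List.length_cons]; omega
        rw [e]; exact h5
      · intro H' a1 a2 a3
        have e : c + (some i :: la).length = c + 1 + la.length := by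
          simp only [List.length_cons]; omega
        rw [e] at a1 a2 a3
        obtain ⟨c'', b1⟩ := h8 H' a1 a2 a3
        refine ⟨c'', Der.query ?_ h b1⟩
        intro p'
        rw [a1 c (by omega)]
        exact hf p'
    · exact whole (Der.query hf h r) hl h2
  | @cont q c b q' l₁ l₂ p₁ p nxt c₁ c' hf h r₁ h₁ r₂ ih1 ih2 =>
    intro hl
    rcases Nat.lt_or_ge (2 * t) (wt a (l₁ ++ l₂)) with h2 | h2
    · have hd := Der.cont hf h r₁ h₁ r₂
      have h2' := h2
      rw [wt_append] at h2'
      have g1 := r₁.len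
      have g2 := r₂.len
      rcases Nat.lt_or_ge (wt a l₁) t with hl1 | hl1
      · obtain ⟨q₀, p₀, la, l₀, lb, h3, h4, h5, h6, h7, h8⟩ := ih2 (by omega)
        have e : c + (l₁ ++ la).length = c₁ + la.length := by
          simp only [List.length_append]; omega
        refine ⟨q₀, p₀, l₁ ++ la, l₀, lb, by rw [h3]; simp, h4, ?_, h6, h7, ?_⟩
        · rw [e]; exact h5
        · intro H' a1 a2 a3
          rw [e] at a1 a2 a3
          obtain ⟨c'', b1⟩ := h8 H' a1 a2 a3
          refine ⟨c'', ?_⟩
          rw [List.append_assoc]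
          refine Der.cont ?_ h (Der.before (a₀ := a) h5 a1 a2 r₁ (by omega) (by omega)) h₁ b1
          intro p'
          rcases Nat.lt_or_ge c (c₁ + la.length) with h10 | h10
          · rw [a1 c h10]; exact hf p'
          · have h11 : c = c₁ + la.length := by omega
            rw [h11, a2]
            intro h12
            simp only [Option.some.injEq, Prod.mk.injEq] at h12
            obtain ⟨h13, -⟩ := h12
            rw [← h11, h13] at h5
            have h14 := (hd.unique h5).1
            rw [h14] at h2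
            omega
      · obtain ⟨q₀, p₀, la, l₀, lb, h3, h4, h5, h6, h7, h8⟩ := ih1 hl1
        have hl0 : 1 ≤ l₀.length := List.length_pos_iff.2 h4
        have hlen : l₁.length = la.length + l₀.length + lb.length := by
          rw [h3]; simp only [List.length_append]
        refine ⟨q₀, p₀, la, l₀, lb ++ l₂, by rw [h3]; simp, h4, h5, h6, h7, ?_⟩
        intro H' a1 a2 a3
        obtain ⟨c'', b1⟩ := h8 H' a1 a2 a3
        have b2 := b1.len
        simp only [List.length_append, List.length_cons] at b2
        obtain ⟨c''', b5⟩ := Der.shift (c₀ := c + la.length + 1) (δ := l₀.length - 1) a3 r₂ c''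
          (by omega) (by omega)
        refine ⟨c''', ?_⟩
        have e : la ++ none :: (lb ++ l₂) = (la ++ none :: lb) ++ l₂ := by simp
        rw [e]
        refine Der.cont ?_ h b1 h₁ b5
        intro p'
        rcases Nat.lt_or_ge c (c + la.length) with h10 | h10
        · rw [a1 c h10]; exact hf p'
        · have h11 : c = c + la.length := by omega
          rw [h11, a2]
          intro h12
          simp only [Option.some.injEq, Prod.mk.injEq] at h12
          obtain ⟨h13, -⟩ := h12
          rw [← h11, h13] at h5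
          have h14 := (hd.unique h5).1
          rw [h14] at h2
          omega
    · exact whole (Der.cont hf h r₁ h₁ r₂) hl h2
  | @halt q c b q' l p c' hf h r h₁ ih =>
    intro hl
    rcases Nat.lt_or_ge (2 * t) (wt a l) with h2 | h2
    · have hd := Der.halt hf h r h₁
      obtain ⟨q₀, p₀, la, l₀, lb, h3, h4, h5, h6, h7, h8⟩ := ih hl
      refine ⟨q₀, p₀, la, l₀, lb, h3, h4, h5, h6, h7, ?_⟩
      intro H' a1 a2 a3
      obtain ⟨c'', b1⟩ := h8 H' a1 a2 a3
      refine ⟨c'', Der.halt ?_ h b1 h₁⟩
      intro p'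
      rcases Nat.lt_or_ge c (c + la.length) with h10 | h10
      · rw [a1 c h10]; exact hf p'
      · have h11 : c = c + la.length := by omega
        rw [h11, a2]
        intro h12
        simp only [Option.some.injEq, Prod.mk.injEq] at h12
        obtain ⟨h13, -⟩ := h12
        rw [← h11, h13] at h5
        have h14 := (hd.unique h5).1
        rw [h14] at h2
        omega
    · exact whole (Der.halt hf h r h₁) hl h2

theorem Ret.toDer {P : QP ι α} {x : ι → α} {q p : P.State} {l : List ι} (h : Ret P x q l p) :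
    ∀ c, ∃ c', Der P (fun _ => none) x q c (l.map some) p c' := by
  have hf : ∀ (q : P.State) (c : ℕ), Free (fun _ => none) q c := fun q c p => by simp
  induction h with
  | stop h => intro c; exact ⟨c, Der.stop (hf _ _) h⟩
  | query h _ ih =>
    intro c
    obtain ⟨c', h'⟩ := ih (c + 1)
    exact ⟨c', Der.query (hf _ _) h h'⟩
  | cont h _ h₁ _ ih1 ih2 =>
    intro c
    obtain ⟨c', h'⟩ := ih1 c
    obtain ⟨c'', h''⟩ := ih2 c'
    refine ⟨c'', ?_⟩
    rw [List.map_append]
    exact Der.cont (hf _ _) h h' h₁ h''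
  | halt h _ h₁ ih =>
    intro c
    obtain ⟨c', h'⟩ := ih c
    exact ⟨c', Der.halt (hf _ _) h h' h₁⟩

end Pool.Agent.W896.MO
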