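import Pool.Agent.W896.MO.Defs
import Pool.Agent.W896.MO.Der

/-!
# Decomposition of a computation into short pieces with few holes, and the union bound
-/

set_option autoImplicit false

open Finset

namespace Pool.Agent.W896.MO

variable {ι ω α : Type}

/-- Reads and writes. -/
abbrev Ev (ι ω α : Type) := ι ⊕ (ω × α)

/-- The internal version of a program. -/
def toQP (P : Prog ι ω α) : QP (Ev ι ω α) α where
  State := P.State
  Sym := P.Sym
  act q := match P.act q with
    | .read i nxt => .query (.inl i) nxt
    | .write o v q' => .query (.inr (o, v)) (fun _ => q')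
    | .push a q' => .push a q'
    | .pop nxt => .pop nxt
    | .halt => .halt

/-- The input, extended to writes. -/
def ext (x : ι → α) : Ev ι ω α → α := Sum.elim x Prod.snd

section Dec

variable {κ : Type}

/-- The computation from a node with a stack, decomposed according to the stack. -/
def Dec (P : QP κ α) (x : κ → α) : List P.Sym → P.State → List κ → Prop
  | [], q, l => ∃ p, Ret P x q l p ∧ P.act p = QAct.halt
  | a :: σ, q, l => (∃ p, Ret P x q l p ∧ P.act p = QAct.halt) ∨
      ∃ l₁ p nxt l₂, Ret P x q l₁ p ∧ P.act p = QAct.pop nxt ∧ Dec P x σ (nxt a) l₂ ∧ l = l₁ ++ l₂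

theorem Dec.ofHalt {P : QP κ α} {x : κ → α} {σ : List P.Sym} {q p : P.State} {l : List κ}
    (h : Ret P x q l p) (hb : P.act p = QAct.halt) : Dec P x σ q l := by
  cases σ with
  | nil => exact ⟨p, h, hb⟩
  | cons a σ => exact Or.inl ⟨p, h, hb⟩

theorem Dec.cons {P : QP κ α} {x : κ → α} {σ : List P.Sym} {q q' p₁ : P.State} {l₁ l₂ : List κ}
    {a : P.Sym} {nxt : P.Sym → P.State} (h : P.act q = QAct.push a q')
    (r₁ : Ret P x q' l₁ p₁) (h₁ : P.act p₁ = QAct.pop nxt) (d : Dec P x σ (nxt a) l₂) :
    Dec P x σ q (l₁ ++ l₂) := by
  cases σ with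
  | nil =>
    obtain ⟨p, h2, h3⟩ := d
    exact ⟨p, Ret.cont h r₁ h₁ h2, h3⟩
  | cons a' σ =>
    rcases d with ⟨p, h2, h3⟩ | ⟨l₃, p, nxt', l₄, h2, h3, h4, h5⟩
    · exact Or.inl ⟨p, Ret.cont h r₁ h₁ h2, h3⟩
    · refine Or.inr ⟨l₁ ++ l₃, p, nxt', l₄, Ret.cont h r₁ h₁ h2, h3, h4, ?_⟩
      rw [h5, List.append_assoc]

theorem Dec.query {P : QP κ α} {x : κ → α} {σ : List P.Sym} {q : P.State} {l : List κ} {i : κ}
    {nxt : α → P.State} (h : P.act q = QAct.query i nxt) (d : Dec P x σ (nxt (x i)) l) :
    Dec P x σ q (i :: l) := by
  cases σ with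
  | nil =>
    obtain ⟨p, h2, h3⟩ := d
    exact ⟨p, Ret.query h h2, h3⟩
  | cons a σ =>
    rcases d with ⟨p, h2, h3⟩ | ⟨l₃, p, nxt', l₄, h2, h3, h4, h5⟩
    · exact Or.inl ⟨p, Ret.query h h2, h3⟩
    · exact Or.inr ⟨i :: l₃, p, nxt', l₄, Ret.query h h2, h3, h4, by rw [h5]; rfl⟩

end Dec

theorem Prog.Runs.toDec {P : Prog ι ω α} {x : ι → α} {q : P.State} {σ : List P.Sym}
    {l : List (Ev ι ω α)} (h : P.Runs x q σ l) : Dec (toQP P) (ext x) σ q l := by
  induction h with
  | @halt q σ h =>
    have h' : (toQP P).act q = QAct.halt := by unfold toQP; simp only [h]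
    exact Dec.ofHalt (Ret.stop (Or.inr h')) h'
  | @read q σ i nxt l h _ ih =>
    have h' : (toQP P).act q = QAct.query (.inl i) nxt := by unfold toQP; simp only [h]
    exact Dec.query h' ih
  | @write q σ o v q' l h _ ih =>
    have h' : (toQP P).act q = QAct.query (.inr (o, v)) (fun _ => q') := by
      unfold toQP; simp only [h]
    exact Dec.query h' ih
  | @push q σ a q' l h _ ih =>
    have h' : (toQP P).act q = QAct.push a q' := by unfold toQP; simp only [h]
    rcases ih with ⟨p, h2, h3⟩ | ⟨l₃, p, nxt', l₄, h2, h3, h4, h5⟩
    · exact Dec.ofHalt (Ret.halt h' h2 h3) h3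
    · rw [h5]
      exact Dec.cons h' h2 h3 h4
  | @pop q a σ nxt l h _ ih =>
    have h' : (toQP P).act q = QAct.pop nxt := by unfold toQP; simp only [h]
    exact Or.inr ⟨[], q, nxt, l, Ret.stop (Or.inl ⟨nxt, h'⟩), h', ih, rfl⟩

/-! ### Decomposition -/

section Decomp

variable {κ : Type}

/-- A piece. -/
def Piece (P : QP κ α) (x : κ → α) (a : ℕ) (l : List (Option κ)) : Prop :=
  ∃ q p H e, Der P H x q 0 l p e ∧ wt a l ≤ 4 * a ∧ ∀ c, H c ≠ none → l[c]? = some none

theorem pieces {P : QP κ α} {x : κ → α} {a : ℕ} (ha : 1 ≤ a) :
    ∀ (W : ℕ) (H : ℕ → Option (P.State × P.State)) (q p : P.State) (l : List (Option κ)) (e : ℕ),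
      wt a l ≤ W → Der P H x q 0 l p e → (∀ c, H c ≠ none → l[c]? = some none) →
      ∃ L : List (List (Option κ)), (∀ l' ∈ L, Piece P x a l') ∧
        (∀ l' ∈ L, ∀ i, some i ∈ l' → some i ∈ l) ∧ (∀ l' ∈ L, l'.length ≤ l.length) ∧
        (∀ i, some i ∈ l → ∃ l' ∈ L, some i ∈ l') ∧ L.length * a ≤ wt a l + a := by
  intro W
  induction W using Nat.strong_induction_on with
  | _ W ih =>
    intro H q p l e hW hd hH
    rcases Nat.lt_or_ge (4 * a) (wt a l) with hbig | hsmall
    · obtain ⟨q₀, p₀, la, l₀, lb, h3, h4, h5, h6, h7, h8⟩ :=
        Der.cut (t := 2 * a) ha (by omega) hd (by omega)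
      have hl0 : 1 ≤ l₀.length := List.length_pos_iff.2 h4
      rw [Nat.zero_add] at h5
      simp only [Nat.zero_add] at h8
      obtain ⟨H', hH'⟩ : ∃ H' : ℕ → Option (P.State × P.State), H' = fun c =>
        if c < la.length then H c else if c = la.length then some (q₀, p₀) else
          H (c + (l₀.length - 1)) := ⟨_, rfl⟩
      obtain ⟨c'', h9⟩ := h8 H' (by
        intro j hj
        rw [hH']; simp only [if_pos hj]) (by
        rw [hH']; simp only [lt_irrefl, if_false, if_true]) (by
        intro j hj
        have a1 : ¬ j < la.length := by omega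
        have a2 : ¬ j = la.length := by omega
        rw [hH']; simp only [if_neg a1, if_neg a2])
      have hwt : wt a l = wt a la + wt a l₀ + wt a lb := by rw [h3, wt_append, wt_append]
      have hwt' : wt a (la ++ none :: lb) = wt a la + (a + wt a lb) := by
        rw [wt_append]; rfl
      obtain ⟨L, b1, b2, b3, b4, b5⟩ := ih (wt a (la ++ none :: lb)) (by omega) H' q p
        (la ++ none :: lb) c'' le_rfl h9 (by
          intro c hc
          rw [hH'] at hc
          simp only at hc
          split_ifs at hc with c1 c2
          · have := hH c hc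
            rw [h3, List.append_assoc, List.getElem?_append_left c1] at this
            rw [List.getElem?_append_left c1]
            exact this
          · rw [c2, List.getElem?_append_right le_rfl, Nat.sub_self]
            rfl
          · have := hH _ hc
            rw [h3, List.getElem?_append_right (by simp only [List.length_append]; omega)] at this
            rw [List.getElem?_append_right (by omega)]
            obtain ⟨k, hk⟩ : ∃ k, c - la.length = k + 1 := ⟨c - la.length - 1, by omega⟩
            rw [hk, List.getElem?_cons_succ]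
            have e : c + (l₀.length - 1) - (la ++ l₀).length = k := by
              simp only [List.length_append]; omega
            rw [e] at this
            exact this)
      refine ⟨l₀ :: L, ?_, ?_, ?_, ?_, ?_⟩
      · intro l' hl'
        rcases List.mem_cons.1 hl' with rfl | hl'
        · obtain ⟨H₀, hH₀⟩ : ∃ H₀ : ℕ → Option (P.State × P.State), H₀ = fun j =>
            if j < l'.length then H (la.length + j) else none := ⟨_, rfl⟩
          obtain ⟨c', h10⟩ := Der.inner (c₀ := la.length) (e := l'.length) (H' := H₀) (by
            intro j hj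
            rw [hH₀]; simp only [if_pos hj]) (by
            rw [hH₀]; simp only [lt_irrefl, if_false]) h5 0 rfl le_rfl
          refine ⟨q₀, p₀, H₀, c', h10, by omega, ?_⟩
          intro c hc
          rw [hH₀] at hc
          simp only at hc
          split_ifs at hc with c1
          · have := hH _ hc
            rw [h3, List.append_assoc, List.getElem?_append_right (by omega),
              List.getElem?_append_left (by omega)] at this
            have e : la.length + c - la.length = c := by omega
            rw [e] at this
            exact this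
          · exact absurd rfl hc
        · exact b1 l' hl'
      · intro l' hl' i hi
        rcases List.mem_cons.1 hl' with rfl | hl'
        · rw [h3]
          exact List.mem_append_left _ (List.mem_append_right _ hi)
        · have := b2 l' hl' i hi
          rw [List.mem_append, List.mem_cons] at this
          rw [h3, List.mem_append, List.mem_append]
          rcases this with h | h | h
          · exact Or.inl (Or.inl h)
          · exact absurd h (by simp)
          · exact Or.inr h
      · intro l' hl'
        have e : l.length = la.length + l₀.length + lb.length := by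
          rw [h3]; simp only [List.length_append]
        rcases List.mem_cons.1 hl' with rfl | hl'
        · omega
        · have := b3 l' hl'
          simp only [List.length_append, List.length_cons] at this
          omega
      · intro i hi
        rw [h3, List.mem_append, List.mem_append] at hi
        rcases hi with (hi | hi) | hi
        · obtain ⟨l', h10, h11⟩ := b4 i (List.mem_append_left _ hi)
          exact ⟨l', List.mem_cons_of_mem _ h10, h11⟩
        · exact ⟨l₀, List.mem_cons_self .., hi⟩
        · obtain ⟨l', h10, h11⟩ := b4 i (List.mem_append_right _ (List.mem_cons_of_mem _ hi))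
          exact ⟨l', List.mem_cons_of_mem _ h10, h11⟩
      · rw [List.length_cons]
        have : (L.length + 1) * a = L.length * a + a := by ring
        omega
    · refine ⟨[l], ?_, ?_, ?_, ?_, ?_⟩
      · intro l' hl'
        rw [List.mem_singleton] at hl'
        subst hl'
        exact ⟨q, p, H, e, hd, hsmall, hH⟩
      · intro l' hl' i hi
        rw [List.mem_singleton] at hl'
        subst hl'
        exact hi
      · intro l' hl'
        rw [List.mem_singleton] at hl'
        subst hl'
        exact le_rfl
      · intro i hi
        exact ⟨l, List.mem_singleton_self _, hi⟩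
      · simp only [List.length_singleton]
        omega

/-- The number of holes. -/
def nn : List (Option κ) → ℕ
  | [] => 0
  | none :: l => nn l + 1
  | some _ :: l => nn l

theorem nn_wt (a : ℕ) (l : List (Option κ)) : nn l * a ≤ wt a l := by
  induction l with
  | nil => simp [nn]
  | cons b l ih =>
    cases b with
    | none =>
      simp only [nn, wt]
      have : (nn l + 1) * a = nn l * a + a := by ring
      omega
    | some b =>
      simp only [nn, wt]
      omega

open Classical in
theorem card_nn (l : List (Option κ)) :
    ((range l.length).filter (fun c => l[c]? = some none)).card = nn l := by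
  induction l with
  | nil => simp [nn]
  | cons b l ih =>
    rw [card_filter, List.length_cons, sum_range_succ']
    simp only [List.getElem?_cons_succ, List.getElem?_cons_zero]
    rw [← card_filter, ih]
    cases b <;> simp [nn]

/-! ### The description of the holes -/

variable {S : Type}

open Classical in
/-- The holes given by a table with four entries. -/
noncomputable def dec {T : ℕ} (d : Fin 4 → Option (Fin T × S × S)) : ℕ → Option (S × S) :=
  fun c => if h : ∃ u : Fin T × S × S, (∃ i, d i = some u) ∧ u.1.val = c then
    some (Classical.choose h).2 else none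

open Classical in
theorem exists_dec {T : ℕ} (H : ℕ → Option (S × S)) (h1 : ∀ c, H c ≠ none → c < T)
    (h2 : ((range T).filter (fun c => H c ≠ none)).card ≤ 4) :
    ∃ d : Fin 4 → Option (Fin T × S × S), dec d = H := by
  obtain ⟨K, hK⟩ : ∃ K, K = ((range T).filter (fun c => H c ≠ none)).toList := ⟨_, rfl⟩
  have hlen : K.length ≤ 4 := by rw [hK, length_toList]; exact h2
  have hmem : ∀ c, c ∈ K ↔ c < T ∧ H c ≠ none := by
    intro c
    rw [hK, mem_toList, mem_filter, mem_range]
  have hget : ∀ (i : ℕ) (hi : i < K.length), K[i] < T ∧ H K[i] ≠ none := fun i hi =>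
    (hmem _).1 (List.getElem_mem hi)
  refine ⟨fun i => if hi : i.val < K.length then
    some (⟨K[i.val], (hget i.val hi).1⟩, (H K[i.val]).get (Option.isSome_iff_ne_none.2
      (hget i.val hi).2)) else none, ?_⟩
  funext c
  unfold dec
  by_cases hc : H c = none
  · rw [dif_neg, hc]
    rintro ⟨u, ⟨i, hi⟩, rfl⟩
    beta_reduce at hi
    split_ifs at hi with h3
    · rw [Option.some.injEq] at hi
      rw [← hi] at hc
      exact (hget i.val h3).2 hc
  · have hcK : c ∈ K := (hmem c).2 ⟨h1 c hc, hc⟩
    obtain ⟨i, hi, hic⟩ := List.mem_iff_getElem.1 hcK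
    have hex : ∃ u : Fin T × S × S, (∃ i : Fin 4, (if hi : i.val < K.length then
        some (⟨K[i.val], (hget i.val hi).1⟩, (H K[i.val]).get (Option.isSome_iff_ne_none.2
        (hget i.val hi).2)) else none) = some u) ∧ u.1.val = c := by
      refine ⟨(⟨K[i], (hget i hi).1⟩, (H K[i]).get (Option.isSome_iff_ne_none.2
        (hget i hi).2)), ⟨⟨i, by omega⟩, ?_⟩, hic⟩
      rw [dif_pos hi]
    rw [dif_pos hex]
    obtain ⟨⟨j, hj⟩, hu⟩ := Classical.choose_spec hex
    generalize Classical.choose hex = u at hj hu ⊢
    split_ifs at hj with h3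
    · rw [Option.some.injEq] at hj
      subst hj
      simp only at hu
      subst hu
      simp

theorem card_dec [Fintype S] (T : ℕ) :
    Fintype.card (Fin 4 → Option (Fin T × S × S)) = (T * (Fintype.card S) ^ 2 + 1) ^ 4 := by
  rw [Fintype.card_fun, Fintype.card_option, Fintype.card_prod, Fintype.card_prod,
    Fintype.card_fin, Fintype.card_fin]
  ring

end Decomp

end Pool.Agent.W896.MO
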