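import Pool.Agent.W896.MO.LinCount
import Pool.Agent.W896.MO.Classes

/-!
# Products of a good matrix with several vectors: the classes
-/

set_option autoImplicit false

open Finset

namespace Pool.Agent.W896.MO

variable {F : Type} [Field F] [Fintype F] [DecidableEq F] {n m : ℕ}

theorem coset (M : Fin n → Fin n → F) (z₀ : Fin n → F) (Q O : Finset (Fin n)) :
    (univ.filter (fun z : Fin n → F => (∀ k ∈ Q, z k = z₀ k) ∧
      ∀ o ∈ O, ∑ k, M o k * z k = ∑ k, M o k * z₀ k)).card = (sol M Q O).card := by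
  apply card_bij' (fun z _ => z - z₀) (fun z _ => z + z₀)
  · intro z hz
    rw [mem_filter] at hz
    unfold sol
    rw [mem_filter]
    refine ⟨mem_univ _, fun i hi => ?_, fun o ho => ?_⟩
    · rw [Pi.sub_apply, hz.2.1 i hi, sub_self]
    · simp only [Pi.sub_apply, mul_sub, sum_sub_distrib]
      rw [hz.2.2 o ho, sub_self]
  · intro z hz
    unfold sol at hz
    rw [mem_filter] at hz ⊢
    refine ⟨mem_univ _, fun i hi => ?_, fun o ho => ?_⟩
    · rw [Pi.add_apply, hz.2.1 i hi, zero_add]
    · simp only [Pi.add_apply, mul_add, sum_add_distrib]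
      rw [hz.2.2 o ho, zero_add]
  · intro z _; simp
  · intro z _; simp

theorem coset' (z₀ : Fin n → F) (Q : Finset (Fin n)) :
    (univ.filter (fun z : Fin n → F => ∀ k ∈ Q, z k = z₀ k)).card =
      Fintype.card F ^ (n - Q.card) := by
  have h := coset (fun _ _ => (0 : F)) z₀ Q ∅
  rw [card_sol_empty] at h
  rw [← h]
  congr 1
  ext z
  simp

open Classical in
/-- The count for several vectors: only the vectors in `Lt` have few reads. -/
theorem rows_count (M : Fin n → Fin n → F) (hM : LG M) (y : Fin m → Fin n → F)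
    (Q J : Fin m → Finset (Fin n)) (Lt : Finset (Fin m)) (hLt : ∀ j ∈ Lt, 32 * (Q j).card ≤ n) :
    (univ.filter (fun y' : Fin m → Fin n → F => (∀ j, ∀ k ∈ Q j, y' j k = y j k) ∧
      ∀ j, ∀ o ∈ J j, ∑ k, M o k * y' j k = ∑ k, M o k * y j k)).card *
        Fintype.card F ^ (∑ j ∈ Lt, ((J j).card + 15) / 16) ≤
      (univ.filter (fun y' : Fin m → Fin n → F => ∀ j, ∀ k ∈ Q j, y' j k = y j k)).card := by
  have e1 : (univ.filter (fun y' : Fin m → Fin n → F => (∀ j, ∀ k ∈ Q j, y' j k = y j k) ∧
      ∀ j, ∀ o ∈ J j, ∑ k, M o k * y' j k = ∑ k, M o k * y j k)) =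
      Fintype.piFinset (fun j => univ.filter (fun z : Fin n → F => (∀ k ∈ Q j, z k = y j k) ∧
      ∀ o ∈ J j, ∑ k, M o k * z k = ∑ k, M o k * y j k)) := by
    ext y'
    rw [mem_filter, Fintype.mem_piFinset]
    simp only [mem_filter, mem_univ, true_and]
    exact ⟨fun h j => ⟨h.1 j, h.2 j⟩, fun h => ⟨fun j => (h j).1, fun j => (h j).2⟩⟩
  have e2 : (univ.filter (fun y' : Fin m → Fin n → F => ∀ j, ∀ k ∈ Q j, y' j k = y j k)) =
      Fintype.piFinset (fun j => univ.filter (fun z : Fin n → F => ∀ k ∈ Q j, z k = y j k)) := by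
    ext y'
    rw [mem_filter, Fintype.mem_piFinset]
    simp only [mem_filter, mem_univ, true_and]
  rw [e1, e2, Fintype.card_piFinset, Fintype.card_piFinset]
  have e3 : Fintype.card F ^ (∑ j ∈ Lt, ((J j).card + 15) / 16) =
      ∏ j, (if j ∈ Lt then Fintype.card F ^ (((J j).card + 15) / 16) else 1) := by
    rw [← prod_pow_eq_pow_sum, prod_ite, prod_const_one, mul_one]
    congr 1
    ext j
    simp
  rw [e3, ← prod_mul_distrib]
  apply prod_le_prod
  · intro j _
    exact Nat.zero_le _
  · intro j _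
    rw [coset, coset']
    split_ifs with h
    · exact hM (Q j) (J j) (hLt j h)
    · rw [mul_one, ← card_sol_empty M (Q j)]
      apply card_le_card
      intro z hz
      unfold sol at hz ⊢
      rw [mem_filter] at hz ⊢
      exact ⟨mem_univ _, hz.2.1, by simp⟩

theorem sum_ceil (J : Fin m → Finset (Fin n)) (Lt : Finset (Fin m)) {c : ℕ}
    (h : c ≤ ∑ j ∈ Lt, (J j).card) : c / 16 ≤ ∑ j ∈ Lt, ((J j).card + 15) / 16 := by
  have h1 : ∑ j ∈ Lt, (J j).card ≤ 16 * ∑ j ∈ Lt, ((J j).card + 15) / 16 := by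
    rw [mul_sum]
    apply sum_le_sum
    intro j _
    omega
  omega

/-! ### Each output needs a node -/

variable {ι ω α : Type}

theorem Prog.Runs.node {P : Prog ι ω α} {x : ι → α} {q : P.State} {σ : List P.Sym}
    {l : List (Ev ι ω α)} (h : P.Runs x q σ l) : ∀ o v, .inr (o, v) ∈ l →
      ∃ p q', P.act p = Act.write o v q' := by
  induction h with
  | halt _ => intro o v h; simp at h
  | read _ _ ih =>
    intro o v h
    rcases List.mem_cons.1 h with h | h
    · simp at h
    · exact ih o v h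
  | @write q σ o' v' q' l h _ ih =>
    intro o v h'
    rcases List.mem_cons.1 h' with h' | h'
    · simp only [Sum.inr.injEq, Prod.mk.injEq] at h'
      obtain ⟨rfl, rfl⟩ := h'
      exact ⟨q, q', h⟩
    · exact ih o v h'
  | push _ _ ih => exact ih
  | pop _ _ ih => exact ih

theorem Prog.Computes.card_le [Fintype ω] {P : Prog ι ω α} {x : ι → α} {y : ω → α} {T : ℕ}
    (h : P.Computes x y T) : Fintype.card ω ≤ Fintype.card P.State := by
  obtain ⟨l, h1, h2, h3, h4⟩ := h
  choose p hp using fun o => h1.node o (y o) (h4 o)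
  choose q hq using hp
  refine Fintype.card_le_of_injective p ?_
  intro o o' ho
  have e1 := hq o
  rw [ho, hq o'] at e1
  simp only [Act.write.injEq] at e1
  exact e1.1.symm

theorem Prog.Computes.card_le' [Fintype ω] {P : Prog ι ω α} {x : ι → α} {y : ω → α} {T : ℕ}
    (h : P.Computes x y T) : Fintype.card ω ≤ T := by
  classical
  obtain ⟨l, h1, h2, h3, h4⟩ := h
  refine le_trans ?_ h2
  have h5 : (univ : Finset ω).image (fun o => (.inr (o, y o) : Ev ι ω α)) ⊆ l.toFinset := by
    intro e he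
    rw [mem_image] at he
    obtain ⟨o, -, rfl⟩ := he
    exact List.mem_toFinset.2 (h4 o)
  have h6 := card_le_card h5
  rw [card_image_of_injective _ (fun o o' h => by
    simp only [Sum.inr.injEq, Prod.mk.injEq] at h; exact h.1), card_univ] at h6
  exact h6.trans (List.toFinset_card_le l)

end Pool.Agent.W896.MO
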