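import Pool.Agent.W896.MO.Classes2
import Pool.Agent.W896.MO.Rows
import Pool.Agent.H537R2.Apsr.Param

/-!
# All-pairs shortest paths with a stack: the counting
-/

set_option autoImplicit false

namespace Pool.Agent.W896.MO

open Finset
open Pool.Agent.H537R2.Apsp (Graph walkWeight dist)
open Pool.Agent.H537R2.Apsq (cnt cnt_mono cnt_nonneg cnt_eq Cons)
open Pool.Agent.H537R2.Apsr

/-- All distances of a graph, given by its matrix of weights. -/
noncomputable def dists {N : ℕ} (w : Fin N × Fin N → ℕ∞) : Fin N × Fin N → ℕ∞ :=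
  fun o => dist w o.1 o.2

variable {c n M N : ℕ}

/-- The outputs which count: pairs of a source and a sink which are not connected. -/
def CntD (K : ℕ → Fin n → Finset (Fin n)) (e : Vx c n → Fin N) (y : Jx c n → Fin M)
    (o : Fin N × Fin N) : Prop :=
  ∃ i j, o = (e (.src i), e (.snk j)) ∧ ¬ Conn K y i j

/-- Agreement on the unknown entries that are read. -/
def AgrD (e : Vx c n → Fin N) (l : List (Option (Ev (Fin N × Fin N) (Fin N × Fin N) ℕ∞)))
    (y z : Jx c n → Fin M) : Prop :=
  ∀ p j, some (.inl p) ∈ l → srcN e p = some j → z j = y j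

theorem fineD (K : ℕ → Fin n → Finset (Fin n)) (e : Vx c n → Fin N) :
    Fine (ω := Fin N × Fin N) (graph (M := M) K e) (AgrD e) where
  refl := fun _ _ _ _ _ _ => rfl
  symm := fun _ _ _ h p j h1 h2 => (h p j h1 h2).symm
  trans := fun _ _ _ _ h h' p j h1 h2 => (h' p j h1 h2).trans (h p j h1 h2)
  agr := by
    intro l y z h p hp
    cases hs : srcN e p with
    | none => rw [graph_none K e y p hs, graph_none K e z p hs]
    | some j => rw [graph_some K e y p j hs, graph_some K e z p j hs, h p j hp hs]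

open Classical in
theorem apsp_proc (K : ℕ → Fin n → Finset (Fin n)) {e : Vx c n → Fin N}
    (he : Function.Injective e) {a N₁ k : ℕ} {β : ℝ} (hβ : β * 2 ^ k ≤ 1)
    (hleaf : ∀ (Q : Finset (Jx c n)) (ρ : Jx c n → Fin M) (R : Finset (Fin n × Fin n)),
      Q.card ≤ 4 * a → N₁ ≤ R.card →
      cnt (fun x : Jx c n → Fin M => Cons Q ρ x ∧ ∀ p ∈ R, ¬ Conn K x p.1 p.2) ≤
        β * cnt (Cons Q ρ))
    {Rel : (Fin N × Fin N → ℕ∞) →
      List (Option (Ev (Fin N × Fin N) (Fin N × Fin N) ℕ∞)) → Prop} (hP : Proc Rel)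
    (Gd : (Jx c n → Fin M) → Prop) :
    (univ.filter (fun y : Jx c n → Fin M => Gd y ∧
      Good (graph K e) dists (CntD K e) a N₁ Rel y)).card ≤
      Fintype.card (Jx c n → Fin M) / 2 ^ k := by
  rw [Nat.le_div_iff_mul_le (by positivity), mul_comm]
  have h := classes_good2 (graph (M := M) K e) (dists (N := N)) hP (fineD K e) univ
    (fun y l O => l.length ≤ 4 * a ∧ N₁ ≤ O.card ∧ ∀ o ∈ O, CntD K e y o) (2 ^ k) ?_
  · refine le_trans ?_ (h.trans (le_of_eq card_univ))
    apply Nat.mul_le_mul_left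
    apply card_le_card
    intro y hy
    rw [mem_filter] at hy ⊢
    obtain ⟨-, -, l, h1, h2, h3, O, h4, h5⟩ := hy
    exact ⟨mem_univ _, l, O, h1, h3, fun o ho => (h5 o ho).2, h2, h4, fun o ho => (h5 o ho).1⟩
  · rintro y - l O ⟨h1, h2, h3⟩
    obtain ⟨Q, hQ⟩ : ∃ Q : Finset (Jx c n), Q =
      univ.filter (fun j => ∃ p, some (.inl p) ∈ l ∧ srcN e p = some j) := ⟨_, rfl⟩
    obtain ⟨R, hR⟩ : ∃ R : Finset (Fin n × Fin n), R =
      univ.filter (fun p => (e (.src p.1), e (.snk p.2)) ∈ O) := ⟨_, rfl⟩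
    have hQc : Q.card ≤ 4 * a := by
      obtain ⟨g, hg⟩ : ∃ g : Option (Ev (Fin N × Fin N) (Fin N × Fin N) ℕ∞) → Option (Jx c n),
        ∀ p, g (some (.inl p)) = srcN e p := ⟨fun u => match u with
          | some (.inl p) => srcN e p
          | _ => none, fun _ => rfl⟩
      have h4 : Q ⊆ (l.filterMap g).toFinset := by
        intro j hj
        rw [hQ, mem_filter] at hj
        obtain ⟨-, p, h5, h6⟩ := hj
        rw [List.mem_toFinset, List.mem_filterMap]
        exact ⟨_, h5, by rw [hg, h6]⟩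
      exact (card_le_card h4).trans ((List.toFinset_card_le _).trans
        ((List.length_filterMap_le _ _).trans h1))
    have hRc : N₁ ≤ R.card := by
      have h4 : O ⊆ R.image (fun p => (e (.src p.1), e (.snk p.2))) := by
        intro o ho
        obtain ⟨i, j, h5, -⟩ := h3 o ho
        rw [mem_image]
        refine ⟨(i, j), ?_, h5.symm⟩
        rw [hR, mem_filter]
        exact ⟨mem_univ _, h5 ▸ ho⟩
      exact h2.trans ((card_le_card h4).trans card_image_le)
    have hE : ∀ y' : Jx c n → Fin M, AgrD e l y y' ↔ Cons Q y y' := by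
      intro y'
      constructor
      · intro h4 j hj
        rw [hQ, mem_filter] at hj
        obtain ⟨-, p, h5, h6⟩ := hj
        exact h4 p j h5 h6
      · intro h4 p j h5 h6
        exact h4 j (by rw [hQ, mem_filter]; exact ⟨mem_univ _, p, h5, h6⟩)
    have hl := hleaf Q y R hQc hRc
    have hA : ((univ.filter (fun y' : Jx c n → Fin M => AgrD e l y y' ∧
        ∀ o ∈ O, dists (graph K e y') o = dists (graph K e y) o)).card : ℝ) ≤
        cnt (fun x : Jx c n → Fin M => Cons Q y x ∧ ∀ p ∈ R, ¬ Conn K x p.1 p.2) := by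
      rw [cnt_eq]
      norm_cast
      apply card_le_card
      intro y' hy'
      simp only [mem_filter, mem_univ, true_and] at hy' ⊢
      refine ⟨(hE y').1 hy'.1, ?_⟩
      intro p hp
      rw [hR, mem_filter] at hp
      obtain ⟨i, j, h5, h6⟩ := h3 _ hp.2
      have h7 := hy'.2 _ hp.2
      rw [Prod.mk.injEq] at h5
      have h8 : p.1 = i := by have := he h5.1; injection this
      have h9 : p.2 = j := by have := he h5.2; injection this
      rw [← h8, ← h9, ← dist_eq_top_iff K y he] at h6
      rw [← dist_eq_top_iff K y' he, ← h6]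
      exact h7
    have hB : cnt (Cons (n := M) Q y) =
        ((univ.filter (fun y' : Jx c n → Fin M => AgrD e l y y')).card : ℝ) := by
      rw [cnt_eq]
      norm_cast
      congr 1
      ext y'
      simp only [mem_filter, mem_univ, true_and]
      exact (hE y').symm
    have h4 : ((2 : ℝ) ^ k) * ((univ.filter (fun y' : Jx c n → Fin M => AgrD e l y y' ∧
        ∀ o ∈ O, dists (graph K e y') o = dists (graph K e y) o)).card : ℝ) ≤
        ((univ.filter (fun y' : Jx c n → Fin M => AgrD e l y y')).card : ℝ) := by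
      rw [← hB]
      calc _ ≤ (2 : ℝ) ^ k * (β * cnt (Cons (n := M) Q y)) :=
            mul_le_mul_of_nonneg_left (hA.trans hl) (by positivity)
        _ = (β * 2 ^ k) * cnt (Cons (n := M) Q y) := by ring
        _ ≤ 1 * cnt (Cons (n := M) Q y) := mul_le_mul_of_nonneg_right hβ (cnt_nonneg _)
        _ = _ := one_mul _
    have h5 : 2 ^ k * (univ.filter (fun y' : Jx c n → Fin M => AgrD e l y y' ∧
        ∀ o ∈ O, dists (graph K e y') o = dists (graph K e y) o)).card ≤
        (univ.filter (fun y' : Jx c n → Fin M => AgrD e l y y')).card := by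
      exact_mod_cast h4
    convert h5

open Classical in
/-- The counting theorem for programs with a stack. -/
theorem apsp_core (hn : 0 < n) (hM : 0 < M) (K : ℕ → Fin n → Finset (Fin n))
    (hK : ∀ s i, (K s i).card ≤ 2 ^ s) (hc : 8 * ((c + 1) * 2 ^ c) ≤ M) {e : Vx c n → Fin N}
    (he : Function.Injective e) {a N₁ k T : ℕ} {β : ℝ} (hβ : β * 2 ^ k ≤ 1)
    (hleaf : ∀ (Q : Finset (Jx c n)) (ρ : Jx c n → Fin M) (R : Finset (Fin n × Fin n)),
      Q.card ≤ 4 * a → N₁ ≤ R.card →
      cnt (fun x : Jx c n → Fin M => Cons Q ρ x ∧ ∀ p ∈ R, ¬ Conn K x p.1 p.2) ≤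
        β * cnt (Cons Q ρ)) (ha : 1 ≤ a) (hN₁ : 1 ≤ N₁)
    (hN : 2 * ((T / a + 1) * N₁) ≤ n ^ 2)
    (P : Prog (Fin N × Fin N) (Fin N × Fin N) ℕ∞)
    (hs : 4 * (Fintype.card P.State * (T * (Fintype.card P.State) ^ 2 + 1) ^ 4) ≤ 2 ^ k) :
    2 * Nat.card {x : Jx c n → Fin M // P.Computes (graph K e x) (dists (graph K e x)) T} ≤
      Nat.card (Jx c n → Fin M) := by
  obtain ⟨Gd, hGd⟩ : ∃ Gd : (Jx c n → Fin M) → Prop, ∀ y, Gd y ↔
    2 * (univ.filter (fun p : Fin n × Fin n => Conn K y p.1 p.2)).card ≤ n ^ 2 :=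
      ⟨_, fun _ => Iff.rfl⟩
  have h1 := union_bound P (graph (M := M) K e) (dists (N := N)) (CntD K e) Gd (a := a)
    (N₀ := (T / a + 1) * N₁) (N₁ := N₁) (T := T)
    (K := Fintype.card (Jx c n → Fin M) / 2 ^ k) ha hN₁ le_rfl (by
      intro y hy
      have h2 : (univ.filter (fun p : Fin n × Fin n => ¬ Conn K y p.1 p.2)).card ≤
          (univ.filter (fun o => CntD K e y o)).card := by
        apply card_le_card_of_injOn (fun p => (e (.src p.1), e (.snk p.2)))
        · intro p hp
          simp only [coe_filter, mem_univ, true_and, Set.mem_setOf_eq] at hp ⊢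
          exact ⟨p.1, p.2, rfl, hp⟩
        · rintro ⟨i, j⟩ - ⟨i', j'⟩ - h
          simp only [Prod.mk.injEq] at h
          have h8 : i = i' := by have := he h.1; injection this
          have h9 : j = j' := by have := he h.2; injection this
          rw [h8, h9]
      have h3 := Finset.card_filter_add_card_filter_not (s := (univ : Finset (Fin n × Fin n)))
        (fun p => Conn K y p.1 p.2)
      rw [card_univ, Fintype.card_prod, Fintype.card_fin] at h3
      have h4 : n * n = n ^ 2 := by ring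
      have h5 := (hGd y).1 hy
      omega)
    (fun Rel hRel => by convert apsp_proc K he hβ hleaf hRel Gd)
  obtain ⟨s, hs'⟩ : ∃ s, s = Fintype.card P.State * (T * (Fintype.card P.State) ^ 2 + 1) ^ 4 :=
    ⟨_, rfl⟩
  rw [← hs'] at hs h1
  obtain ⟨W, hW⟩ : ∃ W, W = Fintype.card (Jx c n → Fin M) := ⟨_, rfl⟩
  rw [← hW] at h1
  have h2 : 4 * (univ.filter (fun y => Gd y ∧
      P.Computes (graph K e y) (dists (graph K e y)) T)).card ≤ W := by
    calc _ ≤ 4 * (s * (W / 2 ^ k)) := Nat.mul_le_mul_left _ (by convert h1)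
      _ = (4 * s) * (W / 2 ^ k) := by ring
      _ ≤ 2 ^ k * (W / 2 ^ k) := Nat.mul_le_mul_right _ hs
      _ ≤ W := Nat.mul_div_le _ _
  have h3 : 4 * (univ.filter (fun y => ¬ Gd y)).card ≤ W := by
    have h4 := cnt_many (c := c) hn hM K hK hc
    have h5 : cnt (fun _ : Jx c n → Fin M => True) = W := by
      rw [cnt_eq, hW]
      norm_cast
      rw [filter_true, card_univ]
    rw [h5, cnt_eq] at h4
    have h6 : 4 * (univ.filter (fun x : Jx c n → Fin M =>
      n ^ 2 < 2 * (univ.filter (fun p : Fin n × Fin n => Conn K x p.1 p.2)).card)).card ≤ W := by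
      exact_mod_cast h4
    refine le_trans (Nat.mul_le_mul_left _ (card_le_card ?_)) h6
    intro y hy
    simp only [mem_filter, mem_univ, true_and] at hy ⊢
    rw [hGd] at hy
    omega
  have h4 : Nat.card {x : Jx c n → Fin M //
      P.Computes (graph K e x) (dists (graph K e x)) T} ≤
      (univ.filter (fun y => Gd y ∧ P.Computes (graph K e y) (dists (graph K e y)) T)).card +
      (univ.filter (fun y => ¬ Gd y)).card := by
    rw [Nat.card_eq_fintype_card, Fintype.card_subtype]
    refine le_trans (card_le_card ?_) (card_union_le _ _)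
    intro y hy
    simp only [mem_filter, mem_univ, true_and, mem_union] at hy ⊢
    by_cases h : Gd y
    · exact Or.inl ⟨h, hy⟩
    · exact Or.inr h
  rw [Nat.card_eq_fintype_card (α := Jx c n → Fin M), ← hW]
  omega

end Pool.Agent.W896.MO
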