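import Pool.Agent.W896.MO.Union

/-!
# The classes of an adaptive procedure, for a finer partition
-/

set_option autoImplicit false

open Finset

namespace Pool.Agent.W896.MO

variable {ι ω α Ω : Type}

/-- A partition of the inputs for every list, which is finer than the partition according to the
values read. -/
structure Fine (X : Ω → ι → α) (E : List (Option (Ev ι ω α)) → Ω → Ω → Prop) : Prop where
  refl : ∀ l y, E l y y
  symm : ∀ l y z, E l y z → E l z y
  trans : ∀ l y z w, E l y z → E l z w → E l y w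
  agr : ∀ l y z, E l y z → ∀ i, some (.inl i) ∈ l → X z i = X y i

open Classical in
/-- If in every class a fraction of at most `1 / N` of the inputs is in `A` then so it is for all
inputs. -/
theorem classes2 [Fintype Ω] (X : Ω → ι → α) {Rel : (ι → α) → List (Option (Ev ι ω α)) → Prop}
    (hP : Proc Rel) {E : List (Option (Ev ι ω α)) → Ω → Ω → Prop} (hE : Fine X E)
    (Y A : Finset Ω) (hA : A ⊆ Y) (lst : Ω → List (Option (Ev ι ω α)))
    (hl : ∀ y ∈ A, Rel (X y) (lst y)) (N : ℕ)
    (hN : ∀ y ∈ A, N * (A.filter (fun y' => E (lst y) y y')).card ≤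
      (Y.filter (fun y' => E (lst y) y y')).card) : N * A.card ≤ Y.card := by
  obtain ⟨C, hC⟩ : ∃ C : Ω → Finset Ω, ∀ y, C y = Y.filter (fun y' => E (lst y) y y') :=
    ⟨_, fun _ => rfl⟩
  have hAC : ∀ y, A ∩ C y = A.filter (fun y' => E (lst y) y y') := by
    intro y
    ext z
    rw [mem_inter, hC, mem_filter, mem_filter]
    constructor
    · rintro ⟨h1, h2⟩; exact ⟨h1, h2.2⟩
    · rintro ⟨h1, h2⟩; exact ⟨h1, hA h1, h2⟩
  have hself : ∀ y ∈ A, y ∈ C y := by
    intro y hy
    rw [hC, mem_filter]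
    exact ⟨hA hy, hE.refl _ _⟩
  have hdis : ∀ y ∈ A, ∀ z ∈ A, ∀ w, w ∈ C y → w ∈ C z → C y = C z := by
    intro y hy z hz w h1 h2
    rw [hC, mem_filter] at h1 h2
    have e1 := hP.trans _ (X w) _ (hl y hy) (fun i hi => hE.agr _ _ _ h1.2 i hi)
    have e2 := hP.trans _ (X w) _ (hl z hz) (fun i hi => hE.agr _ _ _ h2.2 i hi)
    have e3 := hP.uniq _ _ _ _ e1 e2 (fun _ _ _ => rfl)
    have h3 := h1.2
    have h4 := h2.2
    rw [← e3] at h4
    rw [hC, hC]
    ext v
    rw [mem_filter, mem_filter, ← e3]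
    refine and_congr_right (fun _ => ?_)
    constructor
    · intro h
      exact hE.trans _ _ _ _ (hE.trans _ _ _ _ h4 (hE.symm _ _ _ h3)) h
    · intro h
      exact hE.trans _ _ _ _ (hE.trans _ _ _ _ h3 (hE.symm _ _ _ h4)) h
  have hsub : A ⊆ (A.image C).biUnion (fun D => A ∩ D) := by
    intro y hy
    rw [mem_biUnion]
    exact ⟨C y, mem_image_of_mem _ hy, mem_inter.2 ⟨hy, hself y hy⟩⟩
  have hdisj : (↑(A.image C) : Set (Finset Ω)).PairwiseDisjoint id := by
    intro D hD E hE hDE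
    rw [mem_coe, mem_image] at hD hE
    obtain ⟨y, hy, rfl⟩ := hD
    obtain ⟨z, hz, rfl⟩ := hE
    rw [Function.onFun, id, id, disjoint_left]
    intro w h1 h2
    exact hDE (hdis y hy z hz w h1 h2)
  calc N * A.card ≤ N * ∑ D ∈ A.image C, (A ∩ D).card := by
        apply Nat.mul_le_mul_left
        exact (card_le_card hsub).trans card_biUnion_le
    _ = ∑ D ∈ A.image C, N * (A ∩ D).card := mul_sum _ _ _
    _ ≤ ∑ D ∈ A.image C, D.card := by
        apply sum_le_sum
        intro D hD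
        rw [mem_image] at hD
        obtain ⟨y, hy, rfl⟩ := hD
        rw [hAC, hC]
        exact hN y hy
    _ = ((A.image C).biUnion id).card := (card_biUnion hdisj).symm
    _ ≤ Y.card := by
        apply card_le_card
        intro w hw
        rw [mem_biUnion] at hw
        obtain ⟨D, hD, hw⟩ := hw
        rw [mem_image] at hD
        obtain ⟨y, hy, rfl⟩ := hD
        rw [id, hC, mem_filter] at hw
        exact hw.1

open Classical in
/-- The version for procedures with outputs: it suffices that in every class a fraction of at most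
`1 / N` of the inputs has the right values in the outputs `O`. -/
theorem classes_good2 [Fintype Ω] (X : Ω → ι → α) (f : (ι → α) → ω → α)
    {Rel : (ι → α) → List (Option (Ev ι ω α)) → Prop} (hP : Proc Rel)
    {E : List (Option (Ev ι ω α)) → Ω → Ω → Prop} (hE : Fine X E) (Y : Finset Ω)
    (S : Ω → List (Option (Ev ι ω α)) → Finset ω → Prop) (N : ℕ)
    (hN : ∀ y ∈ Y, ∀ l O, S y l O → N * (Y.filter (fun y' => E l y y' ∧
        ∀ o ∈ O, f (X y') o = f (X y) o)).card ≤ (Y.filter (fun y' => E l y y')).card) :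
    N * (Y.filter (fun y => ∃ l O, Rel (X y) l ∧ (∀ o v, some (.inr (o, v)) ∈ l →
      v = f (X y) o) ∧ (∀ o ∈ O, some (.inr (o, f (X y) o)) ∈ l) ∧ S y l O)).card ≤ Y.card := by
  obtain ⟨A, hA⟩ : ∃ A, A = Y.filter (fun y => ∃ l O, Rel (X y) l ∧
    (∀ o v, some (.inr (o, v)) ∈ l → v = f (X y) o) ∧
    (∀ o ∈ O, some (.inr (o, f (X y) o)) ∈ l) ∧ S y l O) := ⟨_, rfl⟩
  rw [← hA]
  have hex : ∀ y, ∃ (l : List (Option (Ev ι ω α))) (O : Finset ω), y ∈ A → Rel (X y) l ∧
      (∀ o v, some (.inr (o, v)) ∈ l → v = f (X y) o) ∧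
      (∀ o ∈ O, some (.inr (o, f (X y) o)) ∈ l) ∧ S y l O := by
    intro y
    by_cases hy : y ∈ A
    · have h1 := hy
      rw [hA, mem_filter] at h1
      obtain ⟨l, O, h2⟩ := h1.2
      exact ⟨l, O, fun _ => h2⟩
    · exact ⟨[], ∅, fun h => absurd h hy⟩
  choose lst Os hlst using hex
  refine classes2 X hP hE Y A (by rw [hA]; exact filter_subset _ _) lst
    (fun y hy => (hlst y hy).1) N ?_
  intro y hy
  have hyY : y ∈ Y := by rw [hA] at hy; exact (mem_filter.1 hy).1
  refine le_trans (Nat.mul_le_mul_left _ (card_le_card ?_))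
    (hN y hyY (lst y) (Os y) (hlst y hy).2.2.2)
  intro z hz
  rw [mem_filter] at hz ⊢
  refine ⟨by have := hz.1; rw [hA] at this; exact (mem_filter.1 this).1, hz.2, ?_⟩
  intro o ho
  have e1 := hP.trans _ (X z) _ (hlst y hy).1 (fun i hi => hE.agr _ _ _ hz.2 i hi)
  have e3 := hP.uniq _ _ _ _ e1 (hlst z hz.1).1 (fun _ _ _ => rfl)
  have e4 := (hlst y hy).2.2.1 o ho
  rw [e3] at e4
  exact ((hlst z hz.1).2.1 _ _ e4).symm

end Pool.Agent.W896.MO
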