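import Pool.Agent.W896.MO.Mv

/-!
# Matrix-vector products with a good matrix: the final form
-/

set_option autoImplicit false

open Finset

namespace Pool.Agent.W896.MO

/-- The arithmetic at the end. -/
theorem final_arith {n m T s q π N a : ℕ} (hn : 128 ≤ n) (hq : 2 ≤ q)
    (hnm : n * m ≤ s) (hT : n * m ≤ T) (hT2 : T < n ^ 2 * m) (ha : a = n / 128)
    (hN : N = (n * m) / (T / a + 1)) (hmain : q ^ (N / 16) ≤ 2 ^ π * (s * (T * s ^ 2 + 1) ^ 4)) :
    (n : ℝ) ^ 2 * m * Real.logb 2 q ≤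
      2 ^ 18 * T * (Real.logb 2 s + π + Real.logb 2 q) := by
  have hm : 1 ≤ m := by
    by_contra h
    have h1 : m = 0 := by omega
    subst h1
    simp at hT2
  have hs : 1 ≤ s := le_trans (by nlinarith) hnm
  have hTs : T + 1 ≤ s ^ 2 := by
    have h1 : n ^ 2 * m ≤ (n * m) ^ 2 := by
      calc n ^ 2 * m = n ^ 2 * m * 1 := by ring
        _ ≤ n ^ 2 * m * m := Nat.mul_le_mul_left _ hm
        _ = (n * m) ^ 2 := by ring
    have h2 : (n * m) ^ 2 ≤ s ^ 2 := Nat.pow_le_pow_left hnm 2
    omega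
  have h1 : s * (T * s ^ 2 + 1) ^ 4 ≤ s ^ 17 := by
    have h2 : T * s ^ 2 + 1 ≤ s ^ 4 := by
      have h3 : 1 ≤ s ^ 2 := Nat.one_le_pow _ _ hs
      calc T * s ^ 2 + 1 ≤ T * s ^ 2 + s ^ 2 := Nat.add_le_add_left h3 _
        _ = (T + 1) * s ^ 2 := by ring
        _ ≤ s ^ 2 * s ^ 2 := Nat.mul_le_mul_right _ hTs
        _ = s ^ 4 := by ring
    calc s * (T * s ^ 2 + 1) ^ 4 ≤ s * (s ^ 4) ^ 4 :=
          Nat.mul_le_mul_left _ (Nat.pow_le_pow_left h2 4)
      _ = s ^ 17 := by ring
  have h2 : q ^ (N / 16) ≤ 2 ^ π * s ^ 17 := hmain.trans (Nat.mul_le_mul_left _ h1)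
  have hL0 : 0 ≤ Real.logb 2 (s : ℝ) := Real.logb_nonneg (by norm_num) (by exact_mod_cast hs)
  have hq1 : 1 ≤ Real.logb 2 (q : ℝ) := by
    rw [Real.le_logb_iff_rpow_le (by norm_num) (by exact_mod_cast (by omega : 0 < q))]
    simp only [Real.rpow_one]
    exact_mod_cast hq
  have h3 : ((N / 16 : ℕ) : ℝ) * Real.logb 2 q ≤ π + 17 * Real.logb 2 s := by
    have h4 : (q : ℝ) ^ (N / 16) ≤ 2 ^ π * s ^ 17 := by exact_mod_cast h2
    have h5 := Real.logb_le_logb_of_le (b := 2) (by norm_num)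
      (by have : (0 : ℝ) < q := by exact_mod_cast (by omega : 0 < q)
          positivity) h4
    have hs0 : (s : ℝ) ≠ 0 := by
      have : 0 < s := hs
      exact_mod_cast this.ne'
    rw [Real.logb_pow, Real.logb_mul (by positivity) (by positivity), Real.logb_pow,
      Real.logb_pow, Real.logb_self_eq_one (by norm_num)] at h5
    simp only [mul_one, Nat.cast_ofNat] at h5
    exact h5
  have ha1 : 1 ≤ a := by omega
  have ha2 : n ≤ 256 * a := by omega
  have ha3 : a ≤ n := by omega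
  have hD : (T / a + 1) * a ≤ 2 * T := by
    have h4 : T / a * a ≤ T := Nat.div_mul_le_self _ _
    have h5 : a ≤ T := by
      calc a ≤ n := ha3
        _ = n * 1 := (mul_one n).symm
        _ ≤ n * m := Nat.mul_le_mul_left _ hm
        _ ≤ T := hT
    calc (T / a + 1) * a = T / a * a + a := by ring
      _ ≤ T + T := Nat.add_le_add h4 h5
      _ = 2 * T := by ring
  have h6 : n * m ≤ (T / a + 1) * (16 * (N / 16 + 1)) := by
    have h7 : n * m < (T / a + 1) * (N + 1) := by
      rw [hN]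
      exact Nat.lt_mul_div_succ _ (Nat.succ_pos _)
    have h8 : N + 1 ≤ 16 * (N / 16 + 1) := by omega
    exact h7.le.trans (Nat.mul_le_mul_left _ h8)
  have h9 : n ^ 2 * m ≤ 8192 * T * (N / 16 + 1) := by
    calc n ^ 2 * m = n * (n * m) := by ring
      _ ≤ (256 * a) * ((T / a + 1) * (16 * (N / 16 + 1))) := Nat.mul_le_mul ha2 h6
      _ = 4096 * ((T / a + 1) * a) * (N / 16 + 1) := by ring
      _ ≤ 4096 * (2 * T) * (N / 16 + 1) :=
          Nat.mul_le_mul_right _ (Nat.mul_le_mul_left _ hD)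
      _ = _ := by ring
  have h10 : (n : ℝ) ^ 2 * m ≤ 8192 * T * ((N / 16 : ℕ) + 1) := by exact_mod_cast h9
  have hT0 : (0 : ℝ) ≤ T := Nat.cast_nonneg _
  have hπ0 : (0 : ℝ) ≤ π := Nat.cast_nonneg _
  calc (n : ℝ) ^ 2 * m * Real.logb 2 q ≤
        8192 * T * ((N / 16 : ℕ) + 1) * Real.logb 2 q :=
        mul_le_mul_of_nonneg_right h10 (by linarith)
    _ = 8192 * T * (((N / 16 : ℕ) : ℝ) * Real.logb 2 q + Real.logb 2 q) := by ring
    _ ≤ 8192 * T * ((π + 17 * Real.logb 2 s) + Real.logb 2 q) := by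
        apply mul_le_mul_of_nonneg_left _ (by positivity)
        linarith
    _ ≤ 8192 * T * (32 * (Real.logb 2 s + π + Real.logb 2 q)) := by
        apply mul_le_mul_of_nonneg_left _ (by positivity)
        nlinarith
    _ = _ := by ring

variable {F : Type} [Field F] [Fintype F] {n m : ℕ}

theorem card_flat (A : (Fin m × Fin n → F) → Prop) :
    Nat.card {v : Fin m × Fin n → F // A v} = Nat.card {y : Fin m → Fin n → F // A (flat y)} := by
  refine Nat.card_congr (Equiv.subtypeEquiv (Equiv.curry _ _ _) ?_)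
  intro v
  rfl

/-- A program which multiplies a matrix with the property `LG` by random vectors. -/
theorem mv_fixed [DecidableEq F] (M : Fin n → Fin n → F) (hM : 128 ≤ n → LG M)
    (P : Prog (Fin m × Fin n) (Fin m × Fin n) F) (T π : ℕ)
    (h : Fintype.card F ^ (n * m) ≤
      2 ^ π * Nat.card {v : Fin m × Fin n → F // P.Computes v (mv M v) T}) :
    (n : ℝ) ^ 2 * m * Real.logb 2 (Fintype.card F) ≤ 2 ^ 18 * T *
      (Real.logb 2 (Fintype.card P.State) + π + Real.logb 2 (Fintype.card F)) := by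
  classical
  have hq : 2 ≤ Fintype.card F := Fintype.one_lt_card
  obtain ⟨v, hv⟩ : ∃ v : Fin m × Fin n → F, P.Computes v (mv M v) T := by
    by_contra hcon
    push Not at hcon
    have h1 : Nat.card {v : Fin m × Fin n → F // P.Computes v (mv M v) T} = 0 := by
      rw [Nat.card_eq_zero]
      left
      exact ⟨fun v => hcon v.1 v.2⟩
    rw [h1, mul_zero] at h
    have h2 : 0 < Fintype.card F ^ (n * m) := by positivity
    omega
  have hs : n * m ≤ Fintype.card P.State := by
    have h1 := hv.card_le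
    rwa [Fintype.card_prod, Fintype.card_fin, Fintype.card_fin, mul_comm] at h1
  have hT : n * m ≤ T := by
    have h1 := hv.card_le'
    rwa [Fintype.card_prod, Fintype.card_fin, Fintype.card_fin, mul_comm] at h1
  have hs1 : 1 ≤ Fintype.card P.State := Fintype.card_pos_iff.2 ⟨P.start⟩
  have hL0 : 0 ≤ Real.logb 2 (Fintype.card P.State : ℝ) :=
    Real.logb_nonneg (by norm_num) (by exact_mod_cast hs1)
  have hq0 : 0 ≤ Real.logb 2 (Fintype.card F : ℝ) :=
    Real.logb_nonneg (by norm_num) (by exact_mod_cast (by omega : 1 ≤ Fintype.card F))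
  have hT0 : (0 : ℝ) ≤ T := Nat.cast_nonneg _
  have hπ0 : (0 : ℝ) ≤ π := Nat.cast_nonneg _
  have triv : ∀ A B : ℝ, A ≤ B → A * Real.logb 2 (Fintype.card F) ≤
      B * (Real.logb 2 (Fintype.card P.State) + π + Real.logb 2 (Fintype.card F)) ∨ B < 0 := by
    intro A B h1
    by_cases h2 : B < 0
    · exact Or.inr h2
    · left
      push Not at h2
      calc A * Real.logb 2 (Fintype.card F) ≤ B * Real.logb 2 (Fintype.card F) :=
            mul_le_mul_of_nonneg_right h1 hq0
        _ ≤ _ := mul_le_mul_of_nonneg_left (by linarith) h2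
  have easy : (n : ℝ) ^ 2 * m ≤ 2 ^ 18 * T → (n : ℝ) ^ 2 * m * Real.logb 2 (Fintype.card F) ≤
      2 ^ 18 * T * (Real.logb 2 (Fintype.card P.State) + π + Real.logb 2 (Fintype.card F)) := by
    intro h1
    rcases triv _ _ h1 with h2 | h2
    · exact h2
    · exact absurd h2 (not_lt.2 (by positivity))
  by_cases hn : 128 ≤ n
  swap
  · apply easy
    have h1 : n ^ 2 * m ≤ 2 ^ 18 * T := by
      calc n ^ 2 * m = n * (n * m) := by ring
        _ ≤ 128 * T := Nat.mul_le_mul (by omega) hT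
        _ ≤ _ := Nat.mul_le_mul_right _ (by norm_num)
    exact_mod_cast h1
  by_cases hT2 : T < n ^ 2 * m
  swap
  · apply easy
    push Not at hT2
    have h1 : n ^ 2 * m ≤ 2 ^ 18 * T := by omega
    exact_mod_cast h1
  obtain ⟨a, ha⟩ : ∃ a, a = n / 128 := ⟨_, rfl⟩
  obtain ⟨N, hN⟩ : ∃ N, N = (n * m) / (T / a + 1) := ⟨_, rfl⟩
  have hmain : 1 ≤ N → Fintype.card F ^ (N / 16) ≤ 2 ^ π *
      (Fintype.card P.State * (T * (Fintype.card P.State) ^ 2 + 1) ^ 4) := by
    intro hN1
    have h1 := mv_count M (hM hn) hn P (T := T) (N₁ := N) hN1 (by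
      rw [← ha, hN, mul_comm m n]
      exact Nat.mul_div_le _ _)
    rw [card_flat (F := F) (fun v => P.Computes v (mv M v) T), Nat.card_eq_fintype_card,
      Fintype.card_subtype] at h
    have h2 : Fintype.card (Fin m → Fin n → F) = Fintype.card F ^ (n * m) := by
      rw [Fintype.card_fun, Fintype.card_fun, Fintype.card_fin, Fintype.card_fin, ← pow_mul]
    rw [h2] at h1
    have h3 : 0 < Fintype.card F ^ (n * m) := by positivity
    refine Nat.le_of_mul_le_mul_left ?_ h3
    calc Fintype.card F ^ (n * m) * Fintype.card F ^ (N / 16) ≤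
          (2 ^ π * _) * Fintype.card F ^ (N / 16) := Nat.mul_le_mul_right _ h
      _ = 2 ^ π * (_ * Fintype.card F ^ (N / 16)) := by rw [mul_assoc]
      _ ≤ 2 ^ π * _ := Nat.mul_le_mul_left _ h1
      _ = _ := by ring
  by_cases hN1 : 1 ≤ N
  · exact final_arith hn hq hs hT hT2 ha hN (hmain hN1)
  · refine final_arith hn hq hs hT hT2 ha hN ?_
    have h1 : N = 0 := by omega
    rw [h1]
    simp only [Nat.zero_div, pow_zero]
    have h2 : 1 ≤ (T * (Fintype.card P.State) ^ 2 + 1) ^ 4 := Nat.one_le_pow _ _ (Nat.succ_pos _)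
    have h3 : 1 ≤ 2 ^ π := Nat.one_le_two_pow
    calc 1 = 1 * (1 * 1) := by norm_num
      _ ≤ _ := Nat.mul_le_mul h3 (Nat.mul_le_mul hs1 h2)

/-- **The trade-off for matrix-vector products**, for randomised programs. -/
theorem mv_main (n : ℕ) : ∃ Bad : Set (Fin n → Fin n → F),
    Nat.card Bad * 2 ^ (n / 4) ≤ Fintype.card F ^ (n * n) ∧
    ∀ M, M ∉ Bad → ∀ (m T π s : ℕ) (R : Type) [Fintype R] [Nonempty R]
      (P : R → Prog (Fin m × Fin n) (Fin m × Fin n) F),
      (∀ r, Fintype.card (P r).State ≤ s) →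
      Nat.card R * Fintype.card F ^ (n * m) ≤ 2 ^ π *
        Nat.card {u : R × (Fin m × Fin n → F) // (P u.1).Computes u.2 (mv M u.2) T} →
      (n : ℝ) ^ 2 * m * Real.logb 2 (Fintype.card F) ≤
        2 ^ 18 * T * (Real.logb 2 s + π + Real.logb 2 (Fintype.card F)) := by
  classical
  refine ⟨{M | 128 ≤ n ∧ ¬ LG M}, ?_, ?_⟩
  · by_cases hn : 128 ≤ n
    · have h1 := bad_count (F := F) (n := n) (by omega)
      refine le_trans (le_of_eq ?_) h1
      congr 1
      rw [Nat.card_eq_fintype_card]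
      rw [Fintype.card_ofFinset]
      congr 1
      ext M
      simp [hn]
    · have h1 : {M : Fin n → Fin n → F | 128 ≤ n ∧ ¬ LG M} = ∅ := by
        ext M
        simp [hn]
      rw [h1]
      simp
  · intro M hM m T π s R _ _ P hs hc
    have hM' : 128 ≤ n → LG M := by
      intro h
      by_contra h1
      exact hM ⟨h, h1⟩
    obtain ⟨r, hr⟩ := avg_exists (fun r v => (P r).Computes v (mv M v) T) (2 ^ π) (by
      rw [Nat.card_eq_fintype_card (α := Fin m × Fin n → F), Fintype.card_fun, Fintype.card_prod,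
        Fintype.card_fin, Fintype.card_fin, mul_comm m n]
      exact hc)
    rw [Nat.card_eq_fintype_card (α := Fin m × Fin n → F), Fintype.card_fun, Fintype.card_prod,
        Fintype.card_fin, Fintype.card_fin, mul_comm m n] at hr
    have h1 := mv_fixed M hM' (P r) T π hr
    refine h1.trans ?_
    apply mul_le_mul_of_nonneg_left _ (by positivity)
    have h2 : 0 < Fintype.card (P r).State := Fintype.card_pos_iff.2 ⟨(P r).start⟩
    have h3 : Real.logb 2 (Fintype.card (P r).State : ℝ) ≤ Real.logb 2 s :=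
      Real.logb_le_logb_of_le (by norm_num) (by exact_mod_cast h2) (by exact_mod_cast hs r)
    linarith

end Pool.Agent.W896.MO
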