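import Pool.Agent.W896.MO.Toep
import Pool.Agent.W896.MO.MvFinal

/-!
# Products of polynomials on programs with a stack: the trade-off
-/

set_option autoImplicit false
set_option maxHeartbeats 1000000

open Finset

namespace Pool.Agent.W896.MO

/-- The coefficients of the product of the polynomials whose coefficients are the first `n` and
the last `n` inputs. -/
def pm {F : Type} [Semiring F] {n : ℕ} (u : Fin n ⊕ Fin n → F) : Fin (2 * n) → F :=
  fun i => ∑ j : Fin n, ∑ k : Fin n, if j.val + k.val = i.val then u (.inl j) * u (.inr k) else 0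

variable {F : Type} [Field F] {n h : ℕ}

theorem card_inst {X : Type} [Fintype X] (p : X → Prop) (d d' : DecidablePred p) :
    (@Finset.filter X p d univ).card = (@Finset.filter X p d' univ).card := by
  cases Subsingleton.elim d d'
  rfl

/-- The seed, the high part and the low part of the input. -/
def spl (hn : 2 * h ≤ n) : (Fin n ⊕ Fin n → F) ≃
    ((Fin n → F) × ({k : Fin n // ¬ k.val < h} → F)) × (Fin h → F) where
  toFun u := ((fun j => u (.inl j), fun k => u (.inr k.1)),
    fun k => u (.inr ⟨k.val, by have := k.isLt; omega⟩))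
  invFun p := Sum.elim p.1.1 (fun k => if hk : k.val < h then p.2 ⟨k.val, hk⟩ else p.1.2 ⟨k, hk⟩)
  left_inv u := by
    funext i
    rcases i with j | k
    · rfl
    · change (if hk : k.val < h then _ else _) = _
      split_ifs <;> rfl
  right_inv p := by
    obtain ⟨⟨a, b⟩, y⟩ := p
    refine Prod.ext (Prod.ext rfl (funext fun k => ?_)) (funext fun k => ?_)
    · exact dif_neg k.2
    · exact dif_pos k.isLt

/-- The output number `h - 1 + o`. -/
def mid (hn : 2 * h ≤ n) (o : Fin h) : Fin (2 * n) := ⟨h - 1 + o.val, by have := o.isLt; omega⟩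

theorem mid_inj (hn : 2 * h ≤ n) : Function.Injective (mid hn) := by
  intro o o' ho
  have := congrArg Fin.val ho
  unfold mid at this
  simp only at this
  exact Fin.ext (by omega)

/-- The middle coefficients. -/
theorem pm_mid (hn : 2 * h ≤ n) (p : (Fin n → F) × ({k : Fin n // ¬ k.val < h} → F)) (o : Fin h) :
    ∃ c : F, ∀ y : Fin h → F, pm ((spl hn).symm (p, y)) (mid hn o) =
      ∑ k, toep hn p.1 o k * y k + c := by
  classical
  obtain ⟨a, b⟩ := p
  refine ⟨∑ k : {k : Fin n // ¬ k.val < h}, ∑ j : Fin n,
    if j.val + k.1.val = (mid hn o).val then a j * b k else 0, fun y => ?_⟩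
  have e1 : pm ((spl hn).symm ((a, b), y)) (mid hn o) =
      ∑ k : Fin n, ∑ j : Fin n, if j.val + k.val = (mid hn o).val then
        a j * (if hk : k.val < h then y ⟨k.val, hk⟩ else b ⟨k, hk⟩) else 0 := by
    rw [sum_comm]
    rfl
  rw [e1]
  rw [← Fintype.sum_subtype_add_sum_subtype (fun k : Fin n => k.val < h)]
  congr 1
  · refine (Equiv.sum_comp (⟨fun k => ⟨⟨k.val, by have := k.isLt; omega⟩, k.isLt⟩,
      fun k => ⟨k.1.val, k.2⟩, fun k => rfl, fun k => rfl⟩ :
      Fin h ≃ {k : Fin n // k.val < h}) _).symm.trans ?_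
    refine sum_congr rfl (fun k _ => ?_)
    have hk := k.isLt
    have ho := o.isLt
    rw [sum_eq_single (tix hn o k)]
    · change (if (o.val + (h - 1 - k.val)) + k.val = h - 1 + o.val then _ else _) = _
      rw [if_pos (by omega)]
      change a (tix hn o k) * (if hk : k.val < h then y ⟨k.val, hk⟩ else _) = _
      rw [dif_pos hk]
      rfl
    · intro j _ hj
      apply if_neg
      intro h1
      apply hj
      apply Fin.ext
      change j.val + k.val = h - 1 + o.val at h1
      change j.val = o.val + (h - 1 - k.val)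
      omega
    · intro h1
      exact absurd (mem_univ _) h1
  · refine sum_congr rfl (fun k _ => sum_congr rfl (fun j _ => ?_))
    congr 1
    rw [dif_neg k.2]

variable [Fintype F] [DecidableEq F]

open Classical in
theorem conv_proc (hn : 2 * h ≤ n) (p : (Fin n → F) × ({k : Fin n // ¬ k.val < h} → F))
    (hM : LG (toep hn p.1)) {a N₁ : ℕ} (ha : 128 * a ≤ h)
    {Rel : (Fin n ⊕ Fin n → F) → List (Option (Ev (Fin n ⊕ Fin n) (Fin (2 * n)) F)) → Prop}
    (hP : Proc Rel) :
    (univ.filter (fun y : Fin h → F => True ∧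
      Good (fun y => (spl hn).symm (p, y)) pm (fun _ o => ∃ o', o = mid hn o') a N₁ Rel y)).card ≤
      Fintype.card (Fin h → F) / Fintype.card F ^ (N₁ / 16) := by
  have hq : 0 < Fintype.card F := Fintype.card_pos
  rw [Nat.le_div_iff_mul_le (by positivity), mul_comm]
  have hcl := classes_good (fun y : Fin h → F => (spl hn).symm (p, y)) pm hP univ
    (fun _ l O => l.length ≤ 4 * a ∧ N₁ ≤ O.card ∧ ∀ o ∈ O, ∃ o', o = mid hn o')
    (Fintype.card F ^ (N₁ / 16)) ?_
  · refine le_trans ?_ (hcl.trans (le_of_eq card_univ))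
    apply Nat.mul_le_mul_left
    apply card_le_card
    intro y hy
    rw [mem_filter] at hy ⊢
    obtain ⟨-, -, l, h1, h2, h3, O, h4, h5⟩ := hy
    exact ⟨mem_univ _, l, O, h1, h3, fun o ho => (h5 o ho).2, h2, h4, fun o ho => (h5 o ho).1⟩
  · rintro y - l O ⟨h1, h2, h2'⟩
    choose c hc using fun o => pm_mid (F := F) hn p o
    obtain ⟨Q, hQ⟩ : ∃ Q : Finset (Fin h), Q =
      univ.filter (fun k : Fin h => some (.inl (.inr ⟨k.val, by have := k.isLt; omega⟩)) ∈ l) :=
        ⟨_, rfl⟩
    obtain ⟨J, hJ⟩ : ∃ J : Finset (Fin h), J = univ.filter (fun o => mid hn o ∈ O) := ⟨_, rfl⟩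
    have hQc : Q.card ≤ l.length := by
      have h3 : Q.image (fun k : Fin h => (some (.inl (.inr ⟨k.val, by have := k.isLt; omega⟩)) :
          Option (Ev (Fin n ⊕ Fin n) (Fin (2 * n)) F))) ⊆ l.toFinset := by
        intro e he
        rw [mem_image] at he
        obtain ⟨k, hk, rfl⟩ := he
        rw [hQ, mem_filter] at hk
        exact List.mem_toFinset.2 hk.2
      have h4 := card_le_card h3
      rw [card_image_of_injective _ (fun k k' h => by
        simp only [Option.some.injEq, Sum.inl.injEq, Sum.inr.injEq, Fin.mk.injEq] at h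
        exact Fin.ext h)] at h4
      exact h4.trans (List.toFinset_card_le l)
    have hJc : N₁ ≤ J.card := by
      refine h2.trans (le_of_eq ?_)
      have h3 : O = J.image (mid hn) := by
        ext o
        rw [mem_image]
        constructor
        · intro ho
          obtain ⟨o', rfl⟩ := h2' o ho
          exact ⟨o', by rw [hJ, mem_filter]; exact ⟨mem_univ _, ho⟩, rfl⟩
        · rintro ⟨o', ho', rfl⟩
          rw [hJ, mem_filter] at ho'
          exact ho'.2
      rw [h3, card_image_of_injective _ (mid_inj hn)]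
    have hsol := hM Q J (by omega)
    have hagr : ∀ y' : Fin h → F, Agr (fun y : Fin h → F => (spl hn).symm (p, y)) l y y' ↔
        ∀ k ∈ Q, y' k = y k := by
      intro y'
      constructor
      · intro h3 k hk
        rw [hQ, mem_filter] at hk
        have h4 := h3 _ hk.2
        change (if hk : k.val < h then y' ⟨k.val, hk⟩ else _) =
          (if hk : k.val < h then y ⟨k.val, hk⟩ else _) at h4
        rw [dif_pos k.isLt, dif_pos k.isLt] at h4
        exact h4
      · rintro h3 (i | k) hk
        · rfl
        · change (if hk : k.val < h then y' ⟨k.val, hk⟩ else _) =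
            (if hk : k.val < h then y ⟨k.val, hk⟩ else _)
          split_ifs with h4
          · apply h3
            rw [hQ, mem_filter]
            exact ⟨mem_univ _, hk⟩
          · rfl
    have e1 : (univ.filter (fun y' : Fin h → F => Agr (fun y : Fin h → F =>
        (spl hn).symm (p, y)) l y y')).card = Fintype.card F ^ (h - Q.card) := by
      rw [← coset' y Q]
      congr 1
      ext y'
      rw [mem_filter, mem_filter, hagr]
    have e2 : (univ.filter (fun y' : Fin h → F => Agr (fun y : Fin h → F =>
        (spl hn).symm (p, y)) l y y' ∧ ∀ o ∈ O, pm ((spl hn).symm (p, y')) o =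
          pm ((spl hn).symm (p, y)) o)).card ≤ (sol (toep hn p.1) Q J).card := by
      rw [← coset (toep hn p.1) y Q J]
      apply card_le_card
      intro y' hy'
      rw [mem_filter, hagr] at hy'
      rw [mem_filter]
      refine ⟨mem_univ _, hy'.2.1, fun o ho => ?_⟩
      rw [hJ, mem_filter] at ho
      have h3 := hy'.2.2 _ ho.2
      rw [hc, hc] at h3
      exact add_right_cancel h3
    rw [e1]
    refine le_trans (le_of_eq (Nat.mul_comm _ _)) ?_
    have h5 : N₁ / 16 ≤ (J.card + 15) / 16 := by omega
    exact le_trans (Nat.mul_le_mul_right _ (card_inst _ _ _).le)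
      ((Nat.mul_le_mul e2 (Nat.pow_le_pow_right hq h5)).trans hsol)

open Classical in
theorem conv_count (hn : 2 * h ≤ n) (p : (Fin n → F) × ({k : Fin n // ¬ k.val < h} → F))
    (hM : LG (toep hn p.1)) (hh : 128 ≤ h)
    (P : Prog (Fin n ⊕ Fin n) (Fin (2 * n)) F) {T N₁ : ℕ} (hN₁ : 1 ≤ N₁)
    (hN : (T / (h / 128) + 1) * N₁ ≤ h) :
    (univ.filter (fun y : Fin h → F => P.Computes ((spl hn).symm (p, y))
      (pm ((spl hn).symm (p, y))) T)).card * Fintype.card F ^ (N₁ / 16) ≤
      Fintype.card P.State * (T * (Fintype.card P.State) ^ 2 + 1) ^ 4 *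
        Fintype.card (Fin h → F) := by
  have hub := union_bound P (fun y : Fin h → F => (spl hn).symm (p, y)) pm
    (fun _ o => ∃ o', o = mid hn o')
    (fun _ => True) (a := h / 128) (N₀ := h) (N₁ := N₁) (T := T)
    (K := Fintype.card (Fin h → F) / Fintype.card F ^ (N₁ / 16))
    (by omega) hN₁ hN (fun y _ => by
      have h1 : (univ : Finset (Fin h)).image (mid hn) ⊆
          univ.filter (fun o => ∃ o', o = mid hn o') := by
        intro o ho
        rw [mem_image] at ho
        obtain ⟨o', -, rfl⟩ := ho
        rw [mem_filter]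
        exact ⟨mem_univ _, o', rfl⟩
      have h2 := card_le_card h1
      rw [card_image_of_injective _ (mid_inj hn), card_univ, Fintype.card_fin] at h2
      exact h2.trans (card_inst _ _ _).le)
    (fun Rel hRel => by
      exact le_trans (card_inst _ _ _).le
        (conv_proc hn p hM (a := h / 128) (N₁ := N₁) (by omega) hRel))
  simp only [true_and] at hub
  calc _ ≤ (Fintype.card P.State * (T * (Fintype.card P.State) ^ 2 + 1) ^ 4 *
        (Fintype.card (Fin h → F) / Fintype.card F ^ (N₁ / 16))) *
        Fintype.card F ^ (N₁ / 16) := Nat.mul_le_mul_right _ (le_trans (card_inst _ _ _).le hub)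
    _ = Fintype.card P.State * (T * (Fintype.card P.State) ^ 2 + 1) ^ 4 *
        (Fintype.card (Fin h → F) / Fintype.card F ^ (N₁ / 16) *
        Fintype.card F ^ (N₁ / 16)) := by ring
    _ ≤ _ := Nat.mul_le_mul_left _ (Nat.div_mul_le_self _ _)

end Pool.Agent.W896.MO
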