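import Pool.Agent.W896.MO.Conv

/-!
# Products of polynomials on programs with a stack: the final form
-/

set_option autoImplicit false
set_option maxHeartbeats 1000000

open Finset

namespace Pool.Agent.W896.MO

/-- Averaging over the random choices, with few bad ones. -/
theorem avg_bad {R Ω : Type} [Fintype R] [Fintype Ω] [Nonempty R] [Nonempty Ω]
    (A : R → Ω → Prop) (Bad : R → Prop) {c : ℕ} (hc : 1 ≤ c)
    (h : Nat.card R * Nat.card Ω ≤ c * Nat.card {u : R × Ω // A u.1 u.2})
    (hb : 2 * c * Nat.card {r // Bad r} ≤ Nat.card R) :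
    ∃ r, ¬ Bad r ∧ Nat.card Ω ≤ 2 * c * Nat.card {y // A r y} := by
  classical
  by_contra hcon
  push Not at hcon
  have e1 : Nat.card {u : R × Ω // A u.1 u.2} = ∑ r, Nat.card {y // A r y} := by
    rw [Nat.card_eq_fintype_card, Fintype.card_subtype, card_filter, Fintype.sum_prod_type]
    refine sum_congr rfl (fun r _ => ?_)
    rw [Nat.card_eq_fintype_card, Fintype.card_subtype, card_filter]
  have hΩ : 0 < Nat.card Ω := Nat.card_pos
  have hR : 0 < Nat.card R := Nat.card_pos
  have h1 : ∀ r, 2 * c * Nat.card {y // A r y} + (if Bad r then 0 else 1) ≤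
      (if Bad r then 2 * c * Nat.card Ω else Nat.card Ω) := by
    intro r
    split_ifs with hr
    · rw [add_zero]
      exact Nat.mul_le_mul_left _ (Nat.card_le_card_of_injective (fun y => y.1)
        Subtype.val_injective)
    · exact hcon r hr
  have h2 := sum_le_sum (fun (r : R) (_ : r ∈ univ) => h1 r)
  rw [sum_add_distrib, ← mul_sum, ← e1, sum_ite, sum_const_zero, zero_add, sum_const, smul_eq_mul,
    mul_one, sum_ite, sum_const, sum_const, smul_eq_mul, smul_eq_mul] at h2
  have e2 : (univ.filter (fun r => Bad r)).card = Nat.card {r // Bad r} := by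
    rw [Nat.card_eq_fintype_card, Fintype.card_subtype]
  have e3 : (univ.filter (fun r => Bad r)).card + (univ.filter (fun r => ¬ Bad r)).card =
      Nat.card R := by
    rw [card_filter_add_card_filter_not, card_univ, Nat.card_eq_fintype_card]
  obtain ⟨x, hx⟩ : ∃ x, x = (univ.filter (fun r => Bad r)).card := ⟨_, rfl⟩
  obtain ⟨y, hy⟩ : ∃ y, y = (univ.filter (fun r => ¬ Bad r)).card := ⟨_, rfl⟩
  rw [← hx] at h2 e2 e3
  rw [← hy] at h2 e3
  rw [← e2] at hb
  have h3 : x * (2 * c * Nat.card Ω) = (2 * c * x) * Nat.card Ω := by ring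
  have h4 : (2 * c * x) * Nat.card Ω ≤ Nat.card R * Nat.card Ω := Nat.mul_le_mul_right _ hb
  have h5 : y * Nat.card Ω ≤ Nat.card R * Nat.card Ω := Nat.mul_le_mul_right _ (by omega)
  have h6 : 2 * (Nat.card R * Nat.card Ω) ≤ 2 * c * Nat.card {u : R × Ω // A u.1 u.2} := by
    calc _ ≤ 2 * (c * Nat.card {u : R × Ω // A u.1 u.2}) := Nat.mul_le_mul_left _ h
      _ = _ := by ring
  have h7 : y = 0 := by omega
  have h8 : 2 * x ≤ 2 * c * x := Nat.mul_le_mul_right _ (by omega)
  omega

variable {F : Type} [Field F] [Fintype F] {n : ℕ}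

/-- **The trade-off for the product of polynomials**, for randomised programs. -/
theorem conv_main [DecidableEq F] (T π s : ℕ) (R : Type) [Fintype R] [Nonempty R]
    (P : R → Prog (Fin n ⊕ Fin n) (Fin (2 * n)) F)
    (hs : ∀ r, Fintype.card (P r).State ≤ s)
    (hc : Nat.card R * Fintype.card F ^ (2 * n) ≤ 2 ^ π *
      Nat.card {u : R × (Fin n ⊕ Fin n → F) // (P u.1).Computes u.2 (pm u.2) T}) :
    (n : ℝ) ^ 2 * Real.logb 2 (Fintype.card F) ≤
      2 ^ 22 * T * (Real.logb 2 s + π + Real.logb 2 (Fintype.card F)) := by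
  classical
  obtain ⟨q, hq⟩ : ∃ q, q = Fintype.card F := ⟨_, rfl⟩
  have hq2 : 2 ≤ q := by rw [hq]; exact Fintype.one_lt_card
  rw [← hq] at hc ⊢
  obtain ⟨r₁, x₁, hv⟩ : ∃ r, ∃ x : Fin n ⊕ Fin n → F, (P r).Computes x (pm x) T := by
    by_contra hcon
    push Not at hcon
    have h1 : Nat.card {u : R × (Fin n ⊕ Fin n → F) //
        (P u.1).Computes u.2 (pm u.2) T} = 0 := by
      rw [Nat.card_eq_zero]
      left
      exact ⟨fun v => hcon v.1.1 v.1.2 v.2⟩
    rw [h1, mul_zero] at hc
    have h2 : 0 < Nat.card R * q ^ (2 * n) := Nat.mul_pos Nat.card_pos (by positivity)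
    omega
  have hns : 2 * n ≤ s := by
    have h1 := hv.card_le
    rw [Fintype.card_fin] at h1
    exact h1.trans (hs r₁)
  have hT : 2 * n ≤ T := by
    have h1 := hv.card_le'
    rwa [Fintype.card_fin] at h1
  have hs1 : 1 ≤ s := le_trans (Fintype.card_pos_iff.2 ⟨(P r₁).start⟩) (hs r₁)
  obtain ⟨L, hL⟩ : ∃ L, L = Real.logb 2 (s : ℝ) := ⟨_, rfl⟩
  obtain ⟨K, hK⟩ : ∃ K, K = Real.logb 2 (q : ℝ) := ⟨_, rfl⟩
  have hL0 : 0 ≤ L := by rw [hL]; exact Real.logb_nonneg (by norm_num) (by exact_mod_cast hs1)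
  have hK1 : 1 ≤ K := by
    rw [hK, Real.le_logb_iff_rpow_le (by norm_num) (by exact_mod_cast (by omega : 0 < q))]
    simp only [Real.rpow_one]
    exact_mod_cast hq2
  rw [← hL, ← hK]
  have hT0 : (0 : ℝ) ≤ T := Nat.cast_nonneg _
  have hπ0 : (0 : ℝ) ≤ π := Nat.cast_nonneg _
  have hn0 : (0 : ℝ) ≤ n := Nat.cast_nonneg _
  have easy : (n : ℝ) ^ 2 ≤ 2 ^ 22 * T → (n : ℝ) ^ 2 * K ≤ 2 ^ 22 * T * (L + π + K) := by
    intro h1
    calc (n : ℝ) ^ 2 * K ≤ (2 ^ 22 * T) * K := mul_le_mul_of_nonneg_right h1 (by linarith)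
      _ ≤ _ := mul_le_mul_of_nonneg_left (by linarith) (by positivity)
  by_cases hn : 256 ≤ n
  swap
  · apply easy
    have h1 : n ^ 2 ≤ 2 ^ 22 * T := by
      calc n ^ 2 = n * n := by ring
        _ ≤ 256 * T := Nat.mul_le_mul (by omega) (by omega)
        _ ≤ _ := Nat.mul_le_mul_right _ (by norm_num)
    exact_mod_cast h1
  obtain ⟨h, hh⟩ : ∃ h, h = n / 2 := ⟨_, rfl⟩
  have h2n : 2 * h ≤ n := by omega
  have h128 : 128 ≤ h := by omega
  have h3n : n ≤ 3 * h := by omega
  by_cases hT2 : T < h ^ 2 * 1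
  swap
  · apply easy
    push Not at hT2
    have h1 : n ^ 2 ≤ 2 ^ 22 * T := by
      calc n ^ 2 ≤ (3 * h) ^ 2 := Nat.pow_le_pow_left h3n 2
        _ = 9 * (h ^ 2 * 1) := by ring
        _ ≤ 9 * T := Nat.mul_le_mul_left _ hT2
        _ ≤ _ := Nat.mul_le_mul_right _ (by norm_num)
    exact_mod_cast h1
  by_cases hπ : 2 ^ (π + 1) ≤ q ^ (h / 8)
  swap
  · -- the trivial case
    push Not at hπ
    have h1 : ((h / 8 : ℕ) : ℝ) * K ≤ π + 1 := by
      have h4 : (q : ℝ) ^ (h / 8) ≤ 2 ^ (π + 1) := by exact_mod_cast hπ.le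
      have h5 := Real.logb_le_logb_of_le (b := 2) (by norm_num)
        (by have : (0 : ℝ) < q := by exact_mod_cast (by omega : 0 < q)
            positivity) h4
      rw [Real.logb_pow, Real.logb_pow, Real.logb_self_eq_one (by norm_num), ← hK] at h5
      push_cast at h5
      linarith
    have h2 : (n : ℝ) ≤ 24 * ((h / 8 : ℕ) + 1) := by
      have : n ≤ 24 * (h / 8 + 1) := by omega
      exact_mod_cast this
    have h3 : (n : ℝ) ≤ T := by
      have : n ≤ T := by omega
      exact_mod_cast this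
    calc (n : ℝ) ^ 2 * K = n * (n * K) := by ring
      _ ≤ n * (24 * ((h / 8 : ℕ) + 1) * K) := by
          apply mul_le_mul_of_nonneg_left _ hn0
          exact mul_le_mul_of_nonneg_right h2 (by linarith)
      _ = n * (24 * (((h / 8 : ℕ) : ℝ) * K + K)) := by ring
      _ ≤ n * (24 * ((π + 1) + K)) := by
          apply mul_le_mul_of_nonneg_left _ hn0
          linarith
      _ ≤ n * (48 * (L + π + K)) := by
          apply mul_le_mul_of_nonneg_left _ hn0
          linarith
      _ ≤ T * (48 * (L + π + K)) := mul_le_mul_of_nonneg_right h3 (by positivity)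
      _ = 48 * T * (L + π + K) := by ring
      _ ≤ 2 ^ 22 * T * (L + π + K) := by
          apply mul_le_mul_of_nonneg_right _ (by positivity)
          exact mul_le_mul_of_nonneg_right (by norm_num) hT0
  · -- a good seed
    obtain ⟨S, hS⟩ : ∃ S : Type, S = ((Fin n → F) × ({k : Fin n // ¬ k.val < h} → F)) := ⟨_, rfl⟩
    have hcardB : Nat.card ({k : Fin n // ¬ k.val < h} → F) = q ^ (n - h) := by
      rw [Nat.card_eq_fintype_card, Fintype.card_fun, Fintype.card_subtype_compl,
        Fintype.card_fin, ← hq]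
      congr 2
      rw [Fintype.card_subtype]
      have h1 : (univ.filter (fun k : Fin n => k.val < h)) =
          (univ : Finset (Fin h)).image (Fin.castLE (by omega : h ≤ n)) := by
        ext k
        rw [mem_filter, mem_image]
        constructor
        · rintro ⟨-, hk⟩
          exact ⟨⟨k.val, hk⟩, mem_univ _, rfl⟩
        · rintro ⟨k', -, rfl⟩
          exact ⟨mem_univ _, k'.isLt⟩
      rw [h1, card_image_of_injective _ (Fin.castLE_injective _), card_univ, Fintype.card_fin]
    have hcardA : Nat.card (Fin n → F) = q ^ n := by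
      rw [Nat.card_eq_fintype_card, Fintype.card_fun, Fintype.card_fin, ← hq]
    have hcardY : Nat.card (Fin h → F) = q ^ h := by
      rw [Nat.card_eq_fintype_card, Fintype.card_fun, Fintype.card_fin, ← hq]
    have hbad : 2 * 2 ^ π * Nat.card {a : Fin n → F // ¬ LG (toep h2n a)} ≤ q ^ n := by
      have h1 := seed_bad (F := F) h2n (by omega)
      rw [← hq] at h1
      rw [Nat.card_eq_fintype_card, Fintype.card_subtype]
      calc _ = 2 ^ (π + 1) * (univ.filter (fun a : Fin n → F => ¬ LG (toep h2n a))).card := by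
            rw [pow_succ]; ring
        _ ≤ q ^ (h / 8) * (univ.filter (fun a : Fin n → F => ¬ LG (toep h2n a))).card :=
            Nat.mul_le_mul_right _ hπ
        _ ≤ q ^ n := by rw [Nat.mul_comm]; exact h1
    obtain ⟨r, hr1, hr2⟩ := avg_bad
      (R := R × ((Fin n → F) × ({k : Fin n // ¬ k.val < h} → F))) (Ω := Fin h → F)
      (fun r y => (P r.1).Computes ((spl h2n).symm (r.2, y)) (pm ((spl h2n).symm (r.2, y))) T)
      (fun r => ¬ LG (toep h2n r.2.1)) (c := 2 ^ π) Nat.one_le_two_pow (by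
        have e1 : Nat.card {u : R × (Fin n ⊕ Fin n → F) // (P u.1).Computes u.2 (pm u.2) T} =
            Nat.card {u : (R × ((Fin n → F) × ({k : Fin n // ¬ k.val < h} → F))) × (Fin h → F) //
              (P u.1.1).Computes ((spl h2n).symm (u.1.2, u.2))
                (pm ((spl h2n).symm (u.1.2, u.2))) T} := by
          refine (Nat.card_congr (Equiv.subtypeEquiv ((Equiv.prodAssoc _ _ _).trans
            (Equiv.prodCongr (Equiv.refl R) (spl h2n).symm)) ?_)).symm
          rintro ⟨⟨r, ab⟩, y⟩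
          rfl
        rw [← e1, Nat.card_prod, Nat.card_prod, hcardA, hcardB, hcardY]
        calc _ = Nat.card R * (q ^ n * q ^ (n - h) * q ^ h) := by ring
          _ = Nat.card R * q ^ (2 * n) := by
              rw [← pow_add, ← pow_add]; congr 2; omega
          _ ≤ _ := hc) (by
        have e1 : Nat.card {r : R × ((Fin n → F) × ({k : Fin n // ¬ k.val < h} → F)) //
            ¬ LG (toep h2n r.2.1)} = Nat.card R * (Nat.card {a : Fin n → F //
              ¬ LG (toep h2n a)} * Nat.card ({k : Fin n // ¬ k.val < h} → F)) := by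
          rw [← Nat.card_prod, ← Nat.card_prod]
          exact Nat.card_congr ⟨fun r => (r.1.1, (⟨r.1.2.1, r.2⟩, r.1.2.2)),
            fun r => ⟨(r.1, (r.2.1.1, r.2.2)), r.2.1.2⟩, fun r => rfl, fun r => rfl⟩
        rw [e1, Nat.card_prod, Nat.card_prod, hcardA]
        calc _ = Nat.card R * ((2 * 2 ^ π * Nat.card {a : Fin n → F // ¬ LG (toep h2n a)}) *
              Nat.card ({k : Fin n // ¬ k.val < h} → F)) := by ring
          _ ≤ _ := Nat.mul_le_mul_left _ (Nat.mul_le_mul_right _ hbad))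
    have hgood : LG (toep h2n r.2.1) := not_not.1 hr1
    obtain ⟨s₀, hs₀⟩ : ∃ s₀, s₀ = Fintype.card (P r.1).State := ⟨_, rfl⟩
    have hs₀' : s₀ ≤ s := by rw [hs₀]; exact hs r.1
    obtain ⟨a, ha⟩ : ∃ a, a = h / 128 := ⟨_, rfl⟩
    obtain ⟨N, hN⟩ : ∃ N, N = (h * 1) / (T / a + 1) := ⟨_, rfl⟩
    have hmain : q ^ (N / 16) ≤ 2 ^ (π + 1) * (s * (T * s ^ 2 + 1) ^ 4) := by
      rcases Nat.eq_zero_or_pos N with hN0 | hN1
      · rw [hN0, Nat.zero_div, pow_zero]
        have h2 : 1 ≤ (T * s ^ 2 + 1) ^ 4 := Nat.one_le_pow _ _ (Nat.succ_pos _)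
        have h3 : 1 ≤ 2 ^ (π + 1) := Nat.one_le_two_pow
        calc 1 = 1 * (1 * 1) := by norm_num
          _ ≤ _ := Nat.mul_le_mul h3 (Nat.mul_le_mul hs1 h2)
      · have h1 := conv_count h2n r.2 hgood h128 (P r.1) (T := T) (N₁ := N) hN1 (by
          rw [← ha, hN, mul_one]
          exact Nat.mul_div_le _ _)
        rw [← hq, ← hs₀] at h1
        have h2 : Fintype.card (Fin h → F) = q ^ h := by
          rw [Fintype.card_fun, Fintype.card_fin, ← hq]
        rw [h2] at h1
        rw [hcardY, Nat.card_eq_fintype_card, Fintype.card_subtype] at hr2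
        have h3 : 0 < q ^ h := by positivity
        refine Nat.le_of_mul_le_mul_left ?_ h3
        calc q ^ h * q ^ (N / 16) ≤ (2 * 2 ^ π * _) * q ^ (N / 16) := Nat.mul_le_mul_right _ hr2
          _ = 2 ^ (π + 1) * (_ * q ^ (N / 16)) := by rw [pow_succ]; ring
          _ ≤ 2 ^ (π + 1) * _ := Nat.mul_le_mul_left _ h1
          _ ≤ 2 ^ (π + 1) * (s * (T * s ^ 2 + 1) ^ 4 * q ^ h) := by
              apply Nat.mul_le_mul_left
              apply Nat.mul_le_mul_right
              apply Nat.mul_le_mul hs₀'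
              apply Nat.pow_le_pow_left
              apply Nat.succ_le_succ
              exact Nat.mul_le_mul_left _ (Nat.pow_le_pow_left hs₀' 2)
          _ = _ := by ring
    have hfin := final_arith (n := h) (m := 1) (T := T) (s := s) (q := q) (π := π + 1) (N := N)
      (a := a) h128 hq2 (by omega) (by omega) hT2 ha hN hmain
    rw [← hL, ← hK] at hfin
    push_cast at hfin
    have h9 : (n : ℝ) ^ 2 ≤ 9 * (h : ℝ) ^ 2 := by
      have h1 : n ^ 2 ≤ 9 * h ^ 2 := by
        calc n ^ 2 ≤ (3 * h) ^ 2 := Nat.pow_le_pow_left h3n 2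
          _ = _ := by ring
      exact_mod_cast h1
    calc (n : ℝ) ^ 2 * K ≤ 9 * (h : ℝ) ^ 2 * K := mul_le_mul_of_nonneg_right h9 (by linarith)
      _ = 9 * ((h : ℝ) ^ 2 * 1 * K) := by ring
      _ ≤ 9 * (2 ^ 18 * T * (L + (π + 1) + K)) := by
          apply mul_le_mul_of_nonneg_left _ (by norm_num)
          exact hfin
      _ = (2 ^ 18 * T) * (9 * (L + (π + 1) + K)) := by ring
      _ ≤ (2 ^ 18 * T) * (16 * (L + π + K)) := by
          apply mul_le_mul_of_nonneg_left _ (by positivity)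
          have hL1 : 1 ≤ L := by
            rw [hL, Real.le_logb_iff_rpow_le (by norm_num) (by exact_mod_cast hs1)]
            simp only [Real.rpow_one]
            have : 2 ≤ s := by omega
            exact_mod_cast this
          linarith
      _ = _ := by ring

end Pool.Agent.W896.MO
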