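import Pool.Agent.W896.MO.Union

/-!
# The pieces of a computation, as a family of procedures
-/

set_option autoImplicit false
set_option maxHeartbeats 1000000

open Finset

namespace Pool.Agent.W896.MO

variable {ι ω α : Type}

/-- The descriptions of procedures. -/
abbrev Desc (P : Prog ι ω α) (T : ℕ) : Type :=
  Option (P.State × (Fin 4 → Option (Fin T × P.State × P.State)))

/-- The procedure with a description; `none` describes the procedure which does nothing. -/
def relD (P : Prog ι ω α) {T : ℕ} (D : Desc P T) : (ι → α) → List (Option (Ev ι ω α)) → Prop :=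
  match D with
  | none => fun _ l => l = []
  | some u => relOf P u.1 (dec u.2)

theorem proc_relD (P : Prog ι ω α) {T : ℕ} (D : Desc P T) : Proc (relD P D) := by
  cases D with
  | none =>
    refine ⟨?_, ?_⟩
    · intro x y l l' h1 h2 _
      exact h1.trans h2.symm
    · intro x y l h _
      exact h
  | some u => exact proc_relOf P u.1 (dec u.2)

theorem card_Desc (P : Prog ι ω α) (T : ℕ) : Fintype.card (Desc P T) =
    Fintype.card P.State * (T * (Fintype.card P.State) ^ 2 + 1) ^ 4 + 1 := by
  unfold Desc
  rw [Fintype.card_option, Fintype.card_prod, card_dec]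

/-- The outputs are written by few procedures with few reads and writes. -/
theorem cover (P : Prog ι ω α) {a T : ℕ} (ha : 1 ≤ a) {x : ι → α} {y : ω → α}
    (h : P.Computes x y T) :
    ∃ (σ : Fin (T / a + 1) → Desc P T) (l : Fin (T / a + 1) → List (Option (Ev ι ω α))),
      (∀ j, relD P (σ j) x (l j)) ∧ (∀ j, (l j).length ≤ 4 * a) ∧
      (∀ j o v, some (.inr (o, v)) ∈ l j → v = y o) ∧ ∀ o, ∃ j, some (.inr (o, y o)) ∈ l j := by
  classical
  obtain ⟨l, h1, h2, h3, h4⟩ := h
  obtain ⟨p, h5, -⟩ : ∃ p, Ret (toQP P) (ext x) P.start l p ∧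
      (toQP P).act p = QAct.halt := h1.toDec
  obtain ⟨e, h6⟩ := h5.toDer 0
  have hw : ∀ l : List (Ev ι ω α), wt a (l.map some) = l.length := by
    intro l
    induction l with
    | nil => rfl
    | cons b l ih => simp only [List.map_cons, wt, List.length_cons, ih]; omega
  obtain ⟨L, b1, b2, b3, b4, b5⟩ := pieces ha (wt a (l.map some)) (fun _ => none) P.start p
    (l.map some) e le_rfl h6 (fun c hc => absurd rfl hc)
  rw [hw] at b5
  have hL : L.length ≤ T / a + 1 := by
    have h7 : L.length * a ≤ T + a := by omega
    have h8 : L.length ≤ (T + a) / a := (Nat.le_div_iff_mul_le (by omega)).2 h7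
    rwa [Nat.add_div_right _ (by omega)] at h8
  have hlen : ∀ l : List (Option (Ev ι ω α)), l.length ≤ wt a l := len_le_wt ha
  have key : ∀ l' ∈ L, ∃ D : Desc P T, relD P D x l' := by
    intro l' h7
    obtain ⟨q, p', H, e', h9, h10, h11⟩ := b1 l' h7
    have hcnt : nn l' ≤ 4 := by
      have h12 := nn_wt a l'
      have h13 : nn l' * a ≤ 4 * a := by omega
      exact Nat.le_of_mul_le_mul_right h13 (by omega)
    have hHT : ∀ c, H c ≠ none → c < T := by
      intro c hc
      have h12 := h11 c hc
      have h13 : c < l'.length := by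
        by_contra h14
        rw [List.getElem?_eq_none (by omega)] at h12
        simp at h12
      have h14 := b3 l' h7
      rw [List.length_map] at h14
      omega
    obtain ⟨d, hd⟩ := exists_dec H hHT (by
      refine le_trans ?_ hcnt
      have h12 : (((range T).filter (fun c => H c ≠ none)).card) ≤
          ((range l'.length).filter (fun c => l'[c]? = some none)).card := by
        apply card_le_card
        intro c hc
        rw [mem_filter, mem_range] at hc ⊢
        have h13 := h11 c hc.2
        refine ⟨?_, h13⟩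
        by_contra h14
        rw [List.getElem?_eq_none (by omega)] at h13
        simp at h13
      exact h12.trans (card_nn l').le)
    refine ⟨some (q, d), p', e', ?_⟩
    subst hd
    exact h9
  have hex : ∀ j : Fin (T / a + 1), ∃ (D : Desc P T) (l' : List (Option (Ev ι ω α))),
      relD P D x l' ∧ l'.length ≤ 4 * a ∧ (∀ o v, some (.inr (o, v)) ∈ l' → v = y o) ∧
      ∀ h : j.val < L.length, l' = L[j.val] := by
    intro j
    by_cases hj : j.val < L.length
    · have h7 : L[j.val] ∈ L := List.getElem_mem hj
      obtain ⟨D, hD⟩ := key _ h7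
      refine ⟨D, L[j.val], hD, ?_, ?_, fun _ => rfl⟩
      · obtain ⟨q, p', H, e', h9, h10, h11⟩ := b1 _ h7
        exact (hlen _).trans h10
      · intro o v hv
        have h12 := b2 _ h7 _ hv
        rw [List.mem_map] at h12
        obtain ⟨ev, h13, h14⟩ := h12
        rw [Option.some.injEq] at h14
        rw [h14] at h13
        exact h3 o v h13
    · exact ⟨none, [], rfl, Nat.zero_le _, fun o v hv => by simp at hv, fun h => absurd h hj⟩
  choose σ l'' hl'' using hex
  refine ⟨σ, l'', fun j => (hl'' j).1, fun j => (hl'' j).2.1, fun j => (hl'' j).2.2.1, ?_⟩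
  intro o
  obtain ⟨l', h8, h9⟩ := b4 _ (List.mem_map_of_mem (f := some) (h4 o))
  obtain ⟨j, hj, hj'⟩ := List.getElem_of_mem h8
  refine ⟨⟨j, by omega⟩, ?_⟩
  rw [(hl'' ⟨j, by omega⟩).2.2.2 hj]
  exact hj' ▸ h9

end Pool.Agent.W896.MO
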