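import Mathlib

/-!
# Programs with outputs and a stack: definitions
-/

set_option autoImplicit false

namespace Pool.Agent.W896.MO

/-- What is done in a node of a program: `read i nxt` reads the input `i` and proceeds to the node
`nxt v`, `v` being its value; `write o v q` writes the value `v` for the output `o` and proceeds to
the node `q`; `push a q` puts the symbol `a` on the stack and proceeds to the node `q`; `pop nxt`
removes the symbol `a` on the top of the stack and proceeds to the node `nxt a` (if the stack is
empty then the computation fails); `halt` ends the computation. -/
inductive Act (ι ω α S Γ : Type) where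
  | read (i : ι) (nxt : α → S)
  | write (o : ω) (v : α) (q : S)
  | push (a : Γ) (q : S)
  | pop (nxt : Γ → S)
  | halt

/-- A (deterministic) program with a stack, with inputs `ι`, outputs `ω` and values `α`. There are
finitely many nodes; the stack symbols may be the elements of any type, and there is no bound on
the height of the stack or on the number of steps. -/
structure Prog (ι ω α : Type) where
  /-- the nodes -/
  State : Type
  /-- there are finitely many of them -/
  [fintype : Fintype State]
  /-- the stack symbols -/
  Sym : Type
  /-- the start node -/
  start : State
  /-- what is done in a node -/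
  act : State → Act ι ω α State Sym

attribute [instance] Prog.fintype

variable {ι ω α : Type}

/-- `P.Runs x q σ l`: on the input `x`, from the node `q` with the stack `σ`, the program `P` does
the reads (`inl i`) and writes (`inr (o, v)`) of the list `l`, in this order, and then halts. -/
inductive Prog.Runs (P : Prog ι ω α) (x : ι → α) :
    P.State → List P.Sym → List (ι ⊕ (ω × α)) → Prop
  | halt {q : P.State} {σ : List P.Sym} (h : P.act q = Act.halt) : Runs P x q σ []
  | read {q : P.State} {σ : List P.Sym} {i : ι} {nxt : α → P.State} {l : List (ι ⊕ (ω × α))}
      (h : P.act q = Act.read i nxt) (r : Runs P x (nxt (x i)) σ l) : Runs P x q σ (.inl i :: l)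
  | write {q : P.State} {σ : List P.Sym} {o : ω} {v : α} {q' : P.State}
      {l : List (ι ⊕ (ω × α))} (h : P.act q = Act.write o v q') (r : Runs P x q' σ l) :
      Runs P x q σ (.inr (o, v) :: l)
  | push {q : P.State} {σ : List P.Sym} {a : P.Sym} {q' : P.State} {l : List (ι ⊕ (ω × α))}
      (h : P.act q = Act.push a q') (r : Runs P x q' (a :: σ) l) : Runs P x q σ l
  | pop {q : P.State} {a : P.Sym} {σ : List P.Sym} {nxt : P.Sym → P.State}
      {l : List (ι ⊕ (ω × α))} (h : P.act q = Act.pop nxt) (r : Runs P x (nxt a) σ l) :
      Runs P x q (a :: σ) l

/-- On the input `x` the program, started with the empty stack, halts after at most `T` reads and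
writes; it writes the right value `y o` for every output `o`, and no wrong values. -/
def Prog.Computes (P : Prog ι ω α) (x : ι → α) (y : ω → α) (T : ℕ) : Prop :=
  ∃ l, P.Runs x P.start [] l ∧ l.length ≤ T ∧ (∀ o v, .inr (o, v) ∈ l → v = y o) ∧
    ∀ o, .inr (o, y o) ∈ l

end Pool.Agent.W896.MO
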