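import Pool.Agent.W896.MO.Cover

/-!
# Encoders with a stack: the count
-/

set_option autoImplicit false
set_option maxHeartbeats 1000000

open Finset

namespace Pool.Agent.W896.MO

/-- A small set is covered by a function. -/
theorem cover_fun {M c : ℕ} (J : Finset (Fin (M + 1))) (h : J.card ≤ c) :
    ∃ G : Fin c → Fin (M + 1), ∀ j ∈ J, ∃ t, G t = j := by
  refine ⟨fun t => if h : t.val < J.card then (J.equivFin.symm ⟨t.val, h⟩).1 else 0, ?_⟩
  intro j hj
  refine ⟨⟨(J.equivFin ⟨j, hj⟩).val, lt_of_lt_of_le (J.equivFin ⟨j, hj⟩).isLt h⟩, ?_⟩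
  simp only
  rw [dif_pos (J.equivFin ⟨j, hj⟩).isLt]
  have h1 : (⟨(J.equivFin ⟨j, hj⟩).val, (J.equivFin ⟨j, hj⟩).isLt⟩ : Fin J.card) =
      J.equivFin ⟨j, hj⟩ := rfl
  rw [h1, Equiv.symm_apply_apply]

/-- The number of the elements which occur in a list. -/
theorem occ_le {κ β : Type} [Fintype κ] [DecidableEq β] (f : κ → β) (hf : Function.Injective f)
    (l : List β) [DecidablePred (fun i => f i ∈ l)] :
    (univ.filter (fun i => f i ∈ l)).card ≤ l.length := by
  classical
  have h3 : (univ.filter (fun i => f i ∈ l)).image f ⊆ l.toFinset := by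
    intro e he
    rw [mem_image] at he
    obtain ⟨k, hk, rfl⟩ := he
    rw [mem_filter] at hk
    exact List.mem_toFinset.2 hk.2
  have h4 := card_le_card h3
  rw [card_image_of_injective _ hf] at h4
  exact h4.trans (List.toFinset_card_le l)

/-- Many elements are in few sets only; hence many of them are covered by a common function. -/
theorem common {k M c b : ℕ} (hc : 1 ≤ c) (J : Fin k → Finset (Fin (M + 1)))
    (hJ : ∑ i, (J i).card ≤ b) (hb : 2 * b ≤ c * k) :
    ∃ G : Fin c → Fin (M + 1), k / (2 * (M + 1) ^ c) ≤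
      (univ.filter (fun i => ∀ j ∈ J i, ∃ t, G t = j)).card := by
  classical
  have h1 : (univ.filter (fun i => ¬ (J i).card ≤ c)).card * c ≤ b := by
    refine le_trans ?_ hJ
    rw [← smul_eq_mul, ← sum_const]
    refine le_trans (sum_le_sum (fun i hi => ?_)) (sum_le_sum_of_subset (subset_univ _))
    rw [mem_filter] at hi
    omega
  have h2 := card_filter_add_card_filter_not (s := (univ : Finset (Fin k)))
    (fun i => (J i).card ≤ c)
  rw [card_univ, Fintype.card_fin] at h2
  have h3 : k ≤ 2 * (univ.filter (fun i => (J i).card ≤ c)).card := by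
    have h4 : 2 * (univ.filter (fun i => ¬ (J i).card ≤ c)).card ≤ k := by
      have h5 : c * (2 * (univ.filter (fun i => ¬ (J i).card ≤ c)).card) ≤ c * k := by
        calc _ = 2 * ((univ.filter (fun i => ¬ (J i).card ≤ c)).card * c) := by ring
          _ ≤ 2 * b := Nat.mul_le_mul_left _ h1
          _ ≤ _ := hb
      exact Nat.le_of_mul_le_mul_left h5 (by omega)
    omega
  by_contra hcon
  push Not at hcon
  have h4 : univ.filter (fun i => (J i).card ≤ c) ⊆
      (univ : Finset (Fin c → Fin (M + 1))).biUnion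
        (fun G => univ.filter (fun i => ∀ j ∈ J i, ∃ t, G t = j)) := by
    intro i hi
    rw [mem_filter] at hi
    obtain ⟨G, hG⟩ := cover_fun (J i) hi.2
    rw [mem_biUnion]
    exact ⟨G, mem_univ _, mem_filter.2 ⟨mem_univ _, hG⟩⟩
  have h5 : (univ.filter (fun i => (J i).card ≤ c)).card <
      ∑ _G : Fin c → Fin (M + 1), k / (2 * (M + 1) ^ c) :=
    lt_of_le_of_lt ((card_le_card h4).trans card_biUnion_le)
      (sum_lt_sum_of_nonempty univ_nonempty (fun G _ => hcon G))
  rw [sum_const, card_univ, Fintype.card_fun, Fintype.card_fin, Fintype.card_fin,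
    smul_eq_mul] at h5
  have h6 : 2 * ((M + 1) ^ c * (k / (2 * (M + 1) ^ c))) ≤ k := by
    rw [← mul_assoc]
    exact Nat.mul_div_le _ _
  omega

variable {k n : ℕ}

theorem enc_count (P : Prog (Fin k) (Fin n) Bool) {a T c d : ℕ} (ha : 1 ≤ a) (hc : 1 ≤ c)
    (hck : 8 * a * (T / a + 1) ≤ c * k) (hd : 4 * a * c < d)
    (E : (Fin k → Bool) → Fin n → Bool) (A : Finset (Fin k → Bool))
    (hA : ∀ x ∈ A, P.Computes x (E x) T)
    (hE : ∀ x ∈ A, ∀ x' ∈ A, x ≠ x' → d ≤ hammingDist (E x) (E x')) :
    A.card * 2 ^ (k / (2 * (T / a + 1) ^ c)) ≤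
      (Fintype.card (Desc P T)) ^ (T / a + 1) * (T / a + 1) ^ c * 2 ^ k := by
  classical
  obtain ⟨M, hM⟩ : ∃ M, M = T / a := ⟨_, rfl⟩
  have hcov : ∀ x, ∃ (σ : Fin (M + 1) → Desc P T)
      (l : Fin (M + 1) → List (Option (Ev (Fin k) (Fin n) Bool))), x ∈ A →
      (∀ j, relD P (σ j) x (l j)) ∧ (∀ j, (l j).length ≤ 4 * a) ∧
      (∀ j o v, some (.inr (o, v)) ∈ l j → v = E x o) ∧
      ∀ o, ∃ j, some (.inr (o, E x o)) ∈ l j := by
    intro x
    by_cases hx : x ∈ A
    · subst hM
      obtain ⟨σ, l, h⟩ := cover P ha (hA x hx)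
      exact ⟨σ, l, fun _ => h⟩
    · exact ⟨fun _ => none, fun _ => [], fun h => absurd h hx⟩
  rw [← hM] at hck ⊢
  choose σ l hl using hcov
  have hinj : ∀ j : Fin (M + 1), Function.Injective
      (fun i : Fin k => (some (.inl i) : Option (Ev (Fin k) (Fin n) Bool))) := by
    intro _ i i' h
    simpa using h
  have hG : ∀ x, ∃ G : Fin c → Fin (M + 1), x ∈ A → k / (2 * (M + 1) ^ c) ≤
      (univ.filter (fun i : Fin k => ∀ j, some (.inl i) ∈ l x j → ∃ t, G t = j)).card := by
    intro x
    by_cases hx : x ∈ A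
    · obtain ⟨G, hG⟩ := common (k := k) (M := M) (c := c) (b := 4 * a * (M + 1)) hc
        (fun i => univ.filter (fun j => some (.inl i) ∈ l x j)) (by
          calc ∑ i : Fin k, (univ.filter (fun j => some (.inl i) ∈ l x j)).card =
                ∑ j, (univ.filter (fun i : Fin k => some (.inl i) ∈ l x j)).card := by
                simp only [card_filter]
                exact sum_comm
            _ ≤ ∑ _j : Fin (M + 1), 4 * a := by
                refine sum_le_sum (fun j _ => ?_)
                exact (occ_le _ (hinj j) (l x j)).trans ((hl x hx).2.1 j)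
            _ = _ := by
                rw [sum_const, card_univ, Fintype.card_fin, smul_eq_mul]; ring) (by
          calc _ = 8 * a * (M + 1) := by ring
            _ ≤ _ := hck)
      refine ⟨G, fun _ => hG.trans (le_of_eq ?_)⟩
      congr 1
      ext i
      simp only [mem_filter, mem_univ, true_and]
    · exact ⟨fun _ => 0, fun h => absurd h hx⟩
  choose G hG using hG
  -- the free bits
  obtain ⟨D, hD⟩ : ∃ D : (Fin k → Bool) → Finset (Fin k), ∀ x, D x =
      univ.filter (fun i : Fin k => ∀ j, some (.inl i) ∈ l x j → ∃ t, G x t = j) :=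
    ⟨_, fun _ => rfl⟩
  obtain ⟨Cl, hCl⟩ : ∃ Cl : (Fin k → Bool) → Finset (Fin k → Bool), ∀ x, Cl x =
      univ.filter (fun y => ∀ i, i ∉ D x → y i = x i) := ⟨_, fun _ => rfl⟩
  have hcl : ∀ x ∈ A, 2 ^ (k / (2 * (M + 1) ^ c)) ≤ (Cl x).card := by
    intro x hx
    have h1 : Fintype.card ({i : Fin k // i ∈ D x} → Bool) = 2 ^ (D x).card := by
      rw [Fintype.card_fun, Fintype.card_coe, Fintype.card_bool]
    refine (Nat.pow_le_pow_right (by norm_num) (hG x hx)).trans ?_
    rw [← hD, ← h1, ← Fintype.card_coe]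
    refine Fintype.card_le_of_injective (fun f => ⟨fun i => if h : i ∈ D x then f ⟨i, h⟩ else x i,
      ?_⟩) ?_
    · rw [hCl, mem_filter]
      refine ⟨mem_univ _, fun i hi => ?_⟩
      exact dif_neg hi
    · intro f f' hff
      funext i
      have h2 := congrFun (congrArg Subtype.val hff) i.1
      change (if h : i.1 ∈ D x then f ⟨i.1, h⟩ else x i.1) =
        (if h : i.1 ∈ D x then f' ⟨i.1, h⟩ else x i.1) at h2
      rw [dif_pos i.2, dif_pos i.2] at h2
      exact h2
  -- one fibre
  have hfib : ∀ (s : (Fin (M + 1) → Desc P T) × (Fin c → Fin (M + 1))),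
      (A.filter (fun x => (σ x, G x) = s)).card * 2 ^ (k / (2 * (M + 1) ^ c)) ≤ 2 ^ k := by
    rintro ⟨σ₀, G₀⟩
    obtain ⟨B, hB⟩ : ∃ B, B = A.filter (fun x => (σ x, G x) = (σ₀, G₀)) := ⟨_, rfl⟩
    rw [← hB]
    have hdis : (↑B : Set (Fin k → Bool)).PairwiseDisjoint Cl := by
      intro x hx x' hx' hne
      rw [Function.onFun, disjoint_left]
      intro y hy hy'
      rw [mem_coe, hB, mem_filter, Prod.mk.injEq] at hx hx'
      rw [hCl, mem_filter] at hy hy'
      obtain ⟨hxA, hxσ, hxG⟩ := hx
      obtain ⟨hxA', hxσ', hxG'⟩ := hx'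
      have hsame : ∀ j, (¬ ∃ t, G₀ t = j) → l x j = l x' j := by
        intro j hj
        have e1 := (hl x hxA).1 j
        have e2 := (hl x' hxA').1 j
        rw [hxσ] at e1
        rw [hxσ'] at e2
        have e3 := (proc_relD P (σ₀ j)).trans _ y _ e1 (fun i hi => hy.2 i (by
          rw [hD, mem_filter]
          intro h
          apply hj
          rw [← hxG]
          exact h.2 j hi))
        have e4 := (proc_relD P (σ₀ j)).trans _ y _ e2 (fun i hi => hy'.2 i (by
          rw [hD, mem_filter]
          intro h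
          apply hj
          rw [← hxG']
          exact h.2 j hi))
        exact (proc_relD P (σ₀ j)).uniq _ _ _ _ e3 e4 (fun _ _ _ => rfl)
      have h1 : hammingDist (E x) (E x') ≤ 4 * a * c := by
        unfold hammingDist
        have h2 : univ.filter (fun o => E x o ≠ E x' o) ⊆ (univ : Finset (Fin c)).biUnion
            (fun t => univ.filter (fun o => some (.inr (o, E x o)) ∈ l x (G₀ t))) := by
          intro o ho
          rw [mem_filter] at ho
          obtain ⟨j, hj⟩ := (hl x hxA).2.2.2 o
          by_cases hjG : ∃ t, G₀ t = j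
          · obtain ⟨t, rfl⟩ := hjG
            rw [mem_biUnion]
            exact ⟨t, mem_univ _, mem_filter.2 ⟨mem_univ _, hj⟩⟩
          · exfalso
            rw [hsame j hjG] at hj
            exact ho.2 ((hl x' hxA').2.2.1 j o _ hj)
        calc _ ≤ ∑ t : Fin c, (univ.filter (fun o => some (.inr (o, E x o)) ∈
              l x (G₀ t))).card := (card_le_card h2).trans card_biUnion_le
          _ ≤ ∑ _t : Fin c, 4 * a := by
              refine sum_le_sum (fun t _ => ?_)
              refine (occ_le (fun o : Fin n => (some (.inr (o, E x o)) :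
                Option (Ev (Fin k) (Fin n) Bool))) ?_ (l x (G₀ t))).trans ((hl x hxA).2.1 _)
              intro o o' h
              simp only [Option.some.injEq, Sum.inr.injEq, Prod.mk.injEq] at h
              exact h.1
          _ = _ := by rw [sum_const, card_univ, Fintype.card_fin, smul_eq_mul]; ring
      have h2 := hE x hxA x' hxA' hne
      omega
    have h1 := card_biUnion hdis
    have h2 : (B.biUnion Cl).card ≤ 2 ^ k := by
      refine (card_le_univ _).trans (le_of_eq ?_)
      rw [Fintype.card_fun, Fintype.card_bool, Fintype.card_fin]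
    calc B.card * 2 ^ (k / (2 * (M + 1) ^ c)) = ∑ _x ∈ B, 2 ^ (k / (2 * (M + 1) ^ c)) := by
          rw [sum_const, smul_eq_mul]
      _ ≤ ∑ x ∈ B, (Cl x).card := sum_le_sum (fun x hx => hcl x (by
          rw [hB, mem_filter] at hx; exact hx.1))
      _ = (B.biUnion Cl).card := h1.symm
      _ ≤ _ := h2
  have hAc : A.card = ∑ s : (Fin (M + 1) → Desc P T) × (Fin c → Fin (M + 1)),
      (A.filter (fun x => (σ x, G x) = s)).card :=
    card_eq_sum_card_fiberwise (fun x _ => mem_univ _)
  rw [hAc, sum_mul]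
  calc _ ≤ ∑ _s : (Fin (M + 1) → Desc P T) × (Fin c → Fin (M + 1)), 2 ^ k :=
        sum_le_sum (fun s _ => hfib s)
    _ = _ := by
        rw [sum_const, card_univ, Fintype.card_prod, Fintype.card_fun, Fintype.card_fun,
          Fintype.card_fin, Fintype.card_fin, smul_eq_mul]

end Pool.Agent.W896.MO
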