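import Pool.Agent.W896.MO.Enc
import Pool.Agent.W896.MO.Rows

/-!
# Encoders with a stack: the final form
-/

set_option autoImplicit false
set_option maxHeartbeats 1000000

open Finset Filter Topology

namespace Pool.Agent.W896.MO

variable {k n : ℕ}

theorem k_le_n {d : ℕ} (hd : 1 ≤ d) (E : (Fin k → Bool) → Fin n → Bool)
    (hE : ∀ x x', x ≠ x' → d ≤ hammingDist (E x) (E x')) : k ≤ n := by
  have hinj : Function.Injective E := by
    intro x x' h
    by_contra hne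
    have h1 := hE x x' hne
    rw [h, hammingDist_self] at h1
    omega
  have h1 := Fintype.card_le_of_injective E hinj
  rw [Fintype.card_fun, Fintype.card_fun, Fintype.card_bool, Fintype.card_fin,
    Fintype.card_fin] at h1
  exact (Nat.pow_le_pow_iff_right (by norm_num)).1 h1

/-- **Encoders with a stack.** -/
theorem enc_main (P : Prog (Fin k) (Fin n) Bool) {T d t u π s : ℕ}
    (hs : Fintype.card P.State ≤ s) (hd : 1 ≤ d) (hT : T ≤ t * k) (hu : 129 * t ^ 2 * k ≤ u * d)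
    (E : (Fin k → Bool) → Fin n → Bool)
    (hE : ∀ x x', x ≠ x' → d ≤ hammingDist (E x) (E x'))
    (hA : 2 ^ k ≤ 2 ^ π * Nat.card {x // P.Computes x (E x) T}) :
    (k : ℝ) ≤ (u : ℝ) ^ (16 * t + 2) * (Real.logb 2 s + π + 1) := by
  classical
  have hs1 : 1 ≤ s := le_trans (Fintype.card_pos_iff.2 ⟨P.start⟩) hs
  have hL0 : 0 ≤ Real.logb 2 (s : ℝ) := Real.logb_nonneg (by norm_num) (by exact_mod_cast hs1)
  have hπ0 : (0 : ℝ) ≤ π := Nat.cast_nonneg _
  have hu0 : (0 : ℝ) ≤ u := Nat.cast_nonneg _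
  rcases Nat.eq_zero_or_pos k with hk | hk
  · subst hk
    rw [Nat.cast_zero]
    positivity
  obtain ⟨x₀, hx₀⟩ : ∃ x, P.Computes x (E x) T := by
    by_contra hcon
    push Not at hcon
    have h1 : Nat.card {x // P.Computes x (E x) T} = 0 := by
      rw [Nat.card_eq_zero]
      left
      exact ⟨fun v => hcon v.1 v.2⟩
    rw [h1, mul_zero] at hA
    have h2 : 0 < 2 ^ k := by positivity
    omega
  have hns : n ≤ s := by
    have h1 := hx₀.card_le
    rw [Fintype.card_fin] at h1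
    exact h1.trans hs
  have hnT : n ≤ T := by
    have h1 := hx₀.card_le'
    rwa [Fintype.card_fin] at h1
  have hkn := k_le_n hd E hE
  have hdn : d ≤ n := by
    have h1 := hE (fun _ => true) (fun _ => false) (by
      intro h
      have := congrFun h ⟨0, hk⟩
      simp at this)
    refine h1.trans ?_
    refine hammingDist_le_card_fintype.trans (le_of_eq ?_)
    rw [Fintype.card_fin]
  have ht : 1 ≤ t := by
    by_contra h
    have : t = 0 := by omega
    subst this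
    omega
  have hu1 : 129 * t ≤ u := by
    have h1 : 129 * t * d ≤ u * d := by
      calc 129 * t * d ≤ 129 * t * T := Nat.mul_le_mul_left _ (by omega)
        _ ≤ 129 * t * (t * k) := Nat.mul_le_mul_left _ hT
        _ = 129 * t ^ 2 * k := by ring
        _ ≤ _ := hu
    exact Nat.le_of_mul_le_mul_right h1 (by omega)
  have easy : k ≤ u → (k : ℝ) ≤ (u : ℝ) ^ (16 * t + 2) * (Real.logb 2 s + π + 1) := by
    intro h
    have h1 : (k : ℝ) ≤ u := by exact_mod_cast h
    have h2 : (1 : ℝ) ≤ u := by exact_mod_cast (by omega : 1 ≤ u)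
    calc (k : ℝ) ≤ u := h1
      _ = (u : ℝ) ^ 1 * 1 := by ring
      _ ≤ (u : ℝ) ^ (16 * t + 2) * (Real.logb 2 s + π + 1) := by
          apply mul_le_mul (pow_le_pow_right₀ h2 (by omega)) (by linarith) (by norm_num)
            (by positivity)
  by_cases hd2 : d ≤ 64 * t
  · apply easy
    have h1 : (64 * t) * k ≤ (64 * t) * u := by
      calc (64 * t) * k ≤ 129 * t ^ 2 * k := Nat.mul_le_mul_right _ (by nlinarith)
        _ ≤ u * d := hu
        _ ≤ u * (64 * t) := Nat.mul_le_mul_left _ hd2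
        _ = _ := by ring
    exact Nat.le_of_mul_le_mul_left h1 (by omega)
  by_cases hTs : T + 1 ≤ s ^ 2
  swap
  · apply easy
    have h1 : n ^ 2 ≤ s ^ 2 := Nat.pow_le_pow_left hns 2
    have h2 : k ^ 2 ≤ n ^ 2 := Nat.pow_le_pow_left hkn 2
    have h3 : k * k ≤ t * k := by
      calc k * k = k ^ 2 := by ring
        _ ≤ T := by omega
        _ ≤ _ := hT
    have h4 := Nat.le_of_mul_le_mul_right h3 hk
    omega
  push Not at hd2
  have hs2 : 2 ≤ s := by
    by_contra h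
    have h1 : s = 1 := by omega
    rw [h1] at hTs
    omega
  obtain ⟨a, ha⟩ : ∃ a, a = (d - 1) / (64 * t) := ⟨_, rfl⟩
  have ha1 : 1 ≤ a := by
    rw [ha]
    exact (Nat.one_le_div_iff (by omega)).2 (by omega)
  have ha2 : (64 * t) * a ≤ d - 1 := by rw [ha]; exact Nat.mul_div_le _ _
  have ha3 : d - 1 < (64 * t) * (a + 1) := by rw [ha]; exact Nat.lt_mul_div_succ _ (by omega)
  have ha4 : d ≤ 128 * t * a := by
    have h1 : 64 * t ≤ 64 * t * a := Nat.le_mul_of_pos_right _ ha1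
    calc d ≤ (64 * t) * (a + 1) := by omega
      _ = 64 * t * a + 64 * t := by ring
      _ ≤ 64 * t * a + 64 * t * a := Nat.add_le_add_left h1 _
      _ = 128 * t * a := by ring
  have haT : a ≤ T := by
    have : a ≤ (64 * t) * a := Nat.le_mul_of_pos_left _ (by omega)
    omega
  have hTu : T / a + 1 ≤ u := by
    apply Nat.succ_le_of_lt
    apply Nat.div_lt_of_lt_mul
    have h1 : t * (129 * T) ≤ t * (128 * (a * u)) := by
      calc t * (129 * T) ≤ t * (129 * (t * k)) :=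
            Nat.mul_le_mul_left _ (Nat.mul_le_mul_left _ hT)
        _ = 129 * t ^ 2 * k := by ring
        _ ≤ u * d := hu
        _ ≤ u * (128 * t * a) := Nat.mul_le_mul_left _ ha4
        _ = _ := by ring
    have h2 := Nat.le_of_mul_le_mul_left h1 (by omega)
    have h3 : 1 ≤ a * u := Nat.mul_pos ha1 (by omega)
    omega
  have hcnt := enc_count P (a := a) (T := T) (c := 16 * t) (d := d) ha1 (by omega) (by
      have h1 : T / a * a ≤ T := Nat.div_mul_le_self _ _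
      calc 8 * a * (T / a + 1) = 8 * (T / a * a + a) := by ring
        _ ≤ 8 * (T + T) := Nat.mul_le_mul_left _ (by omega)
        _ = 16 * T := by ring
        _ ≤ 16 * (t * k) := Nat.mul_le_mul_left _ hT
        _ = _ := by ring) (by
      calc 4 * a * (16 * t) = (64 * t) * a := by ring
        _ ≤ d - 1 := ha2
        _ < d := by omega) E (univ.filter (fun x => P.Computes x (E x) T))
    (fun x hx => (mem_filter.1 hx).2) (fun x _ x' _ h => hE x x' h)
  rw [Nat.card_eq_fintype_card, Fintype.card_subtype] at hA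
  rw [card_Desc] at hcnt
  obtain ⟨N, hN⟩ : ∃ N, N = Fintype.card P.State * (T * (Fintype.card P.State) ^ 2 + 1) ^ 4 + 1 :=
    ⟨_, rfl⟩
  rw [← hN] at hcnt
  have hN1 : 1 ≤ N := by omega
  have hN2 : N ≤ s ^ 18 := by
    have h2 : T * s ^ 2 + 1 ≤ s ^ 4 := by
      have h3 : 1 ≤ s ^ 2 := Nat.one_le_pow _ _ hs1
      calc T * s ^ 2 + 1 ≤ T * s ^ 2 + s ^ 2 := Nat.add_le_add_left h3 _
        _ = (T + 1) * s ^ 2 := by ring
        _ ≤ s ^ 2 * s ^ 2 := Nat.mul_le_mul_right _ hTs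
        _ = s ^ 4 := by ring
    have h4 : Fintype.card P.State * (T * (Fintype.card P.State) ^ 2 + 1) ^ 4 ≤
        s * (T * s ^ 2 + 1) ^ 4 := by
      apply Nat.mul_le_mul hs
      apply Nat.pow_le_pow_left
      apply Nat.succ_le_succ
      exact Nat.mul_le_mul_left _ (Nat.pow_le_pow_left hs 2)
    have h5 : s * (T * s ^ 2 + 1) ^ 4 ≤ s ^ 17 := by
      calc s * (T * s ^ 2 + 1) ^ 4 ≤ s * (s ^ 4) ^ 4 :=
            Nat.mul_le_mul_left _ (Nat.pow_le_pow_left h2 4)
        _ = s ^ 17 := by ring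
    have h6 : 1 ≤ s ^ 17 := Nat.one_le_pow _ _ hs1
    calc N ≤ s ^ 17 + s ^ 17 := by omega
      _ = 2 * s ^ 17 := by ring
      _ ≤ s * s ^ 17 := Nat.mul_le_mul_right _ hs2
      _ = s ^ 18 := by ring
  have hu2 : 1 ≤ u := by omega
  have hpow : 2 ^ (k / (2 * u ^ (16 * t))) ≤ 2 ^ π * ((s ^ 18) ^ u * u ^ (16 * t)) := by
    have h1 : 2 ^ (k / (2 * (T / a + 1) ^ (16 * t))) ≤
        2 ^ π * (N ^ (T / a + 1) * (T / a + 1) ^ (16 * t)) := by
      have h3 : 0 < 2 ^ k := by positivity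
      refine Nat.le_of_mul_le_mul_left ?_ h3
      calc 2 ^ k * 2 ^ (k / (2 * (T / a + 1) ^ (16 * t))) ≤
            (2 ^ π * _) * 2 ^ (k / (2 * (T / a + 1) ^ (16 * t))) := Nat.mul_le_mul_right _ hA
        _ = 2 ^ π * (_ * 2 ^ (k / (2 * (T / a + 1) ^ (16 * t)))) := by rw [mul_assoc]
        _ ≤ 2 ^ π * _ := Nat.mul_le_mul_left _ hcnt
        _ = _ := by ring
    have h2 : (T / a + 1) ^ (16 * t) ≤ u ^ (16 * t) := Nat.pow_le_pow_left hTu _
    refine le_trans (Nat.pow_le_pow_right (by norm_num) (Nat.div_le_div_left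
      (Nat.mul_le_mul_left _ h2) (by positivity))) (h1.trans ?_)
    apply Nat.mul_le_mul_left
    apply Nat.mul_le_mul _ h2
    exact (Nat.pow_le_pow_left hN2 _).trans (Nat.pow_le_pow_right (by positivity) hTu)
  -- logarithms
  obtain ⟨L, hL⟩ : ∃ L, L = Real.logb 2 (s : ℝ) := ⟨_, rfl⟩
  rw [← hL] at hL0 ⊢
  obtain ⟨m, hm⟩ : ∃ m, m = k / (2 * u ^ (16 * t)) := ⟨_, rfl⟩
  rw [← hm] at hpow
  have huR : (1 : ℝ) ≤ u := by exact_mod_cast hu2
  have hlogu : Real.logb 2 (u : ℝ) ≤ u := by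
    rw [Real.logb_le_iff_le_rpow (by norm_num) (by linarith), Real.rpow_natCast]
    exact_mod_cast Nat.lt_two_pow_self.le
  have hlogu0 : 0 ≤ Real.logb 2 (u : ℝ) := Real.logb_nonneg (by norm_num) huR
  have hmR : (m : ℝ) ≤ π + (u * (18 * L) + (16 * t) * Real.logb 2 u) := by
    have h4 : (2 : ℝ) ^ m ≤ 2 ^ π * (((s : ℝ) ^ 18) ^ u * (u : ℝ) ^ (16 * t)) := by
      exact_mod_cast hpow
    have h5 := Real.logb_le_logb_of_le (b := 2) (by norm_num) (by positivity) h4
    have hs0 : (s : ℝ) ≠ 0 := by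
      have : 0 < s := hs1
      exact_mod_cast this.ne'
    have hu0' : (u : ℝ) ≠ 0 := by linarith
    rw [Real.logb_pow, Real.logb_mul (by positivity) (by positivity), Real.logb_pow,
      Real.logb_mul (by positivity) (by positivity), Real.logb_pow, Real.logb_pow,
      Real.logb_pow, Real.logb_self_eq_one (by norm_num), ← hL] at h5
    push_cast at h5
    linarith
  have hk2 : (k : ℝ) ≤ 2 * (u : ℝ) ^ (16 * t) * (m + 1) := by
    have h1 : k < 2 * u ^ (16 * t) * (m + 1) := by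
      rw [hm]
      exact Nat.lt_mul_div_succ _ (by positivity)
    exact_mod_cast h1.le
  have htR : 129 * (t : ℝ) ≤ u := by exact_mod_cast hu1
  have ht0 : (0 : ℝ) ≤ t := Nat.cast_nonneg _
  have ht1 : (1 : ℝ) ≤ t := by exact_mod_cast ht
  have hu129 : (129 : ℝ) ≤ u := by linarith
  have hfin : 2 * (π + (u * (18 * L) + (16 * t) * Real.logb 2 u) + 1) ≤
      (u : ℝ) ^ 2 * (L + π + 1) := by
    have e1 : 2 * (π : ℝ) ≤ (u : ℝ) ^ 2 * π := mul_le_mul_of_nonneg_right (by nlinarith) hπ0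
    have e2 : 36 * (u : ℝ) * L ≤ (u : ℝ) ^ 2 * L := mul_le_mul_of_nonneg_right (by nlinarith) hL0
    have e3 : 32 * (t : ℝ) * Real.logb 2 u ≤ (u / 4) * u :=
      mul_le_mul (by linarith) hlogu hlogu0 (by linarith)
    nlinarith
  calc (k : ℝ) ≤ 2 * (u : ℝ) ^ (16 * t) * (m + 1) := hk2
    _ ≤ 2 * (u : ℝ) ^ (16 * t) * (π + (u * (18 * L) + (16 * t) * Real.logb 2 u) + 1) := by
        apply mul_le_mul_of_nonneg_left _ (by positivity)
        linarith
    _ = (u : ℝ) ^ (16 * t) * (2 * (π + (u * (18 * L) + (16 * t) * Real.logb 2 u) + 1)) := by ring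
    _ ≤ (u : ℝ) ^ (16 * t) * ((u : ℝ) ^ 2 * (L + π + 1)) :=
        mul_le_mul_of_nonneg_left hfin (by positivity)
    _ = _ := by ring

/-- **The asymptotic rate is zero.** -/
theorem rate_zero {δ τ : ℝ} (hδ : 0 < δ) (k T π : ℕ → ℕ)
    (P : ∀ n, Prog (Fin (k n)) (Fin n) Bool) (E : ∀ n, (Fin (k n) → Bool) → Fin n → Bool)
    (hT : ∀ n, (T n : ℝ) ≤ τ * n)
    (hE : ∀ n x x', x ≠ x' → δ * n ≤ hammingDist (E n x) (E n x'))
    (hA : ∀ n, 2 ^ k n ≤ 2 ^ π n * Nat.card {x // (P n).Computes x (E n x) (T n)})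
    (hS : Tendsto (fun n => (Real.logb 2 (Fintype.card (P n).State) + π n) / n) atTop (𝓝 0)) :
    Tendsto (fun n => (k n : ℝ) / n) atTop (𝓝 0) := by
  rw [Metric.tendsto_atTop]
  intro ε hε
  obtain ⟨t, ht⟩ : ∃ t, t = ⌈τ / ε⌉₊ := ⟨_, rfl⟩
  have ht1 : τ ≤ t * ε := by
    have h1 : τ / ε ≤ t := by rw [ht]; exact Nat.le_ceil _
    rwa [div_le_iff₀ hε] at h1
  obtain ⟨u, hu⟩ : ∃ u, u = ⌈129 * (t : ℝ) ^ 2 / δ⌉₊ := ⟨_, rfl⟩
  have hu1 : 129 * (t : ℝ) ^ 2 ≤ u * δ := by
    have h1 : 129 * (t : ℝ) ^ 2 / δ ≤ u := by rw [hu]; exact Nat.le_ceil _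
    rwa [div_le_iff₀ hδ] at h1
  obtain ⟨K, hK⟩ : ∃ K : ℝ, K = (u : ℝ) ^ (16 * t + 2) := ⟨_, rfl⟩
  have hK0 : 0 ≤ K := by rw [hK]; positivity
  rw [Metric.tendsto_atTop] at hS
  obtain ⟨n₀, hn₀⟩ := hS (ε / (2 * (K + 1))) (by positivity)
  obtain ⟨n₁, hn₁⟩ := exists_nat_gt (2 * (K + 1) / ε)
  refine ⟨max (max n₀ n₁) 1, fun n hn => ?_⟩
  have hn1 : 1 ≤ n := le_trans (le_max_right _ _) hn
  have hnn₀ : n₀ ≤ n := le_trans (le_trans (le_max_left _ _) (le_max_left _ _)) hn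
  have hnn₁ : n₁ ≤ n := le_trans (le_trans (le_max_right _ _) (le_max_left _ _)) hn
  have hnR : (0 : ℝ) < n := by exact_mod_cast hn1
  rw [Real.dist_eq, sub_zero, abs_of_nonneg (by positivity)]
  by_contra hcon
  push Not at hcon
  rw [le_div_iff₀ hnR] at hcon
  have hE' : ∀ x x', x ≠ x' → ⌈δ * n⌉₊ ≤ hammingDist (E n x) (E n x') := fun x x' h =>
    Nat.ceil_le.2 (hE n x x' h)
  have hd : 1 ≤ ⌈δ * n⌉₊ := Nat.ceil_pos.2 (by positivity)
  have hkn := k_le_n hd (E n) hE'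
  have hmain := enc_main (P n) (T := T n) (d := ⌈δ * n⌉₊) (t := t) (u := u) (π := π n)
    (s := Fintype.card (P n).State) le_rfl hd (by
      have h1 : (T n : ℝ) ≤ t * k n := by
        calc (T n : ℝ) ≤ τ * n := hT n
          _ ≤ (t * ε) * n := mul_le_mul_of_nonneg_right ht1 hnR.le
          _ = t * (ε * n) := by ring
          _ ≤ _ := mul_le_mul_of_nonneg_left hcon (Nat.cast_nonneg _)
      exact_mod_cast h1) (by
      have h1 : 129 * (t : ℝ) ^ 2 * k n ≤ u * ⌈δ * n⌉₊ := by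
        calc 129 * (t : ℝ) ^ 2 * k n ≤ 129 * (t : ℝ) ^ 2 * n :=
              mul_le_mul_of_nonneg_left (by exact_mod_cast hkn) (by positivity)
          _ ≤ (u * δ) * n := mul_le_mul_of_nonneg_right hu1 hnR.le
          _ = u * (δ * n) := by ring
          _ ≤ _ := mul_le_mul_of_nonneg_left (Nat.le_ceil _) (Nat.cast_nonneg _)
      exact_mod_cast h1) (E n) hE' (hA n)
  rw [← hK] at hmain
  have h2 := hn₀ n hnn₀
  rw [Real.dist_eq, sub_zero] at h2
  have h3 := lt_of_le_of_lt (le_abs_self _) h2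
  rw [div_lt_iff₀ hnR] at h3
  have h4 : 2 * (K + 1) / ε < n := lt_of_lt_of_le hn₁ (by exact_mod_cast hnn₁)
  rw [div_lt_iff₀ hε] at h4
  have h5 : (K + 1) * (ε / (2 * (K + 1)) * n) = ε * n / 2 := by
    field_simp
  have h6 : ε * n ≤ (K + 1) * (Real.logb 2 (Fintype.card (P n).State) + π n + 1) := by
    refine hcon.trans (hmain.trans ?_)
    apply mul_le_mul_of_nonneg_right (by linarith)
    have h7 : 0 ≤ Real.logb 2 (Fintype.card (P n).State : ℝ) :=
      Real.logb_nonneg (by norm_num) (by exact_mod_cast Fintype.card_pos_iff.2 ⟨(P n).start⟩)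
    positivity
  have h7 : (K + 1) * (Real.logb 2 (Fintype.card (P n).State) + π n + 1) <
      (K + 1) * (ε / (2 * (K + 1)) * n + 1) := by
    apply mul_lt_mul_of_pos_left _ (by linarith)
    linarith
  have h8 : (K + 1) * (ε / (2 * (K + 1)) * n + 1) = ε * n / 2 + (K + 1) := by
    rw [mul_add, h5, mul_one]
  rw [h8] at h7
  nlinarith

end Pool.Agent.W896.MO
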