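import Pool.Agent.W896.MO.Defs

/-!
# Translation of programs
-/

set_option autoImplicit false

namespace Pool.Agent.W896.MO

variable {ι ω α ι' ω' α' : Type}

/-- The translated action. -/
def trAct {S Γ : Type} (rd : ι → ι' × (α' → α)) (wr : ω → Option ω') (cv : α → α') (i₀ : ι') :
    Act ι ω α S Γ → Act ι' ω' α' S Γ
  | .read i nxt => .read (rd i).1 (fun v => nxt ((rd i).2 v))
  | .write o v q => match wr o with
    | some o' => .write o' (cv v) q
    | none => .read i₀ (fun _ => q)
  | .push a q => .push a q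
  | .pop nxt => .pop nxt
  | .halt => .halt

/-- The translated program. -/
def Prog.tr (P : Prog ι ω α) (rd : ι → ι' × (α' → α)) (wr : ω → Option ω') (cv : α → α')
    (i₀ : ι') : Prog ι' ω' α' where
  State := P.State
  Sym := P.Sym
  start := P.start
  act q := trAct rd wr cv i₀ (P.act q)

/-- The translation of a read or a write. -/
def trEv (rd : ι → ι' × (α' → α)) (wr : ω → Option ω') (cv : α → α') (i₀ : ι') :
    ι ⊕ (ω × α) → ι' ⊕ (ω' × α')
  | .inl i => .inl (rd i).1
  | .inr (o, v) => match wr o with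
    | some o' => .inr (o', cv v)
    | none => .inl i₀

variable {P : Prog ι ω α} {rd : ι → ι' × (α' → α)} {wr : ω → Option ω'} {cv : α → α'} {i₀ : ι'}
  {x : ι → α} {x' : ι' → α'} {y : ω → α} {y' : ω' → α'}

theorem Prog.Runs.tr (hx : ∀ i, (rd i).2 (x' (rd i).1) = x i) {q : P.State} {σ : List P.Sym}
    {l : List (ι ⊕ (ω × α))} (h : P.Runs x q σ l) :
    (P.tr rd wr cv i₀).Runs x' q σ (l.map (trEv rd wr cv i₀)) := by
  induction h with
  | halt h =>
    apply Prog.Runs.halt
    change trAct rd wr cv i₀ (P.act _) = _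
    rw [h]; rfl
  | @read q σ i nxt l h r ih =>
    refine Prog.Runs.read (P := P.tr rd wr cv i₀) (nxt := fun v => nxt ((rd i).2 v)) ?_ ?_
    · change trAct rd wr cv i₀ (P.act _) = _
      rw [h]; rfl
    · change (P.tr rd wr cv i₀).Runs x' (nxt ((rd i).2 (x' (rd i).1))) σ _
      rw [hx]
      exact ih
  | @write q σ o v q' l h r ih =>
    rw [List.map_cons]
    have e : trEv rd wr cv i₀ (.inr (o, v)) = match wr o with
      | some o' => .inr (o', cv v)
      | none => .inl i₀ := rfl
    have e2 : (P.tr rd wr cv i₀).act q = match wr o with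
      | some o' => .write o' (cv v) q'
      | none => .read i₀ (fun _ => q') := by
      change trAct rd wr cv i₀ (P.act _) = _
      rw [h]; rfl
    rw [e]
    cases hw : wr o with
    | none =>
      rw [hw] at e2
      exact Prog.Runs.read (P := P.tr rd wr cv i₀) e2 ih
    | some o' =>
      rw [hw] at e2
      exact Prog.Runs.write (P := P.tr rd wr cv i₀) e2 ih
  | @push q σ a q' l h r ih =>
    refine Prog.Runs.push (P := P.tr rd wr cv i₀) (a := a) ?_ ih
    change trAct rd wr cv i₀ (P.act _) = _
    rw [h]; rfl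
  | @pop q a σ nxt l h r ih =>
    refine Prog.Runs.pop (P := P.tr rd wr cv i₀) (nxt := nxt) ?_ ih
    change trAct rd wr cv i₀ (P.act _) = _
    rw [h]; rfl

theorem Prog.Computes.tr {T : ℕ} (hx : ∀ i, (rd i).2 (x' (rd i).1) = x i)
    (hy : ∀ o o', wr o = some o' → cv (y o) = y' o') (hs : ∀ o', ∃ o, wr o = some o')
    (h : P.Computes x y T) : (P.tr rd wr cv i₀).Computes x' y' T := by
  obtain ⟨l, h1, h2, h3, h4⟩ := h
  refine ⟨_, h1.tr hx, ?_, ?_, ?_⟩
  · rw [List.length_map]; exact h2
  · intro o' v' hv
    rw [List.mem_map] at hv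
    obtain ⟨ev, he, he'⟩ := hv
    rcases ev with i | ⟨o, v⟩
    · simp [trEv] at he'
    · change (match wr o with
        | some o' => Sum.inr (o', cv v)
        | none => Sum.inl i₀) = _ at he'
      cases hw : wr o with
      | none => rw [hw] at he'; simp at he'
      | some o'' =>
        rw [hw] at he'
        simp only [Sum.inr.injEq, Prod.mk.injEq] at he'
        obtain ⟨rfl, rfl⟩ := he'
        rw [h3 o v he]
        exact hy o o'' hw
  · intro o'
    obtain ⟨o, ho⟩ := hs o'
    rw [List.mem_map]
    refine ⟨_, h4 o, ?_⟩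
    change (match wr o with
        | some o' => Sum.inr (o', cv (y o))
        | none => Sum.inl i₀) = _
    rw [ho, hy o o' ho]

end Pool.Agent.W896.MO
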