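import Pool.Agent.W896.MO.ConvFinal
import Pool.Agent.W896.MO.Transfer

/-!
# Products of integers on programs with a stack
-/

set_option autoImplicit false
set_option maxHeartbeats 1000000

open Finset

namespace Pool.Agent.W896.MO

/-- The number with the binary digits `x`, the lowest one first. -/
def num {n : ℕ} (x : Fin n → Bool) : ℕ := ∑ i, (x i).toNat * 2 ^ i.val

/-- The binary digits of the product of the number given by the first `n` inputs and the number
given by the last `n` inputs. -/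
def mulBits {n : ℕ} (u : Fin n ⊕ Fin n → Bool) : Fin (2 * n) → Bool :=
  fun i => (num (fun j => u (.inl j)) * num (fun k => u (.inr k))).testBit i.val

theorem digit_lt {b : ℕ} (hb : 1 ≤ b) (c : ℕ → ℕ) (hc : ∀ i, c i < b) (m : ℕ) :
    ∑ i ∈ range m, c i * b ^ i < b ^ m := by
  induction m with
  | zero => simp
  | succ m ih =>
    rw [sum_range_succ]
    have h1 : c m * b ^ m + b ^ m ≤ b ^ (m + 1) := by
      calc c m * b ^ m + b ^ m = (c m + 1) * b ^ m := by ring
        _ ≤ b * b ^ m := Nat.mul_le_mul_right _ (hc m)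
        _ = b ^ (m + 1) := by ring
    omega

theorem digit {b : ℕ} (hb : 1 ≤ b) (c : ℕ → ℕ) (hc : ∀ i, c i < b) (m i : ℕ) (hi : i < m) :
    (∑ i ∈ range m, c i * b ^ i) / b ^ i % b = c i := by
  obtain ⟨d, rfl⟩ : ∃ d, m = i + (d + 1) := ⟨m - i - 1, by omega⟩
  rw [sum_range_add, sum_range_succ' (fun x => c (i + x) * b ^ (i + x)) d]
  have h1 : ∑ k ∈ range d, c (i + (k + 1)) * b ^ (i + (k + 1)) =
      b ^ i * (b * ∑ k ∈ range d, c (i + (k + 1)) * b ^ k) := by
    rw [mul_sum, mul_sum]
    refine sum_congr rfl (fun k _ => ?_)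
    rw [pow_add, pow_succ]
    ring
  rw [h1, Nat.add_zero]
  have h2 := digit_lt hb c hc i
  obtain ⟨A, hA⟩ : ∃ A, A = ∑ i ∈ range i, c i * b ^ i := ⟨_, rfl⟩
  obtain ⟨S, hS⟩ : ∃ S, S = ∑ k ∈ range d, c (i + (k + 1)) * b ^ k := ⟨_, rfl⟩
  rw [← hA] at h2 ⊢
  rw [← hS]
  have h3 : A + (b ^ i * (b * S) + c i * b ^ i) = A + b ^ i * (b * S + c i) := by ring
  rw [h3, Nat.add_mul_div_left _ _ (by positivity), Nat.div_eq_of_lt h2, Nat.zero_add,
    Nat.mul_add_mod]
  exact Nat.mod_eq_of_lt (hc i)

section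
variable {n n' l : ℕ}

/-- The index of a position among the positions `0, l, 2 * l, ...`. -/
def spc (l : ℕ) {n : ℕ} (n' : ℕ) (p : Fin n) : Option (Fin n') :=
  if h : l ∣ p.val ∧ p.val / l < n' then some ⟨p.val / l, h.2⟩ else none

theorem spc_iff (hl : 1 ≤ l) (p : Fin n) (j : Fin n') : spc l n' p = some j ↔ p.val = l * j.val := by
  unfold spc
  split_ifs with h
  · rw [Option.some.injEq]
    obtain ⟨h1, h2⟩ := h
    constructor
    · rintro rfl
      exact (Nat.mul_div_cancel' h1).symm
    · intro h3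
      apply Fin.ext
      change p.val / l = j.val
      rw [h3]
      exact Nat.mul_div_cancel_left _ hl
  · constructor
    · intro h1; simp at h1
    · intro h3
      exfalso
      apply h
      refine ⟨⟨j.val, h3⟩, ?_⟩
      rw [h3, Nat.mul_div_cancel_left _ hl]
      exact j.isLt

/-- The digits spaced out. -/
def spaced (l : ℕ) (n : ℕ) {n' : ℕ} (a : Fin n' → ZMod 2) : Fin n → Bool :=
  fun p => match spc l n' p with
    | some j => decide (a j = 1)
    | none => false

theorem num_spaced (hl : 1 ≤ l) (hn : l * n' ≤ n) (a : Fin n' → ZMod 2) :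
    num (spaced l n a) = ∑ j, (a j).val * (2 ^ l) ^ j.val := by
  unfold num
  symm
  refine Fintype.sum_of_injective (fun j : Fin n' => (⟨l * j.val, lt_of_lt_of_le
    (Nat.mul_lt_mul_of_pos_left j.isLt hl) hn⟩ : Fin n)) ?_ _ _ ?_ ?_
  · intro j j' h
    have h1 := congrArg Fin.val h
    simp only at h1
    exact Fin.ext (Nat.eq_of_mul_eq_mul_left hl h1)
  · intro p hp
    have h1 : spc l n' p = none := by
      cases h : spc l n' p with
      | none => rfl
      | some j =>
        exfalso
        apply hp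
        exact ⟨j, Fin.ext ((spc_iff hl p j).1 h).symm⟩
    unfold spaced
    rw [h1]
    simp
  · intro j
    have h1 : spc l n' (⟨l * j.val, lt_of_lt_of_le (Nat.mul_lt_mul_of_pos_left j.isLt hl) hn⟩ :
        Fin n) = some j := (spc_iff hl _ j).2 rfl
    unfold spaced
    rw [h1, ← pow_mul]
    congr 1
    have h2 : ∀ z : ZMod 2, z.val = (decide (z = 1)).toNat := by decide
    exact h2 (a j)

theorem mul_digits (a b : Fin n' → ZMod 2) (B : ℕ) :
    (∑ j, (a j).val * B ^ j.val) * (∑ k, (b k).val * B ^ k.val) =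
      ∑ i ∈ range (2 * n'), (∑ j : Fin n', ∑ k : Fin n', if j.val + k.val = i then
        (a j).val * (b k).val else 0) * B ^ i := by
  rw [sum_mul_sum]
  have h1 : ∀ i ∈ range (2 * n'), (∑ j : Fin n', ∑ k : Fin n', if j.val + k.val = i then
        (a j).val * (b k).val else 0) * B ^ i = ∑ j : Fin n', ∑ k : Fin n',
        if j.val + k.val = i then (a j).val * (b k).val * B ^ (j.val + k.val) else 0 := by
    intro i _
    rw [sum_mul]
    refine sum_congr rfl (fun j _ => ?_)
    rw [sum_mul]
    refine sum_congr rfl (fun k _ => ?_)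
    split_ifs with h
    · rw [h]
    · rw [zero_mul]
  rw [sum_congr rfl h1]
  refine Eq.trans ?_ sum_comm
  refine sum_congr rfl (fun j _ => ?_)
  refine Eq.trans ?_ sum_comm
  refine sum_congr rfl (fun k _ => ?_)
  rw [sum_ite_eq, if_pos]
  · rw [pow_add]; ring
  · rw [mem_range]
    have := j.isLt
    have := k.isLt
    omega

theorem coef_lt (a b : Fin n' → ZMod 2) (i : ℕ) :
    (∑ j : Fin n', ∑ k : Fin n', if j.val + k.val = i then (a j).val * (b k).val else 0) ≤ n' := by
  calc _ ≤ ∑ _j : Fin n', 1 := by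
        apply sum_le_sum
        intro j _
        have h2 : ∀ z : ZMod 2, z.val ≤ 1 := by decide
        by_cases h : ∃ k : Fin n', j.val + k.val = i
        · obtain ⟨k, hk⟩ := h
          have e : (∑ k' : Fin n', if j.val + k'.val = i then (a j).val * (b k').val else 0) =
              if j.val + k.val = i then (a j).val * (b k).val else 0 := by
            apply sum_eq_single k
            · intro k' _ hk'
              apply if_neg
              intro h3
              apply hk'
              apply Fin.ext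
              omega
            · intro h3
              exact absurd (mem_univ _) h3
          rw [e, if_pos hk]
          exact Nat.mul_le_mul (h2 _) (h2 _)
        · push Not at h
          exact le_trans (le_of_eq (sum_eq_zero (fun k _ => if_neg (h k)))) (Nat.zero_le _)
    _ = n' := by simp

/-- The spaced out pair. -/
def spaced2 (l : ℕ) (n : ℕ) {n' : ℕ} (u : Fin n' ⊕ Fin n' → ZMod 2) : Fin n ⊕ Fin n → Bool :=
  Sum.elim (spaced l n (fun j => u (.inl j))) (spaced l n (fun k => u (.inr k)))

theorem mul_spaced (hl : 1 ≤ l) (hn : l * n' ≤ n) (hl2 : n' < 2 ^ l) (u : Fin n' ⊕ Fin n' → ZMod 2)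
    (o : Fin (2 * n)) (i : Fin (2 * n')) (ho : o.val = l * i.val) :
    (if mulBits (spaced2 l n u) o then (1 : ZMod 2) else 0) = pm u i := by
  obtain ⟨c, hc⟩ : ∃ c : ℕ → ℕ, ∀ i, c i = ∑ j : Fin n', ∑ k : Fin n', if j.val + k.val = i then
        (u (.inl j)).val * (u (.inr k)).val else 0 := ⟨_, fun _ => rfl⟩
  have hc2 : ∀ i, c i < 2 ^ l := fun i => by
    rw [hc]
    exact lt_of_le_of_lt (coef_lt (fun j => u (.inl j)) (fun k => u (.inr k)) i) hl2
  have h1 : num (spaced l n (fun j => u (.inl j))) * num (spaced l n (fun k => u (.inr k))) =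
      ∑ i ∈ range (2 * n'), c i * (2 ^ l) ^ i := by
    rw [num_spaced hl hn, num_spaced hl hn, mul_digits]
    exact sum_congr rfl (fun i _ => by rw [hc])
  have h2 : mulBits (spaced2 l n u) o = decide (c i.val % 2 = 1) := by
    change (num (spaced l n (fun j => u (.inl j))) *
      num (spaced l n (fun k => u (.inr k)))).testBit o.val = _
    rw [h1, ho, Nat.testBit_eq_decide_div_mod_eq]
    have h3 := digit (b := 2 ^ l) Nat.one_le_two_pow c hc2 (2 * n') i.val i.isLt
    rw [← pow_mul] at h3
    have h4 : (∑ i ∈ range (2 * n'), c i * (2 ^ l) ^ i) / 2 ^ (l * i.val) % 2 = c i.val % 2 := by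
      rw [← h3]
      rw [Nat.mod_mod_of_dvd]
      exact dvd_pow_self 2 (by omega)
    rw [h4]
  have h3 : pm u i = ((c i.val : ℕ) : ZMod 2) := by
    unfold pm
    rw [hc]
    push_cast
    refine sum_congr rfl (fun j _ => sum_congr rfl (fun k _ => ?_))
    rw [ZMod.natCast_zmod_val, ZMod.natCast_zmod_val]
  rw [h2, h3]
  by_cases h4 : c i.val % 2 = 1
  · rw [if_pos (by rw [decide_eq_true h4])]
    symm
    rw [← Nat.cast_one, ZMod.natCast_eq_natCast_iff]
    exact h4
  · rw [if_neg (by rw [decide_eq_false h4]; simp)]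
    symm
    rw [ZMod.natCast_eq_zero_iff]
    omega

/-- Where the inputs come from. -/
def rdInt (l n : ℕ) {m : ℕ} (hm : 0 < m) : Fin n ⊕ Fin n → (Fin m ⊕ Fin m) × (ZMod 2 → Bool)
  | .inl p => match spc l m p with
    | some j => (.inl j, fun v => decide (v = 1))
    | none => (.inl ⟨0, hm⟩, fun _ => false)
  | .inr p => match spc l m p with
    | some j => (.inr j, fun v => decide (v = 1))
    | none => (.inl ⟨0, hm⟩, fun _ => false)

theorem rdInt_spec (l n : ℕ) {m : ℕ} (hm : 0 < m) (u : Fin m ⊕ Fin m → ZMod 2)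
    (i : Fin n ⊕ Fin n) : (rdInt l n hm i).2 (u (rdInt l n hm i).1) = spaced2 l n u i := by
  rcases i with p | p
  · cases hz : spc l m p with
    | none =>
      have e : rdInt l n hm (.inl p) = (.inl ⟨0, hm⟩, fun _ => false) := by
        simp only [rdInt, hz]
      have e2 : spaced2 l n u (.inl p) = false := by
        simp only [spaced2, Sum.elim_inl, spaced, hz]
      rw [e, e2]
    | some j =>
      have e : rdInt l n hm (.inl p) = (.inl j, fun v => decide (v = 1)) := by
        simp only [rdInt, hz]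
      have e2 : spaced2 l n u (.inl p) = decide (u (.inl j) = 1) := by
        simp only [spaced2, Sum.elim_inl, spaced, hz]
      rw [e, e2]
  · cases hz : spc l m p with
    | none =>
      have e : rdInt l n hm (.inr p) = (.inl ⟨0, hm⟩, fun _ => false) := by
        simp only [rdInt, hz]
      have e2 : spaced2 l n u (.inr p) = false := by
        simp only [spaced2, Sum.elim_inr, spaced, hz]
      rw [e, e2]
    | some j =>
      have e : rdInt l n hm (.inr p) = (.inr j, fun v => decide (v = 1)) := by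
        simp only [rdInt, hz]
      have e2 : spaced2 l n u (.inr p) = decide (u (.inr j) = 1) := by
        simp only [spaced2, Sum.elim_inr, spaced, hz]
      rw [e, e2]

end

/-- **The trade-off for the product of integers**, for randomised programs. -/
theorem int_main (n T π s : ℕ) (R : Type) [Fintype R] [Nonempty R]
    (P : R → Prog (Fin n ⊕ Fin n) (Fin (2 * n)) Bool)
    (hs : ∀ r, Fintype.card (P r).State ≤ s)
    (hc : ∀ u, Nat.card R ≤ 2 ^ π * Nat.card {r // (P r).Computes u (mulBits u) T}) :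
    (n : ℝ) ^ 2 ≤
      2 ^ 24 * (Nat.log 2 n + 1) ^ 2 * T * (Real.logb 2 s + π + 1) := by
  classical
  have hR : 0 < Nat.card R := Nat.card_pos
  obtain ⟨r₁⟩ : Nonempty R := inferInstance
  have hs1 : 1 ≤ s := le_trans (Fintype.card_pos_iff.2 ⟨(P r₁).start⟩) (hs r₁)
  have hL0 : 0 ≤ Real.logb 2 (s : ℝ) := Real.logb_nonneg (by norm_num) (by exact_mod_cast hs1)
  rcases Nat.eq_zero_or_pos n with hn | hn
  · subst hn
    simp only [Nat.cast_zero, ne_eq, OfNat.ofNat_ne_zero, not_false_eq_true, zero_pow]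
    positivity
  obtain ⟨l, hl⟩ : ∃ l, l = Nat.log 2 n + 1 := ⟨_, rfl⟩
  have hl1 : 1 ≤ l := by omega
  have hln : l ≤ n := by
    rw [hl]
    exact Nat.log_lt_self 2 (by omega)
  have hnl : n < 2 ^ l := by rw [hl]; exact Nat.lt_pow_succ_log_self (by norm_num) n
  obtain ⟨m, hm⟩ : ∃ m, m = n / l := ⟨_, rfl⟩
  have hm1 : 1 ≤ m := by rw [hm]; exact (Nat.one_le_div_iff (by omega)).2 hln
  have hlm : l * m ≤ n := by rw [hm]; exact Nat.mul_div_le _ _
  have hmn : m ≤ n := by rw [hm]; exact Nat.div_le_self _ _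
  have hn2 : n ≤ 2 * m * l := by
    have h1 : n < l * (m + 1) := by rw [hm]; exact Nat.lt_mul_div_succ _ (by omega)
    nlinarith
  obtain ⟨P', hP'⟩ : ∃ P' : R → Prog (Fin m ⊕ Fin m) (Fin (2 * m)) (ZMod 2), ∀ r, P' r =
      (P r).tr (rdInt l n hm1) (spc l (2 * m)) (fun v => if v then 1 else 0) (.inl ⟨0, hm1⟩) :=
    ⟨_, fun _ => rfl⟩
  have key : ∀ r u, (P r).Computes (spaced2 l n u) (mulBits (spaced2 l n u)) T →
      (P' r).Computes u (pm u) T := by
    intro r u h
    rw [hP']
    refine h.tr ?_ ?_ ?_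
    · exact rdInt_spec l n hm1 u
    · intro o i ho
      exact mul_spaced hl1 hlm (by omega) u o i ((spc_iff hl1 o i).1 ho)
    · intro i
      exact ⟨⟨l * i.val, by
        have h1 := i.isLt
        have h2 : l * i.val < l * (2 * m) := Nat.mul_lt_mul_of_pos_left h1 hl1
        nlinarith⟩, (spc_iff hl1 _ i).2 rfl⟩
  have hmain := conv_main (F := ZMod 2) (n := m) T π s R P' (fun r => by
    rw [hP']
    exact hs r) (by
    have e1 : Nat.card {u : R × (Fin m ⊕ Fin m → ZMod 2) // (P' u.1).Computes u.2 (pm u.2) T} =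
        ∑ u : Fin m ⊕ Fin m → ZMod 2, Nat.card {r // (P' r).Computes u (pm u) T} := by
      rw [Nat.card_eq_fintype_card, Fintype.card_subtype, card_filter,
        Fintype.sum_prod_type_right]
      refine sum_congr rfl (fun r _ => ?_)
      rw [Nat.card_eq_fintype_card, Fintype.card_subtype, card_filter]
    rw [e1, mul_sum]
    have e2 : Fintype.card (ZMod 2) ^ (2 * m) = ∑ _u : Fin m ⊕ Fin m → ZMod 2, 1 := by
      rw [sum_const, card_univ, smul_eq_mul, mul_one, Fintype.card_fun, Fintype.card_sum,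
        Fintype.card_fin]
      congr 1
      omega
    rw [e2, mul_sum]
    apply sum_le_sum
    intro u _
    rw [mul_one]
    refine (hc (spaced2 l n u)).trans (Nat.mul_le_mul_left _ ?_)
    exact Nat.card_le_card_of_injective (fun r => ⟨r.1, key r.1 u r.2⟩)
      (fun r r' h => Subtype.ext (congrArg (fun z => z.1) h)))
  rw [ZMod.card, Nat.cast_ofNat, Real.logb_self_eq_one (by norm_num), mul_one] at hmain
  have h1 : (n : ℝ) ^ 2 ≤ 4 * (l : ℝ) ^ 2 * (m : ℝ) ^ 2 := by
    have h2 : n ^ 2 ≤ 4 * l ^ 2 * m ^ 2 := by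
      calc n ^ 2 ≤ (2 * m * l) ^ 2 := Nat.pow_le_pow_left hn2 2
        _ = _ := by ring
    exact_mod_cast h2
  have h2 : ((l : ℕ) : ℝ) = Nat.log 2 n + 1 := by rw [hl]; push_cast; ring
  rw [← h2]
  calc (n : ℝ) ^ 2 ≤ 4 * (l : ℝ) ^ 2 * (m : ℝ) ^ 2 := h1
    _ ≤ 4 * (l : ℝ) ^ 2 * (2 ^ 22 * T * (Real.logb 2 s + π + 1)) :=
        mul_le_mul_of_nonneg_left hmain (by positivity)
    _ = _ := by ring

end Pool.Agent.W896.MO
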