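import Mathlib

/-!
# Most matrices are hard: ranks of submatrices
-/

set_option autoImplicit false

open Finset

namespace Pool.Agent.W896.MO

variable {F : Type} [Field F] [Fintype F] [DecidableEq F] {n : ℕ}

/-- The vectors that vanish on `Q` and are mapped to zero in the rows `O`. -/
def sol (M : Fin n → Fin n → F) (Q O : Finset (Fin n)) : Finset (Fin n → F) :=
  univ.filter (fun z => (∀ i ∈ Q, z i = 0) ∧ ∀ o ∈ O, ∑ k, M o k * z k = 0)

/-- Good matrices. -/
def LG (M : Fin n → Fin n → F) : Prop :=
  ∀ Q O : Finset (Fin n), 32 * Q.card ≤ n →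
    (sol M Q O).card * Fintype.card F ^ ((O.card + 15) / 16) ≤ Fintype.card F ^ (n - Q.card)

/-- The rows in `O` are combinations of the rows in `O'`, outside of `Q`. -/
def Dep (M : Fin n → Fin n → F) (Q O O' : Finset (Fin n)) : Prop :=
  ∃ c : Fin n → Fin n → F, ∀ o ∈ O, ∀ u, u ∉ Q → M o u = ∑ o' ∈ O', c o o' * M o' u

theorem card_compl (Q : Finset (Fin n)) : Fintype.card {u : Fin n // u ∉ Q} = n - Q.card := by
  rw [Fintype.card_subtype_compl, Fintype.card_fin, Fintype.card_coe]

theorem card_sol_empty (M : Fin n → Fin n → F) (Q : Finset (Fin n)) :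
    (sol M Q ∅).card = Fintype.card F ^ (n - Q.card) := by
  classical
  have h : (sol M Q ∅).card = Fintype.card ({u : Fin n // u ∉ Q} → F) := by
    rw [← Fintype.card_coe]
    refine Fintype.card_congr ⟨fun z u => z.1 u.1, fun w => ⟨fun u => if h : u ∉ Q then w ⟨u, h⟩
      else 0, ?_⟩, ?_, ?_⟩
    · unfold sol
      rw [mem_filter]
      refine ⟨mem_univ _, fun i hi => ?_, by simp⟩
      change (if h : i ∉ Q then w ⟨i, h⟩ else 0) = 0
      exact dif_neg (not_not.2 hi)
    · rintro ⟨z, hz⟩
      unfold sol at hz
      rw [mem_filter] at hz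
      apply Subtype.ext
      funext u
      simp only
      split_ifs with h
      · exact (hz.2.1 u h).symm
      · rfl
    · intro w
      funext u
      simp only
      rw [dif_pos u.2]
  rw [h, Fintype.card_fun, card_compl]

/-- Few solutions unless the rows are dependent. -/
theorem dep_of_sol (M : Fin n → Fin n → F) (Q O : Finset (Fin n)) :
    ∃ O' ⊆ O, Dep M Q O O' ∧
      (sol M Q O).card * Fintype.card F ^ O'.card ≤ Fintype.card F ^ (n - Q.card) := by
  classical
  obtain ⟨N, hN⟩ : ∃ N : Matrix {o : Fin n // o ∈ O} {u : Fin n // u ∉ Q} F,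
    N = fun o u => M o.1 u.1 := ⟨_, rfl⟩
  obtain ⟨κ, a, ha, hspan, hli⟩ := exists_linearIndependent' F (fun o => N o)
  have : Finite κ := Finite.of_injective a ha
  have : Fintype κ := Fintype.ofFinite κ
  have hcard : Fintype.card κ = Module.finrank F (Submodule.span F (Set.range (fun o => N o))) := by
    rw [← hspan]
    exact (finrank_span_eq_card hli).symm
  have hrank : N.rank = Fintype.card κ := by
    rw [Matrix.rank_eq_finrank_span_row, hcard]
    rfl
  refine ⟨univ.image (fun i => (a i).1), ?_, ?_, ?_⟩
  · intro o ho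
    rw [mem_image] at ho
    obtain ⟨i, -, rfl⟩ := ho
    exact (a i).2
  · have hinj : Function.Injective (fun i => (a i).1) := fun i j h => ha (Subtype.ext h)
    have hc : ∀ o : Fin n, ∃ c : κ → F, ∀ h : o ∈ O, ∑ i, c i • N (a i) = N ⟨o, h⟩ := by
      intro o
      by_cases h : o ∈ O
      · have h1 : N ⟨o, h⟩ ∈ Submodule.span F (Set.range ((fun o => N o) ∘ a)) := by
          rw [hspan]
          exact Submodule.subset_span ⟨⟨o, h⟩, rfl⟩
        rw [Submodule.mem_span_range_iff_exists_fun] at h1
        obtain ⟨c, hc⟩ := h1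
        exact ⟨c, fun _ => hc⟩
      · exact ⟨fun _ => 0, fun h' => absurd h' h⟩
    choose c hc using hc
    refine ⟨fun o o' => ∑ i, if (a i).1 = o' then c o i else 0, ?_⟩
    intro o ho u hu
    have h2 := congrFun (hc o ho) ⟨u, hu⟩
    rw [Finset.sum_apply] at h2
    rw [sum_image (fun i _ j _ h => hinj h)]
    have h3 : ∀ i, (∑ j, if (a j).1 = (a i).1 then c o j else 0) = c o i := by
      intro i
      rw [sum_eq_single i]
      · rw [if_pos rfl]
      · intro j _ hj
        rw [if_neg (fun h => hj (hinj h))]
      · intro h; exact absurd (mem_univ _) h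
    simp only [h3]
    have h4 : N ⟨o, ho⟩ ⟨u, hu⟩ = M o u := by rw [hN]
    rw [← h4, ← h2]
    refine sum_congr rfl (fun i _ => ?_)
    rw [Pi.smul_apply, smul_eq_mul, hN]
  · have hinj : Function.Injective (fun i => (a i).1) := fun i j h => ha (Subtype.ext h)
    rw [card_image_of_injective _ hinj, card_univ, ← hrank]
    have h1 : (sol M Q O).card ≤ Fintype.card (LinearMap.ker N.mulVecLin) := by
      rw [← Fintype.card_coe]
      refine Fintype.card_le_of_injective (fun z => ⟨fun u => z.1 u.1, ?_⟩) ?_
      · obtain ⟨z, hz⟩ := z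
        unfold sol at hz
        rw [mem_filter] at hz
        rw [LinearMap.mem_ker, Matrix.mulVecLin_apply]
        funext o
        have h2 := hz.2.2 o.1 o.2
        rw [Pi.zero_apply, Matrix.mulVec, dotProduct, ← h2]
        have h3 : ∑ k, M o.1 k * z k = ∑ k ∈ univ.filter (fun k => k ∉ Q), M o.1 k * z k := by
          rw [sum_filter]
          refine sum_congr rfl (fun k _ => ?_)
          split_ifs with hk
          · rw [hz.2.1 k hk, mul_zero]
          · rfl
        rw [h3, hN]
        rw [← Finset.sum_subtype (univ.filter (fun k => k ∉ Q)) (p := fun k => k ∉ Q)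
          (f := fun k => M o.1 k * z k) (fun k => by simp)]
      · rintro ⟨z, hz⟩ ⟨w, hw⟩ h
        have h2 := congrArg Subtype.val h
        simp only at h2
        unfold sol at hz hw
        rw [mem_filter] at hz hw
        apply Subtype.ext
        funext u
        by_cases hu : u ∈ Q
        · change z u = w u
          rw [hz.2.1 u hu, hw.2.1 u hu]
        · exact congrFun h2 ⟨u, hu⟩
    have h2 : Fintype.card (LinearMap.ker N.mulVecLin) =
        Fintype.card F ^ Module.finrank F (LinearMap.ker N.mulVecLin) :=
      Module.card_eq_pow_finrank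
    have h3 := LinearMap.finrank_range_add_finrank_ker N.mulVecLin
    rw [Module.finrank_fintype_fun_eq_card, card_compl] at h3
    have h4 : N.rank = Module.finrank F (LinearMap.range N.mulVecLin) := rfl
    calc (sol M Q O).card * Fintype.card F ^ N.rank ≤
        Fintype.card F ^ Module.finrank F (LinearMap.ker N.mulVecLin) *
          Fintype.card F ^ N.rank := by
          apply Nat.mul_le_mul_right
          rw [← h2]; exact h1
      _ = Fintype.card F ^ (n - Q.card) := by rw [← pow_add, h4, ← h3, add_comm]

/-- A row that does not vanish. -/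
theorem sol_le_of_ne (M : Fin n → Fin n → F) (Q O : Finset (Fin n)) {o u : Fin n} (ho : o ∈ O)
    (hu : u ∉ Q) (h : M o u ≠ 0) :
    (sol M Q O).card * Fintype.card F ≤ Fintype.card F ^ (n - Q.card) := by
  classical
  rw [← card_sol_empty M Q, ← card_univ (α := F), ← card_product]
  refine card_le_card_of_injOn (fun p => fun k => if k = u then p.1 k + p.2 else p.1 k) ?_ ?_
  · rintro ⟨z, t⟩ hz
    rw [mem_coe, mem_product] at hz
    have hz1 := hz.1
    unfold sol at hz1
    rw [mem_filter] at hz1
    rw [mem_coe]
    unfold sol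
    rw [mem_filter]
    refine ⟨mem_univ _, fun i hi => ?_, by simp⟩
    simp only
    rw [if_neg (by rintro rfl; exact hu hi)]
    exact hz1.2.1 i hi
  · rintro ⟨z, t⟩ hz ⟨w, t'⟩ hw heq
    rw [mem_coe, mem_product] at hz hw
    have hz1 := hz.1
    have hw1 := hw.1
    unfold sol at hz1 hw1
    rw [mem_filter] at hz1 hw1
    have key : ∀ (z : Fin n → F) (t : F), ∑ k, M o k * z k = 0 →
        ∑ k, M o k * (if k = u then z k + t else z k) = M o u * t := by
      intro z t hz
      have e : ∀ k, M o k * (if k = u then z k + t else z k) =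
          M o k * z k + if k = u then M o k * t else 0 := by
        intro k
        split_ifs <;> ring
      simp only [e]
      rw [sum_add_distrib, hz, sum_ite_eq' univ u, if_pos (mem_univ _), zero_add]
    have h1 := key z t (hz1.2.2 o ho)
    have h2 := key w t' (hw1.2.2 o ho)
    have h3 : ∀ k, (if k = u then z k + t else z k) = if k = u then w k + t' else w k :=
      fun k => congrFun heq k
    simp only [h3] at h1
    rw [h2] at h1
    have h4 : t' = t := mul_left_cancel₀ h h1
    subst h4
    have h5 : z = w := by
      funext k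
      have := h3 k
      split_ifs at this with hk
      · exact add_right_cancel this
      · exact this
    rw [h5]

end Pool.Agent.W896.MO
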