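import Pool.Agent.W896.MO.Lin

/-!
# Most matrices are hard: the counting
-/

set_option autoImplicit false

open Finset

namespace Pool.Agent.W896.MO

variable {F : Type} [Field F] [Fintype F] [DecidableEq F] {n : ℕ}

open Classical in
/-- The number of matrices with given dependencies. -/
theorem dep_count (Q D O' : Finset (Fin n)) (hdis : Disjoint D O') :
    (univ.filter (fun M : Fin n → Fin n → F => Dep M Q D O')).card *
      Fintype.card F ^ (D.card * (n - Q.card)) ≤
      Fintype.card F ^ (n * n) * Fintype.card F ^ (D.card * O'.card) := by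
  have e1 : Fintype.card F ^ (D.card * (n - Q.card)) =
      Fintype.card ({o : Fin n // o ∈ D} × {u : Fin n // u ∉ Q} → F) := by
    rw [Fintype.card_fun, Fintype.card_prod, card_compl, Fintype.card_coe]
  have e2 : Fintype.card F ^ (D.card * O'.card) =
      Fintype.card ({o : Fin n // o ∈ D} × {o : Fin n // o ∈ O'} → F) := by
    rw [Fintype.card_fun, Fintype.card_prod, Fintype.card_coe, Fintype.card_coe]
  have e3 : Fintype.card F ^ (n * n) = Fintype.card (Fin n → Fin n → F) := by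
    rw [Fintype.card_fun, Fintype.card_fun, Fintype.card_fin, pow_mul]
  rw [e1, e2, e3, ← Fintype.card_subtype, ← Fintype.card_prod, ← Fintype.card_prod]
  refine Fintype.card_le_of_injective (fun p => (fun o u => if h : o ∈ D ∧ u ∉ Q then
    p.2 (⟨o, h.1⟩, ⟨u, h.2⟩) else p.1.1 o u, fun s => Classical.choose p.1.2 s.1.1 s.2.1)) ?_
  rintro ⟨⟨M, hM⟩, w⟩ ⟨⟨M', hM'⟩, w'⟩ h
  rw [Prod.mk.injEq] at h
  obtain ⟨h1, h2⟩ := h
  have h1' : ∀ o u, (if h : o ∈ D ∧ u ∉ Q then w (⟨o, h.1⟩, ⟨u, h.2⟩) else M o u) =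
      if h : o ∈ D ∧ u ∉ Q then w' (⟨o, h.1⟩, ⟨u, h.2⟩) else M' o u :=
    fun o u => congrFun (congrFun h1 o) u
  have hw : w = w' := by
    funext s
    have := h1' s.1.1 s.2.1
    rw [dif_pos ⟨s.1.2, s.2.2⟩, dif_pos ⟨s.1.2, s.2.2⟩] at this
    exact this
  have hout : ∀ o u, ¬ (o ∈ D ∧ u ∉ Q) → M o u = M' o u := by
    intro o u h
    have := h1' o u
    rwa [dif_neg h, dif_neg h] at this
  have hMM : M = M' := by
    funext o u
    by_cases h : o ∈ D ∧ u ∉ Q
    · have a1 := Classical.choose_spec hM o h.1 u h.2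
      have a2 := Classical.choose_spec hM' o h.1 u h.2
      rw [a1, a2]
      refine sum_congr rfl (fun o' ho' => ?_)
      have a3 := congrFun h2 (⟨o, h.1⟩, ⟨o', ho'⟩)
      simp only at a3
      rw [a3, hout o' u (fun h' => (disjoint_left.1 hdis) h'.1 ho')]
    · exact hout o u h
  subst hMM
  rw [hw]

theorem pow17 (n : ℕ) : 17 ^ n ≤ 2 ^ (n / 8 + 1) * 16 ^ n := by
  obtain ⟨a, b, hb, rfl⟩ : ∃ a b, b < 8 ∧ n = 8 * a + b := ⟨n / 8, n % 8, Nat.mod_lt _ (by norm_num),
    by omega⟩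
  have e : (8 * a + b) / 8 = a := by omega
  rw [e]
  have h1 : 17 ^ (8 * a) ≤ 2 ^ a * 16 ^ (8 * a) := by
    rw [pow_mul, pow_mul, ← mul_pow]
    exact Nat.pow_le_pow_left (by norm_num) a
  have h2 : 17 ^ b ≤ 2 * 16 ^ b := by
    interval_cases b <;> norm_num
  calc 17 ^ (8 * a + b) = 17 ^ (8 * a) * 17 ^ b := pow_add _ _ _
    _ ≤ (2 ^ a * 16 ^ (8 * a)) * (2 * 16 ^ b) := Nat.mul_le_mul h1 h2
    _ = 2 ^ (a + 1) * 16 ^ (8 * a + b) := by rw [pow_add, pow_add]; ring

theorem few_small (n : ℕ) :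
    ((univ : Finset (Finset (Fin n))).filter (fun S => 32 * S.card ≤ n)).card ≤
      2 ^ (n / 4 + 1) := by
  have h1 : ((univ : Finset (Finset (Fin n))).filter (fun S => 32 * S.card ≤ n)).card *
      16 ^ (n - n / 32) ≤ 17 ^ n := by
    have h2 := Finset.sum_pow_mul_eq_add_pow (1 : ℕ) 16 (univ : Finset (Fin n))
    rw [card_univ, Fintype.card_fin] at h2
    have h3 : (1 + 16 : ℕ) = 17 := by norm_num
    rw [h3] at h2
    rw [← h2, ← smul_eq_mul, ← sum_const]
    calc ∑ _S ∈ (univ : Finset (Finset (Fin n))).filter (fun S => 32 * S.card ≤ n),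
        16 ^ (n - n / 32) ≤ ∑ S ∈ (univ : Finset (Finset (Fin n))).filter
          (fun S => 32 * S.card ≤ n), 1 ^ S.card * 16 ^ (n - S.card) := by
          apply sum_le_sum
          intro S hS
          rw [mem_filter] at hS
          rw [one_pow, one_mul]
          apply Nat.pow_le_pow_right (by norm_num)
          have := hS.2
          omega
      _ ≤ _ := by
          apply sum_le_sum_of_subset
          intro S _
          exact mem_powerset.2 (subset_univ _)
  have h2 := pow17 n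
  have h3 : 2 ^ (n / 8 + 1) * 16 ^ n ≤ 2 ^ (n / 4 + 1) * 16 ^ (n - n / 32) := by
    have e1 : (16 : ℕ) = 2 ^ 4 := by norm_num
    rw [e1, ← pow_mul, ← pow_mul, ← pow_add, ← pow_add]
    apply Nat.pow_le_pow_right (by norm_num)
    omega
  exact Nat.le_of_mul_le_mul_right (h1.trans (h2.trans h3)) (by positivity)

open Classical in
/-- Most matrices are good. -/
theorem bad_count (hn : 20 ≤ n) :
    (univ.filter (fun M : Fin n → Fin n → F => ¬ LG M)).card * 2 ^ (n / 4) ≤
      Fintype.card F ^ (n * n) := by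
  obtain ⟨q, hq⟩ : ∃ q, q = Fintype.card F := ⟨_, rfl⟩
  have hq2 : 2 ≤ q := by rw [hq]; exact Fintype.one_lt_card
  rw [← hq]
  -- the two families
  obtain ⟨B1, hB1⟩ : ∃ B1 : Finset (Fin n) × Finset (Fin n) × Finset (Fin n) →
      Finset (Fin n → Fin n → F), ∀ s, B1 s = if 17 ≤ s.2.1.card ∧ 16 * s.2.2.card < s.2.1.card ∧
        32 * s.1.card ≤ n ∧ s.2.2 ⊆ s.2.1 then
        univ.filter (fun M => Dep M s.1 (s.2.1 \ s.2.2) s.2.2) else ∅ := ⟨_, fun _ => rfl⟩
  obtain ⟨B2, hB2⟩ : ∃ B2 : Fin n × Finset (Fin n) → Finset (Fin n → Fin n → F),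
      ∀ s, B2 s = univ.filter (fun M => Dep M s.2 {s.1} ∅) := ⟨_, fun _ => rfl⟩
  have hsub : univ.filter (fun M : Fin n → Fin n → F => ¬ LG M) ⊆ univ.biUnion B1 ∪
      ((univ : Finset (Fin n)) ×ˢ ((univ : Finset (Finset (Fin n))).filter
        (fun S => 32 * S.card ≤ n))).biUnion B2 := by
    intro M hM
    rw [mem_filter] at hM
    have hM' := hM.2
    unfold LG at hM'
    push Not at hM'
    obtain ⟨Q, O, h1, h2⟩ := hM'
    rw [← hq] at h2
    obtain ⟨O', h3, h4, h5⟩ := dep_of_sol M Q O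
    rw [← hq] at h5
    have h6 : O'.card < (O.card + 15) / 16 := by
      by_contra h7
      have h8 : q ^ ((O.card + 15) / 16) ≤ q ^ O'.card :=
        Nat.pow_le_pow_right (by omega) (by omega)
      have h9 := Nat.mul_le_mul_left (sol M Q O).card h8
      omega
    rw [mem_union]
    rcases Nat.lt_or_ge 16 O.card with h7 | h7
    · left
      rw [mem_biUnion]
      refine ⟨(Q, O, O'), mem_univ _, ?_⟩
      rw [hB1, if_pos ⟨h7, by simp only; omega, h1, h3⟩, mem_filter]
      refine ⟨mem_univ _, ?_⟩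
      obtain ⟨c, hc⟩ := h4
      exact ⟨c, fun o ho => hc o (mem_sdiff.1 ho).1⟩
    · right
      obtain ⟨o, ho⟩ : O.Nonempty := by
        rw [← card_pos]; omega
      rw [mem_biUnion]
      refine ⟨(o, Q), mem_product.2 ⟨mem_univ _, mem_filter.2 ⟨mem_univ _, h1⟩⟩, ?_⟩
      rw [hB2, mem_filter]
      refine ⟨mem_univ _, fun _ _ => 0, ?_⟩
      intro o' ho' u hu
      rw [mem_singleton] at ho'
      subst ho'
      rw [sum_empty]
      by_contra h8
      have h9 := sol_le_of_ne M Q O ho hu h8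
      rw [← hq] at h9
      have h10 : (O.card + 15) / 16 = 1 := by omega
      rw [h10, pow_one] at h2
      omega
  -- the sizes
  have hs1 : ∀ s, (B1 s).card * q ^ (14 * n) ≤ q ^ (n * n) := by
    intro s
    rw [hB1]
    split_ifs with h
    · obtain ⟨h1, h2, h3, h4⟩ := h
      have h5 := dep_count (F := F) s.1 (s.2.1 \ s.2.2) s.2.2 sdiff_disjoint
      rw [← hq] at h5
      have h6 : (s.2.1 \ s.2.2).card = s.2.1.card - s.2.2.card := card_sdiff_of_subset h4
      obtain ⟨d, hd⟩ : ∃ d, d = (s.2.1 \ s.2.2).card := ⟨_, rfl⟩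
      rw [← hd] at h5 h6
      have hO : s.2.1.card ≤ n := by
        have := card_le_univ s.2.1
        rwa [Fintype.card_fin] at this
      have h7 : d * (n - s.1.card) = d * (n - s.1.card - s.2.2.card) + d * s.2.2.card := by
        rw [← mul_add]; congr 1; omega
      rw [h7, pow_add, ← mul_assoc] at h5
      have h8 := Nat.le_of_mul_le_mul_right h5 (by positivity)
      refine le_trans (Nat.mul_le_mul_left _ (Nat.pow_le_pow_right (by omega) ?_)) h8
      have h9 : 16 ≤ d := by omega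
      have h10 : 29 * n ≤ 32 * (n - s.1.card - s.2.2.card) := by omega
      calc 14 * n ≤ 16 * (n - s.1.card - s.2.2.card) := by omega
        _ ≤ d * (n - s.1.card - s.2.2.card) := Nat.mul_le_mul_right _ h9
    · simp
  have hs2 : ∀ s ∈ (univ : Finset (Fin n)) ×ˢ ((univ : Finset (Finset (Fin n))).filter
        (fun S => 32 * S.card ≤ n)), (B2 s).card * q ^ (n - n / 32) ≤ q ^ (n * n) := by
    intro s hs
    rw [mem_product, mem_filter] at hs
    rw [hB2]
    have h5 := dep_count (F := F) s.2 {s.1} ∅ (disjoint_empty_right _)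
    rw [← hq, card_singleton, card_empty, mul_zero, pow_zero, mul_one, one_mul] at h5
    refine le_trans (Nat.mul_le_mul_left _ (Nat.pow_le_pow_right (by omega) ?_)) h5
    have := hs.2.2
    omega
  have ht1 : (univ.biUnion B1).card * q ^ (11 * n) ≤ q ^ (n * n) := by
    have h1 : (univ.biUnion B1).card * q ^ (14 * n) ≤ (2 ^ n * (2 ^ n * 2 ^ n)) * q ^ (n * n) := by
      calc _ ≤ (∑ s : Finset (Fin n) × Finset (Fin n) × Finset (Fin n), (B1 s).card) *
            q ^ (14 * n) := Nat.mul_le_mul_right _ card_biUnion_le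
        _ = ∑ s : Finset (Fin n) × Finset (Fin n) × Finset (Fin n), (B1 s).card * q ^ (14 * n) :=
            sum_mul _ _ _
        _ ≤ ∑ _s : Finset (Fin n) × Finset (Fin n) × Finset (Fin n), q ^ (n * n) :=
            sum_le_sum (fun s _ => hs1 s)
        _ = _ := by
            rw [sum_const, card_univ, Fintype.card_prod, Fintype.card_prod, Fintype.card_finset,
              Fintype.card_fin, smul_eq_mul]
    have h2 : 2 ^ n * (2 ^ n * 2 ^ n) ≤ q ^ (3 * n) := by
      calc 2 ^ n * (2 ^ n * 2 ^ n) = 2 ^ (3 * n) := by rw [← pow_add, ← pow_add]; congr 1; ring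
        _ ≤ _ := Nat.pow_le_pow_left hq2 _
    have h3 : (univ.biUnion B1).card * q ^ (11 * n) * q ^ (3 * n) ≤ q ^ (n * n) * q ^ (3 * n) := by
      calc _ = (univ.biUnion B1).card * q ^ (14 * n) := by rw [mul_assoc, ← pow_add]; congr 2; ring
        _ ≤ (2 ^ n * (2 ^ n * 2 ^ n)) * q ^ (n * n) := h1
        _ ≤ q ^ (3 * n) * q ^ (n * n) := Nat.mul_le_mul_right _ h2
        _ = _ := mul_comm _ _
    exact Nat.le_of_mul_le_mul_right h3 (by positivity)
  have ht2 : (((univ : Finset (Fin n)) ×ˢ ((univ : Finset (Finset (Fin n))).filter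
        (fun S => 32 * S.card ≤ n))).biUnion B2).card * q ^ (n - n / 32) ≤
      (n * 2 ^ (n / 4 + 1)) * q ^ (n * n) := by
    calc _ ≤ (∑ s ∈ (univ : Finset (Fin n)) ×ˢ ((univ : Finset (Finset (Fin n))).filter
        (fun S => 32 * S.card ≤ n)), (B2 s).card) * q ^ (n - n / 32) :=
          Nat.mul_le_mul_right _ card_biUnion_le
      _ = ∑ s ∈ (univ : Finset (Fin n)) ×ˢ ((univ : Finset (Finset (Fin n))).filter
        (fun S => 32 * S.card ≤ n)), (B2 s).card * q ^ (n - n / 32) := sum_mul _ _ _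
      _ ≤ ∑ _s ∈ (univ : Finset (Fin n)) ×ˢ ((univ : Finset (Finset (Fin n))).filter
        (fun S => 32 * S.card ≤ n)), q ^ (n * n) := sum_le_sum hs2
      _ = (n * ((univ : Finset (Finset (Fin n))).filter (fun S => 32 * S.card ≤ n)).card) *
            q ^ (n * n) := by
          rw [sum_const, card_product, card_univ, Fintype.card_fin, smul_eq_mul]
      _ ≤ _ := Nat.mul_le_mul_right _ (Nat.mul_le_mul_left _ (few_small n))
  -- everything together
  obtain ⟨b1, hb1⟩ : ∃ b1, b1 = (univ.biUnion B1).card := ⟨_, rfl⟩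
  obtain ⟨b2, hb2⟩ : ∃ b2, b2 = (((univ : Finset (Fin n)) ×ˢ
    ((univ : Finset (Finset (Fin n))).filter (fun S => 32 * S.card ≤ n))).biUnion B2).card :=
      ⟨_, rfl⟩
  rw [← hb1] at ht1
  rw [← hb2] at ht2
  have hu1 : 2 * (b1 * 2 ^ (n / 4)) ≤ q ^ (n * n) := by
    refine le_trans ?_ ht1
    calc 2 * (b1 * 2 ^ (n / 4)) = b1 * 2 ^ (n / 4 + 1) := by rw [pow_succ]; ring
      _ ≤ b1 * q ^ (n / 4 + 1) := Nat.mul_le_mul_left _ (Nat.pow_le_pow_left hq2 _)
      _ ≤ _ := Nat.mul_le_mul_left _ (Nat.pow_le_pow_right (by omega) (by omega))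
  have hu2 : 2 * (b2 * 2 ^ (n / 4)) ≤ q ^ (n * n) := by
    have h1 : n ≤ 2 ^ (n / 4) := by
      obtain ⟨m, k, hk, rfl⟩ : ∃ m k, k < 4 ∧ n = 4 * m + k :=
        ⟨n / 4, n % 4, Nat.mod_lt _ (by norm_num), by omega⟩
      have e : (4 * m + k) / 4 = m := by omega
      rw [e]
      have hm : 5 ≤ m := by omega
      have key' : ∀ m, 5 ≤ m → 4 * m + 3 ≤ 2 ^ m := by
        intro m hm
        induction m, hm using Nat.le_induction with
        | base => norm_num
        | succ m _ ih => rw [pow_succ]; omega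
      have := key' m hm
      omega
    have h2 : 2 * (b2 * 2 ^ (n / 4)) * q ^ (n - n / 32) ≤ q ^ (n * n) * q ^ (n - n / 32) := by
      calc 2 * (b2 * 2 ^ (n / 4)) * q ^ (n - n / 32) =
          2 * 2 ^ (n / 4) * (b2 * q ^ (n - n / 32)) := by ring
        _ ≤ 2 * 2 ^ (n / 4) * ((n * 2 ^ (n / 4 + 1)) * q ^ (n * n)) :=
            Nat.mul_le_mul_left _ ht2
        _ ≤ 2 * 2 ^ (n / 4) * ((2 ^ (n / 4) * 2 ^ (n / 4 + 1)) * q ^ (n * n)) := by gcongr
        _ = q ^ (n * n) * 2 ^ (3 * (n / 4) + 2) := by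
            have e : 3 * (n / 4) + 2 = 1 + n / 4 + (n / 4 + (n / 4 + 1)) := by ring
            rw [e, pow_add, pow_add, pow_add, pow_add]; ring
        _ ≤ q ^ (n * n) * q ^ (3 * (n / 4) + 2) :=
            Nat.mul_le_mul_left _ (Nat.pow_le_pow_left hq2 _)
        _ ≤ _ := Nat.mul_le_mul_left _ (Nat.pow_le_pow_right (by omega) (by omega))
    exact Nat.le_of_mul_le_mul_right h2 (by positivity)
  have hfin : (univ.filter (fun M : Fin n → Fin n → F => ¬ LG M)).card ≤ b1 + b2 := by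
    rw [hb1, hb2]
    exact (card_le_card hsub).trans (card_union_le _ _)
  have h3 := Nat.mul_le_mul_right (2 ^ (n / 4)) hfin
  have h4 : (b1 + b2) * 2 ^ (n / 4) = b1 * 2 ^ (n / 4) + b2 * 2 ^ (n / 4) := by ring
  omega

end Pool.Agent.W896.MO
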