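import Pool.Agent.W896.MO.Rows

/-!
# Matrix-vector products with a good matrix: the trade-off
-/

set_option autoImplicit false

open Finset

namespace Pool.Agent.W896.MO

/-- The products of the matrix `M` with the vectors `v 1, ..., v m`: the entry `i` of the product
with the vector `v j` is the entry `(j, i)`. -/
def mv {F : Type} [Field F] {n m : ℕ} (M : Fin n → Fin n → F) (v : Fin m × Fin n → F) :
    Fin m × Fin n → F :=
  fun o => ∑ k, M o.2 k * v (o.1, k)

variable {F : Type} [Field F] [Fintype F] [DecidableEq F] {n m : ℕ}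

/-- The input given by the list of the vectors. -/
def flat {α : Type} (y : Fin m → Fin n → α) : Fin m × Fin n → α := fun p => y p.1 p.2

open Classical in
theorem mv_proc (M : Fin n → Fin n → F) (hM : LG M) {a N₁ : ℕ} (ha : 128 * a ≤ n)
    {Rel : (Fin m × Fin n → F) → List (Option (Ev (Fin m × Fin n) (Fin m × Fin n) F)) → Prop}
    (hP : Proc Rel) :
    (univ.filter (fun y : Fin m → Fin n → F => True ∧
      Good flat (mv M) (fun _ _ => True) a N₁ Rel y)).card ≤
      Fintype.card (Fin m → Fin n → F) / Fintype.card F ^ (N₁ / 16) := by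
  have hq : 0 < Fintype.card F := Fintype.card_pos
  rw [Nat.le_div_iff_mul_le (by positivity), mul_comm]
  have h := classes_good (flat : (Fin m → Fin n → F) → _) (mv M) hP univ
    (fun _ l O => l.length ≤ 4 * a ∧ N₁ ≤ O.card) (Fintype.card F ^ (N₁ / 16)) ?_
  · refine le_trans ?_ (h.trans (le_of_eq card_univ))
    apply Nat.mul_le_mul_left
    apply card_le_card
    intro y hy
    rw [mem_filter] at hy ⊢
    obtain ⟨-, -, l, h1, h2, h3, O, h4, h5⟩ := hy
    exact ⟨mem_univ _, l, O, h1, h3, fun o ho => (h5 o ho).2, h2, h4⟩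
  · rintro y - l O ⟨h1, h2⟩
    obtain ⟨Q, hQ⟩ : ∃ Q : Fin m → Finset (Fin n), ∀ j, Q j =
      univ.filter (fun k => some (.inl (j, k)) ∈ l) := ⟨_, fun _ => rfl⟩
    obtain ⟨J, hJ⟩ : ∃ J : Fin m → Finset (Fin n), ∀ j, J j =
      univ.filter (fun o => (j, o) ∈ O) := ⟨_, fun _ => rfl⟩
    have hQc : ∀ j, (Q j).card ≤ l.length := by
      intro j
      have h3 : (Q j).image (fun k => (some (.inl (j, k)) :
          Option (Ev (Fin m × Fin n) (Fin m × Fin n) F))) ⊆ l.toFinset := by
        intro e he
        rw [mem_image] at he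
        obtain ⟨k, hk, rfl⟩ := he
        rw [hQ, mem_filter] at hk
        exact List.mem_toFinset.2 hk.2
      have h4 := card_le_card h3
      rw [card_image_of_injective _ (fun k k' h => by
        simp only [Option.some.injEq, Sum.inl.injEq, Prod.mk.injEq] at h; exact h.2)] at h4
      exact h4.trans (List.toFinset_card_le l)
    have hJc : N₁ ≤ ∑ j ∈ univ, (J j).card := by
      refine h2.trans (le_of_eq ?_)
      have h3 : O = (univ.sigma J).map (⟨fun s => (s.1, s.2), by
          rintro ⟨a, b⟩ ⟨c, d⟩ h
          simp only [Prod.mk.injEq] at h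
          obtain ⟨rfl, rfl⟩ := h
          rfl⟩ : ((_ : Fin m) × Fin n) ↪ Fin m × Fin n) := by
        ext ⟨j, o⟩
        rw [mem_map]
        constructor
        · intro h
          refine ⟨⟨j, o⟩, ?_, rfl⟩
          rw [mem_sigma, hJ, mem_filter]
          exact ⟨mem_univ _, mem_univ _, h⟩
        · rintro ⟨⟨j', o'⟩, h, h'⟩
          simp only [Function.Embedding.coeFn_mk, Prod.mk.injEq] at h'
          obtain ⟨rfl, rfl⟩ := h'
          rw [mem_sigma, hJ, mem_filter] at h
          exact h.2.2
      rw [h3, card_map, card_sigma]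
    have h3 := rows_count M hM y Q J univ (fun j _ => by have := hQc j; omega)
    rw [mul_comm]
    refine le_trans (Nat.mul_le_mul (le_of_eq (congrArg Finset.card ?_))
      (Nat.pow_le_pow_right hq (sum_ceil J univ hJc)))
      (h3.trans (le_of_eq (congrArg Finset.card ?_)))
    · ext y'
      simp only [mem_filter, mem_univ, true_and]
      refine and_congr ?_ ?_
      · constructor
        · intro h j k hk
          rw [hQ, mem_filter] at hk
          exact h (j, k) hk.2
        · rintro h ⟨j, k⟩ hk
          exact h j k (by rw [hQ, mem_filter]; exact ⟨mem_univ _, hk⟩)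
      · constructor
        · intro h j o ho
          rw [hJ, mem_filter] at ho
          exact h (j, o) ho.2
        · rintro h ⟨j, o⟩ ho
          exact h j o (by rw [hJ, mem_filter]; exact ⟨mem_univ _, ho⟩)
    · ext y'
      simp only [mem_filter, mem_univ, true_and]
      constructor
      · rintro h ⟨j, k⟩ hk
        exact h j k (by rw [hQ, mem_filter]; exact ⟨mem_univ _, hk⟩)
      · intro h j k hk
        rw [hQ, mem_filter] at hk
        exact h (j, k) hk.2

open Classical in
theorem mv_count (M : Fin n → Fin n → F) (hM : LG M) (hn : 128 ≤ n)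
    (P : Prog (Fin m × Fin n) (Fin m × Fin n) F) {T N₁ : ℕ} (hN₁ : 1 ≤ N₁)
    (hN : (T / (n / 128) + 1) * N₁ ≤ m * n) :
    (univ.filter (fun y : Fin m → Fin n → F => P.Computes (flat y) (mv M (flat y)) T)).card *
      Fintype.card F ^ (N₁ / 16) ≤
      Fintype.card P.State * (T * (Fintype.card P.State) ^ 2 + 1) ^ 4 *
        Fintype.card (Fin m → Fin n → F) := by
  have h := union_bound P (flat : (Fin m → Fin n → F) → _) (mv M) (fun _ _ => True)
    (fun _ => True) (a := n / 128) (N₀ := m * n) (N₁ := N₁) (T := T)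
    (K := Fintype.card (Fin m → Fin n → F) / Fintype.card F ^ (N₁ / 16))
    (by omega) hN₁ hN (fun y _ => by
      simp only [filter_true, card_univ, Fintype.card_prod, Fintype.card_fin, le_refl])
    (fun Rel hRel => by convert mv_proc M hM (a := n / 128) (N₁ := N₁) (by omega) hRel)
  simp only [true_and] at h
  calc _ ≤ (Fintype.card P.State * (T * (Fintype.card P.State) ^ 2 + 1) ^ 4 *
        (Fintype.card (Fin m → Fin n → F) / Fintype.card F ^ (N₁ / 16))) *
        Fintype.card F ^ (N₁ / 16) := Nat.mul_le_mul_right _ (by convert h)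
    _ = Fintype.card P.State * (T * (Fintype.card P.State) ^ 2 + 1) ^ 4 *
        (Fintype.card (Fin m → Fin n → F) / Fintype.card F ^ (N₁ / 16) *
        Fintype.card F ^ (N₁ / 16)) := by ring
    _ ≤ _ := Nat.mul_le_mul_left _ (Nat.div_mul_le_self _ _)

/-- Averaging over the random choices. -/
theorem avg_exists {R Ω : Type} [Fintype R] [Fintype Ω] [Nonempty R] (A : R → Ω → Prop) (c : ℕ)
    (h : Nat.card R * Nat.card Ω ≤ c * Nat.card {u : R × Ω // A u.1 u.2}) :
    ∃ r, Nat.card Ω ≤ c * Nat.card {y // A r y} := by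
  classical
  by_contra hc
  push Not at hc
  have e1 : Nat.card {u : R × Ω // A u.1 u.2} = ∑ r, Nat.card {y // A r y} := by
    rw [Nat.card_eq_fintype_card, Fintype.card_subtype, card_filter, Fintype.sum_prod_type]
    refine sum_congr rfl (fun r _ => ?_)
    rw [Nat.card_eq_fintype_card, Fintype.card_subtype, card_filter]
  rw [e1, mul_sum] at h
  have h2 : ∑ r : R, c * Nat.card {y // A r y} < ∑ _r : R, Nat.card Ω :=
    sum_lt_sum_of_nonempty univ_nonempty (fun r _ => hc r)
  rw [sum_const, card_univ, smul_eq_mul, ← Nat.card_eq_fintype_card] at h2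
  omega

end Pool.Agent.W896.MO
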