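import Pool.Agent.W896.MO.Range
import Pool.Agent.W896.FD.OV

/-!
# Orthogonal vectors with outputs, on programs with a stack
-/

set_option autoImplicit false
set_option maxHeartbeats 1000000

open Finset

namespace Pool.Agent.W896.MO

open Pool.Agent.W896.FD.OV (Valid testBit_ne)

/-- Summing up. -/
theorem sum_up {R Y : Type} [Fintype R] [Fintype Y] (A : R → Y → Prop) (c : ℕ)
    (h : ∀ y, Nat.card R ≤ c * Nat.card {r // A r y}) :
    Nat.card R * Nat.card Y ≤ c * Nat.card {u : R × Y // A u.1 u.2} := by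
  classical
  have e1 : Nat.card {u : R × Y // A u.1 u.2} = ∑ y, Nat.card {r // A r y} := by
    rw [Nat.card_eq_fintype_card, Fintype.card_subtype, card_filter, Fintype.sum_prod_type_right]
    refine sum_congr rfl (fun y _ => ?_)
    rw [Nat.card_eq_fintype_card, Fintype.card_subtype, card_filter]
  rw [e1, mul_sum]
  calc Nat.card R * Nat.card Y = ∑ _y : Y, Nat.card R := by
        rw [sum_const, card_univ, smul_eq_mul, Nat.card_eq_fintype_card (α := Y), mul_comm]
    _ ≤ _ := sum_le_sum (fun y _ => h y)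

/-- For each vector of the second list: is there an orthogonal vector in the first one? -/
def ovOut {N d : ℕ} (x : Bool × Fin N × Fin d → Bool) (j : Fin N) : Bool :=
  decide (∃ i : Fin N, ∀ l : Fin d, ¬ (x (false, i, l) = true ∧ x (true, j, l) = true))

/-- The coordinates; `t` is the value of the function at `i`. -/
def ent (Lg h : ℕ) (s : Bool) (i t l : ℕ) : Bool :=
  if l = 0 then (if s = true then true else decide (h ≤ i)) else
  if l < 1 + Lg then
    (if s = true then !i.testBit (l - 1) else (decide (i < h) && t.testBit (l - 1))) else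
  if l < 1 + 2 * Lg then
    (if s = true then i.testBit (l - 1 - Lg) else (decide (i < h) && !t.testBit (l - 1 - Lg))) else
  if l < 1 + 3 * Lg then (if s = true then false else i.testBit (l - 1 - 2 * Lg)) else false

/-- How a bit is read. -/
def rdO {h N d : ℕ} (Lg : ℕ) (i₀ : Fin h) (v : Bool × Fin N × Fin d) :
    Fin h × (RV h → Bool) :=
  (if hi : v.2.1.val < h then ⟨v.2.1.val, hi⟩ else i₀,
    fun u => ent Lg h v.1 v.2.1.val (match u with | .inl t => t.val | .inr _ => 0) v.2.2.val)

/-- The instance. -/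
def insO {h N d : ℕ} (Lg : ℕ) (i₀ : Fin h) (y : Fin h → Fin (2 * h)) :
    Bool × Fin N × Fin d → Bool := fun v => (rdO Lg i₀ v).2 (rin y (rdO Lg i₀ v).1)

section

variable {h N d Lg : ℕ} (hN : N ≤ 2 ^ Lg) (hd : 3 * Lg + 1 ≤ d) (h2N : 2 * h ≤ N)
  (i₀ : Fin h) (y : Fin h → Fin (2 * h))

theorem insO_true (j : Fin N) (l : Fin d) :
    insO Lg i₀ y (true, j, l) = ent Lg h true j.val 0 l.val := by
  unfold insO rdO rin ent
  simp only [if_true]

theorem insO_lt {i : Fin N} (hi : i.val < h) (l : Fin d) :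
    insO Lg i₀ y (false, i, l) = ent Lg h false i.val (y ⟨i.val, hi⟩).val l.val := by
  unfold insO rdO rin
  simp only [hi, dif_pos]

theorem insO_ge {i : Fin N} (hi : ¬ i.val < h) (l : Fin d) :
    insO Lg i₀ y (false, i, l) = ent Lg h false i.val 0 l.val := by
  unfold insO rdO rin ent
  simp only [hi, dif_neg, not_false_eq_true, decide_false, Bool.false_and]

include hN hd h2N in
theorem orth_iff (i j : Fin N) :
    (∀ l : Fin d, ¬ (insO Lg i₀ y (false, i, l) = true ∧ insO Lg i₀ y (true, j, l) = true)) ↔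
      ∃ hi : i.val < h, (y ⟨i.val, hi⟩).val = j.val := by
  constructor
  · intro hl
    have hi : i.val < h := by
      by_contra hi
      apply hl ⟨0, by omega⟩
      rw [insO_ge i₀ y hi, insO_true]
      have h1 : h ≤ i.val := by omega
      simp [ent, h1]
    refine ⟨hi, ?_⟩
    by_contra hne
    have hyl : (y ⟨i.val, hi⟩).val < 2 ^ Lg := by
      have h1 := (y ⟨i.val, hi⟩).isLt
      omega
    obtain ⟨k, hk, hk'⟩ := testBit_ne hyl (j.isLt.trans_le hN) hne
    cases hb : (y ⟨i.val, hi⟩).val.testBit k with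
    | true =>
      have hb' : j.val.testBit k = false := by
        cases h5 : j.val.testBit k
        · rfl
        · rw [hb, h5] at hk'; exact absurd rfl hk'
      apply hl ⟨1 + k, by omega⟩
      rw [insO_lt i₀ y hi, insO_true]
      have a1 : ¬ (1 + k = 0) := by omega
      have a2 : 1 + k < 1 + Lg := by omega
      have a3 : 1 + k - 1 = k := by omega
      simp [ent, a2, a3, hi, hb, hb']
    | false =>
      have hb' : j.val.testBit k = true := by
        cases h5 : j.val.testBit k
        · rw [hb, h5] at hk'; exact absurd rfl hk'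
        · rfl
      apply hl ⟨1 + Lg + k, by omega⟩
      rw [insO_lt i₀ y hi, insO_true]
      have a1 : ¬ (1 + Lg + k = 0) := by omega
      have a2 : ¬ (1 + Lg + k < 1 + Lg) := by omega
      have a3 : 1 + Lg + k < 1 + 2 * Lg := by omega
      have a4 : 1 + Lg + k - 1 - Lg = k := by omega
      simp [ent, a1, a2, a3, a4, hi, hb, hb']
  · rintro ⟨hi, hij⟩ l ⟨b1, b2⟩
    rw [insO_lt i₀ y hi, hij] at b1
    rw [insO_true] at b2
    unfold ent at b1 b2
    have a0 : ¬ (h ≤ i.val) := by omega
    by_cases c0 : l.val = 0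
    · simp [c0, a0] at b1
    simp only [c0, if_false, if_true, Bool.false_eq_true, hi, decide_true, Bool.true_and] at b1 b2
    by_cases c1 : l.val < 1 + Lg
    · simp only [c1, if_true] at b1 b2
      rw [b1] at b2
      exact Bool.noConfusion b2
    simp only [c1, if_false] at b1 b2
    by_cases c2 : l.val < 1 + 2 * Lg
    · simp only [c2, if_true] at b1 b2
      rw [b2] at b1
      exact Bool.noConfusion b1
    simp only [c2, if_false] at b1 b2
    by_cases c3 : l.val < 1 + 3 * Lg
    · simp [c3] at b2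
    · simp [c3] at b2

include hN hd in
theorem validO : Valid (insO (N := N) (d := d) Lg i₀ y) := by
  intro s v w hvw
  by_contra hne
  have hv' : v.val ≠ w.val := fun h => hne (Fin.ext h)
  obtain ⟨k, hk, hk'⟩ := testBit_ne (v.isLt.trans_le hN) (w.isLt.trans_le hN) hv'
  cases s with
  | true =>
    have h1 := congrFun hvw ⟨1 + k, by omega⟩
    simp only at h1
    rw [insO_true, insO_true] at h1
    have a1 : ¬ (1 + k = 0) := by omega
    have a2 : 1 + k < 1 + Lg := by omega
    have a3 : 1 + k - 1 = k := by omega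
    simp only [ent, a1, a2, a3, if_false, if_true] at h1
    exact hk' (Bool.not_inj h1)
  | false =>
    have h1 := congrFun hvw ⟨1 + 2 * Lg + k, by omega⟩
    simp only at h1
    have key : ∀ i : Fin N, insO (N := N) (d := d) Lg i₀ y (false, i, ⟨1 + 2 * Lg + k, by omega⟩) =
        i.val.testBit k := by
      intro i
      have a1 : ¬ (1 + 2 * Lg + k = 0) := by omega
      have a2 : ¬ (1 + 2 * Lg + k < 1 + Lg) := by omega
      have a3 : ¬ (1 + 2 * Lg + k < 1 + 2 * Lg) := by omega
      have a4 : 1 + 2 * Lg + k < 1 + 3 * Lg := by omega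
      have a5 : 1 + 2 * Lg + k - 1 - 2 * Lg = k := by omega
      by_cases hi : i.val < h
      · rw [insO_lt i₀ y hi]
        simp only [ent, a1, a2, a3, a4, a5, if_false, if_true, Bool.false_eq_true]
      · rw [insO_ge i₀ y hi]
        simp only [ent, a1, a2, a3, a4, a5, if_false, if_true, Bool.false_eq_true]
    rw [key, key] at h1
    exact hk' h1

include hN hd h2N in
theorem ovOut_insO (j : Fin N) : ovOut (insO (d := d) Lg i₀ y) j =
    decide (∃ i, (y i).val = j.val) := by
  unfold ovOut
  apply decide_eq_decide.2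
  constructor
  · rintro ⟨i, hi⟩
    obtain ⟨h1, h2⟩ := (orth_iff hN hd h2N i₀ y i j).1 hi
    exact ⟨_, h2⟩
  · rintro ⟨i, hi⟩
    have h3 := i.isLt
    exact ⟨⟨i.val, by omega⟩, (orth_iff hN hd h2N i₀ y _ j).2 ⟨h3, hi⟩⟩

end

/-- **Orthogonal vectors with outputs.** -/
theorem ov_out (N d T π s : ℕ) (hd : 3 * Nat.clog 2 N + 1 ≤ d) (R : Type) [Fintype R] [Nonempty R]
    (P : R → Prog (Bool × Fin N × Fin d) (Fin N) Bool)
    (hs : ∀ r, Fintype.card (P r).State ≤ s)
    (hc : ∀ x : Bool × Fin N × Fin d → Bool, Valid x →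
      Nat.card R ≤ 2 ^ π * Nat.card {r // (P r).Computes x (ovOut x) T}) :
    (N : ℝ) ^ 2 ≤ 2 ^ 22 * T * (Real.logb 2 s + π + 1) := by
  classical
  obtain ⟨r₀⟩ := (inferInstance : Nonempty R)
  have hs1 : 1 ≤ s := le_trans (Fintype.card_pos_iff.2 ⟨(P r₀).start⟩) (hs r₀)
  have hL0 : 0 ≤ Real.logb 2 (s : ℝ) := Real.logb_nonneg (by norm_num) (by exact_mod_cast hs1)
  have hπ0 : (0 : ℝ) ≤ π := Nat.cast_nonneg _
  have hT0 : (0 : ℝ) ≤ T := Nat.cast_nonneg _
  obtain ⟨h, hh⟩ : ∃ h, h = N / 2 := ⟨_, rfl⟩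
  rcases Nat.eq_zero_or_pos h with h0 | hpos
  · have hN1 : N ≤ 1 := by omega
    obtain ⟨x₀, -⟩ : ∃ x₀ : Bool × Fin N × Fin d → Bool, x₀ = fun _ => false := ⟨_, rfl⟩
    have hv : Valid x₀ := by
      intro s i j _
      apply Fin.ext
      have := i.isLt
      have := j.isLt
      omega
    have h1 := hc _ hv
    have h2 : 0 < Nat.card {r // (P r).Computes x₀ (ovOut x₀) T} := by
      by_contra hcon
      have h3 : Nat.card {r // (P r).Computes x₀ (ovOut x₀) T} = 0 := by
        omega
      rw [h3, mul_zero] at h1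
      have : 0 < Nat.card R := Nat.card_pos
      omega
    obtain ⟨⟨r, hr⟩⟩ := (Nat.card_pos_iff.1 h2).1
    have h4 := hr.card_le'
    rw [Fintype.card_fin] at h4
    have h5 : (N : ℝ) ≤ T := by exact_mod_cast h4
    have h6 : (N : ℝ) ≤ 1 := by exact_mod_cast hN1
    have h7 : (0 : ℝ) ≤ N := Nat.cast_nonneg _
    calc (N : ℝ) ^ 2 = N * N := by ring
      _ ≤ 1 * T := mul_le_mul h6 h5 h7 (by norm_num)
      _ = T * 1 := by ring
      _ ≤ (2 ^ 22 * T) * (Real.logb 2 s + π + 1) := by
          apply mul_le_mul _ (by linarith) (by norm_num) (by positivity)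
          linarith
  have h2N : 2 * h ≤ N := by omega
  have h3N : N ≤ 3 * h := by omega
  have hN : N ≤ 2 ^ Nat.clog 2 N := Nat.le_pow_clog (by norm_num) N
  obtain ⟨i₀, -⟩ : ∃ i₀ : Fin h, i₀.val = 0 := ⟨⟨0, hpos⟩, rfl⟩
  obtain ⟨wr, hwr⟩ : ∃ wr : Fin N → Option (Fin (2 * h)), ∀ j, wr j =
    if hj : j.val < 2 * h then some ⟨j.val, hj⟩ else none := ⟨_, fun _ => rfl⟩
  have hmain := range_main h T π s R
    (fun r => (P r).tr (rdO (Nat.clog 2 N) i₀) wr Sum.inr i₀) (fun r => hs r) (by
      have h1 := sum_up (fun r (y : Fin h → Fin (2 * h)) =>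
        ((P r).tr (rdO (Nat.clog 2 N) i₀) wr Sum.inr i₀).Computes (rin y) (rf (rin y)) T)
        (2 ^ π) (fun y => by
          refine (hc _ (validO hN hd i₀ y)).trans (Nat.mul_le_mul_left _ ?_)
          refine Nat.card_le_card_of_injective (fun r => ⟨r.1, ?_⟩) ?_
          · refine r.2.tr (fun v => rfl) ?_ ?_
            · intro o o' ho
              rw [hwr] at ho
              split_ifs at ho with hj
              rw [Option.some.injEq] at ho
              rw [ovOut_insO hN hd h2N i₀ y o]
              unfold rf rin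
              congr 1
              apply decide_eq_decide.2
              refine exists_congr (fun i => ?_)
              rw [Sum.inl.injEq, ← ho, Fin.ext_iff]
            · intro o'
              have h1 := o'.isLt
              refine ⟨⟨o'.val, by omega⟩, ?_⟩
              rw [hwr]
              simp only [h1, dif_pos]
          · intro r r' hrr
            have h5 := congrArg Subtype.val hrr
            simp only at h5
            exact Subtype.ext h5)
      have h2 : Nat.card (Fin h → Fin (2 * h)) = (2 * h) ^ h := by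
        rw [Nat.card_eq_fintype_card, Fintype.card_fun, Fintype.card_fin, Fintype.card_fin]
      rw [h2] at h1
      exact h1)
  have h9 : (N : ℝ) ^ 2 ≤ 9 * (h : ℝ) ^ 2 := by
    have h1 : N ^ 2 ≤ 9 * h ^ 2 := by
      calc N ^ 2 ≤ (3 * h) ^ 2 := Nat.pow_le_pow_left h3N 2
        _ = _ := by ring
    exact_mod_cast h1
  calc (N : ℝ) ^ 2 ≤ 9 * (h : ℝ) ^ 2 := h9
    _ ≤ 9 * (2 ^ 18 * T * (Real.logb 2 s + π + 1)) := mul_le_mul_of_nonneg_left hmain (by norm_num)
    _ = (9 * 2 ^ 18) * (T * (Real.logb 2 s + π + 1)) := by ring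
    _ ≤ 2 ^ 22 * (T * (Real.logb 2 s + π + 1)) := by
        apply mul_le_mul_of_nonneg_right (by norm_num)
        positivity
    _ = _ := by ring

end Pool.Agent.W896.MO
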