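import Pool.Agent.W896.MO.Conv
import Pool.Agent.W896.MO.MvFinal
import Pool.Agent.W896.MO.Transfer

/-!
# The range of a function, on programs with a stack
-/

set_option autoImplicit false
set_option maxHeartbeats 1000000

open Finset

namespace Pool.Agent.W896.MO

variable {h : ℕ}

/-- The values: numbers (inputs) and bits (outputs). -/
abbrev RV (h : ℕ) : Type := Fin (2 * h) ⊕ Bool

/-- The input. -/
def rin (y : Fin h → Fin (2 * h)) : Fin h → RV h := fun i => .inl (y i)

/-- Which numbers are values of the function. -/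
def rf (x : Fin h → RV h) (v : Fin (2 * h)) : RV h := .inr (decide (∃ i, x i = .inl v))

theorem rf_false (y : Fin h → Fin (2 * h)) (v : Fin (2 * h)) :
    rf (rin y) v = .inr false ↔ ∀ i, y i ≠ v := by
  unfold rf rin
  simp

theorem arithR {h e N : ℕ} (hh : 0 < h) (he : h ≤ 2 * e) (hN : N ≤ 2 * h) :
    2 ^ (N / 16) * (2 * h - N) ^ e ≤ (2 * h) ^ e := by
  have hR : (0 : ℝ) < 2 * h := by
    have : (0 : ℝ) < h := by exact_mod_cast hh
    linarith
  have h1 : ((2 * h - N : ℕ) : ℝ) ≤ 2 * h * Real.exp (-(N / (2 * h))) := by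
    rw [Nat.cast_sub hN]
    push_cast
    have h2 := Real.add_one_le_exp (-((N : ℝ) / (2 * h)))
    calc (2 : ℝ) * h - N = 2 * h * (-((N : ℝ) / (2 * h)) + 1) := by field_simp; ring
      _ ≤ _ := mul_le_mul_of_nonneg_left h2 hR.le
  have h2 : (2 : ℝ) ^ (N / 16) ≤ Real.exp ((N : ℝ) / 16) := by
    have h3 : (2 : ℝ) ≤ Real.exp 1 := by linarith [Real.exp_one_gt_d9]
    calc (2 : ℝ) ^ (N / 16) ≤ (Real.exp 1) ^ (N / 16) := pow_le_pow_left₀ (by norm_num) h3 _
      _ = Real.exp ((N / 16 : ℕ) : ℝ) := by rw [← Real.exp_nat_mul, mul_one]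
      _ ≤ Real.exp ((N : ℝ) / 16) := Real.exp_le_exp.2 Nat.cast_div_le
  have h3 : Real.exp ((N : ℝ) / 16) * Real.exp (-(N / (2 * h))) ^ e ≤ 1 := by
    rw [← Real.exp_nat_mul, ← Real.exp_add]
    rw [← Real.exp_zero]
    apply Real.exp_le_exp.2
    have h4 : (N : ℝ) / 4 ≤ e * (N / (2 * h)) := by
      have h5 : (h : ℝ) ≤ 2 * e := by exact_mod_cast he
      rw [div_le_iff₀ (by norm_num), ← sub_nonneg]
      have h6 : (e : ℝ) * (N / (2 * h)) * 4 - N = N * ((2 * e - h) / h) := by
        have : (h : ℝ) ≠ 0 := by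
          have : (0 : ℝ) < h := by exact_mod_cast hh
          exact this.ne'
        field_simp
        ring
      rw [h6]
      have h7 : (0 : ℝ) < h := by exact_mod_cast hh
      apply mul_nonneg (Nat.cast_nonneg _)
      apply div_nonneg _ h7.le
      linarith
    have h5 : (0 : ℝ) ≤ N := Nat.cast_nonneg _
    linarith
  have h4 : (2 : ℝ) ^ (N / 16) * ((2 * h - N : ℕ) : ℝ) ^ e ≤ (2 * h) ^ e := by
    calc (2 : ℝ) ^ (N / 16) * ((2 * h - N : ℕ) : ℝ) ^ e ≤
          Real.exp ((N : ℝ) / 16) * (2 * h * Real.exp (-(N / (2 * h)))) ^ e := by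
          apply mul_le_mul h2 (pow_le_pow_left₀ (Nat.cast_nonneg _) h1 _) (by positivity)
            (Real.exp_pos _).le
      _ = (2 * h) ^ e * (Real.exp ((N : ℝ) / 16) * Real.exp (-(N / (2 * h))) ^ e) := by
          rw [mul_pow]; ring
      _ ≤ (2 * h) ^ e * 1 := mul_le_mul_of_nonneg_left h3 (by positivity)
      _ = _ := mul_one _
  exact_mod_cast h4

open Classical in
theorem range_proc (hh : 0 < h) {a N₁ : ℕ} (ha : 128 * a ≤ h)
    {Rel : (Fin h → RV h) → List (Option (Ev (Fin h) (Fin (2 * h)) (RV h))) → Prop}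
    (hP : Proc Rel) :
    (univ.filter (fun y : Fin h → Fin (2 * h) => True ∧
      Good rin rf (fun y o => rf (rin y) o = .inr false) a N₁ Rel y)).card ≤
      Fintype.card (Fin h → Fin (2 * h)) / 2 ^ (N₁ / 16) := by
  rw [Nat.le_div_iff_mul_le (by positivity), mul_comm]
  have hcl := classes_good (rin (h := h)) rf hP univ
    (fun y l O => l.length ≤ 4 * a ∧ N₁ ≤ O.card ∧ ∀ o ∈ O, rf (rin y) o = .inr false)
    (2 ^ (N₁ / 16)) ?_
  · refine le_trans ?_ (hcl.trans (le_of_eq card_univ))
    apply Nat.mul_le_mul_left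
    apply card_le_card
    intro y hy
    rw [mem_filter] at hy ⊢
    obtain ⟨-, -, l, h1, h2, h3, O, h4, h5⟩ := hy
    exact ⟨mem_univ _, l, O, h1, h3, fun o ho => (h5 o ho).2, h2, h4, fun o ho => (h5 o ho).1⟩
  · rintro y - l O ⟨h1, h2, h2'⟩
    obtain ⟨Q, hQ⟩ : ∃ Q : Finset (Fin h), Q = univ.filter (fun k : Fin h =>
      (some (.inl k) : Option (Ev (Fin h) (Fin (2 * h)) (RV h))) ∈ l) := ⟨_, rfl⟩
    have hQc : Q.card ≤ l.length := by
      have h3 : Q.image (fun k : Fin h => (some (.inl k) :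
          Option (Ev (Fin h) (Fin (2 * h)) (RV h)))) ⊆ l.toFinset := by
        intro e he
        rw [mem_image] at he
        obtain ⟨k, hk, rfl⟩ := he
        rw [hQ, mem_filter] at hk
        exact List.mem_toFinset.2 hk.2
      have h4 := card_le_card h3
      rw [card_image_of_injective _ (fun k k' h => by
        simp only [Option.some.injEq, Sum.inl.injEq] at h
        exact h)] at h4
      exact h4.trans (List.toFinset_card_le l)
    have hagr : ∀ y' : Fin h → Fin (2 * h), Agr rin l y y' ↔ ∀ k ∈ Q, y' k = y k := by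
      intro y'
      constructor
      · intro h3 k hk
        rw [hQ, mem_filter] at hk
        exact Sum.inl_injective (h3 k hk.2)
      · intro h3 k hk
        unfold rin
        rw [h3 k (by rw [hQ, mem_filter]; exact ⟨mem_univ _, hk⟩)]
    have hcard : ∀ B : Finset (Fin (2 * h)), (univ.filter (fun y' : Fin h → Fin (2 * h) =>
        ∀ k, y' k ∈ (if k ∈ Q then {y k} else B : Finset (Fin (2 * h))))).card =
        B.card ^ (h - Q.card) := by
      intro B
      have e1 : univ.filter (fun y' : Fin h → Fin (2 * h) =>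
        ∀ k, y' k ∈ (if k ∈ Q then {y k} else B : Finset (Fin (2 * h)))) =
        Fintype.piFinset (fun k => (if k ∈ Q then {y k} else B : Finset (Fin (2 * h)))) := by
        ext y'
        rw [mem_filter, Fintype.mem_piFinset]
        exact ⟨fun h => h.2, fun h => ⟨mem_univ _, h⟩⟩
      rw [e1, Fintype.card_piFinset]
      have e2 : ∀ k, (if k ∈ Q then {y k} else B : Finset (Fin (2 * h))).card =
          if k ∈ Q then 1 else B.card := by
        intro k
        split_ifs
        · exact card_singleton _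
        · rfl
      rw [prod_congr rfl (fun k _ => e2 k), prod_ite, prod_const_one, one_mul, prod_const]
      congr 1
      have e3 := card_filter_add_card_filter_not (s := (univ : Finset (Fin h))) (fun k => k ∈ Q)
      rw [card_univ, Fintype.card_fin] at e3
      have e4 : (univ.filter (fun k => k ∈ Q)).card = Q.card := by
        congr 1
        ext k
        simp
      omega
    have e1 : (univ.filter (fun y' : Fin h → Fin (2 * h) => Agr rin l y y')).card =
        (2 * h) ^ (h - Q.card) := by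
      have e2 := hcard univ
      rw [card_univ, Fintype.card_fin] at e2
      rw [← e2]
      congr 1
      ext y'
      rw [mem_filter, mem_filter, hagr]
      constructor
      · rintro ⟨-, h3⟩
        refine ⟨mem_univ _, fun k => ?_⟩
        by_cases hk : k ∈ Q
        · rw [if_pos hk, mem_singleton]
          exact h3 k hk
        · rw [if_neg hk]
          exact mem_univ _
      · rintro ⟨-, h3⟩
        refine ⟨mem_univ _, fun k hk => ?_⟩
        have := h3 k
        rw [if_pos hk, mem_singleton] at this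
        exact this
    have e2 : (univ.filter (fun y' : Fin h → Fin (2 * h) => Agr rin l y y' ∧
        ∀ o ∈ O, rf (rin y') o = rf (rin y) o)).card ≤ (2 * h - O.card) ^ (h - Q.card) := by
      have e3 := hcard (univ \ O)
      rw [card_sdiff_of_subset (subset_univ _), card_univ, Fintype.card_fin] at e3
      rw [← e3]
      apply card_le_card
      intro y' hy'
      rw [mem_filter, hagr] at hy'
      rw [mem_filter]
      refine ⟨mem_univ _, fun k => ?_⟩
      by_cases hk : k ∈ Q
      · rw [if_pos hk, mem_singleton]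
        exact hy'.2.1 k hk
      · rw [if_neg hk, mem_sdiff]
        refine ⟨mem_univ _, fun ho => ?_⟩
        have h4 := hy'.2.2 _ ho
        rw [h2' _ ho, rf_false] at h4
        exact h4 k rfl
    have hO : O.card ≤ 2 * h := by
      have := card_le_univ O
      rwa [Fintype.card_fin] at this
    rw [e1]
    calc 2 ^ (N₁ / 16) * _ ≤ 2 ^ (O.card / 16) * (2 * h - O.card) ^ (h - Q.card) := by
          apply Nat.mul_le_mul (Nat.pow_le_pow_right (by norm_num) (by omega))
          exact le_trans (card_inst _ _ _).le e2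
      _ ≤ (2 * h) ^ (h - Q.card) := arithR hh (by omega) hO

open Classical in
theorem range_count (hh : 128 ≤ h) (P : Prog (Fin h) (Fin (2 * h)) (RV h)) {T N₁ : ℕ}
    (hN₁ : 1 ≤ N₁) (hN : (T / (h / 128) + 1) * N₁ ≤ h) :
    (univ.filter (fun y : Fin h → Fin (2 * h) =>
      P.Computes (rin y) (rf (rin y)) T)).card * 2 ^ (N₁ / 16) ≤
      Fintype.card P.State * (T * (Fintype.card P.State) ^ 2 + 1) ^ 4 *
        Fintype.card (Fin h → Fin (2 * h)) := by
  have hub := union_bound P (rin (h := h)) rf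
    (fun y o => rf (rin y) o = .inr false)
    (fun _ => True) (a := h / 128) (N₀ := h) (N₁ := N₁) (T := T)
    (K := Fintype.card (Fin h → Fin (2 * h)) / 2 ^ (N₁ / 16))
    (by omega) hN₁ hN (fun y _ => by
      have h1 : univ \ (univ.image y) ⊆ univ.filter (fun o => rf (rin y) o = .inr false) := by
        intro o ho
        rw [mem_sdiff] at ho
        rw [mem_filter, rf_false]
        exact ⟨mem_univ _, fun i hi => ho.2 (mem_image.2 ⟨i, mem_univ _, hi⟩)⟩
      have h2 := card_le_card h1
      have h3 : (univ.image y).card ≤ h := by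
        have := card_image_le (s := (univ : Finset (Fin h))) (f := y)
        rwa [card_univ, Fintype.card_fin] at this
      rw [card_sdiff_of_subset (subset_univ _), card_univ, Fintype.card_fin] at h2
      have h4 : h ≤ 2 * h - (univ.image y).card := by omega
      exact (h4.trans h2).trans (card_inst _ _ _).le)
    (fun Rel hRel => by
      exact le_trans (card_inst _ _ _).le
        (range_proc (by omega) (a := h / 128) (N₁ := N₁) (by omega) hRel))
  simp only [true_and] at hub
  calc _ ≤ (Fintype.card P.State * (T * (Fintype.card P.State) ^ 2 + 1) ^ 4 *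
        (Fintype.card (Fin h → Fin (2 * h)) / 2 ^ (N₁ / 16))) *
        2 ^ (N₁ / 16) := Nat.mul_le_mul_right _ (le_trans (card_inst _ _ _).le hub)
    _ = Fintype.card P.State * (T * (Fintype.card P.State) ^ 2 + 1) ^ 4 *
        (Fintype.card (Fin h → Fin (2 * h)) / 2 ^ (N₁ / 16) * 2 ^ (N₁ / 16)) := by ring
    _ ≤ _ := Nat.mul_le_mul_left _ (Nat.div_mul_le_self _ _)

/-- **The range of a function**, for randomised programs with a stack. -/
theorem range_main (h T π s : ℕ) (R : Type) [Fintype R] [Nonempty R]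
    (P : R → Prog (Fin h) (Fin (2 * h)) (RV h))
    (hs : ∀ r, Fintype.card (P r).State ≤ s)
    (hc : Nat.card R * (2 * h) ^ h ≤ 2 ^ π * Nat.card {u : R × (Fin h → Fin (2 * h)) //
      (P u.1).Computes (rin u.2) (rf (rin u.2)) T}) :
    (h : ℝ) ^ 2 ≤ 2 ^ 18 * T * (Real.logb 2 s + π + 1) := by
  classical
  rcases Nat.eq_zero_or_pos h with h0 | hpos
  · subst h0
    have h1 : (1 : ℕ) ≤ s := by
      obtain ⟨r⟩ := (inferInstance : Nonempty R)
      exact le_trans (Fintype.card_pos_iff.2 ⟨(P r).start⟩) (hs r)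
    have h2 : 0 ≤ Real.logb 2 (s : ℝ) := Real.logb_nonneg (by norm_num) (by exact_mod_cast h1)
    have h3 : (0 : ℝ) ≤ π := Nat.cast_nonneg _
    simp only [Nat.cast_zero]
    rw [zero_pow (by norm_num)]
    positivity
  have hcardY : Nat.card (Fin h → Fin (2 * h)) = (2 * h) ^ h := by
    rw [Nat.card_eq_fintype_card, Fintype.card_fun, Fintype.card_fin, Fintype.card_fin]
  obtain ⟨r, hr⟩ := avg_exists (fun r (y : Fin h → Fin (2 * h)) =>
    (P r).Computes (rin y) (rf (rin y)) T) (2 ^ π) (by rw [hcardY]; exact hc)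
  rw [hcardY] at hr
  obtain ⟨y, hv⟩ : ∃ y : Fin h → Fin (2 * h), (P r).Computes (rin y) (rf (rin y)) T := by
    by_contra hcon
    push Not at hcon
    have h1 : Nat.card {y : Fin h → Fin (2 * h) // (P r).Computes (rin y) (rf (rin y)) T} = 0 := by
      rw [Nat.card_eq_zero]
      left
      exact ⟨fun v => hcon v.1 v.2⟩
    rw [h1, mul_zero] at hr
    have h2 : 0 < (2 * h) ^ h := by positivity
    omega
  obtain ⟨s₀, hs₀⟩ : ∃ s₀, s₀ = Fintype.card (P r).State := ⟨_, rfl⟩
  have hs₀' : s₀ ≤ s := by rw [hs₀]; exact hs r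
  have hns : 2 * h ≤ s := by
    have h1 := hv.card_le
    rw [Fintype.card_fin] at h1
    exact h1.trans (hs r)
  have hT : 2 * h ≤ T := by
    have h1 := hv.card_le'
    rwa [Fintype.card_fin] at h1
  have hs1 : 1 ≤ s := by omega
  obtain ⟨L, hL⟩ : ∃ L, L = Real.logb 2 (s : ℝ) := ⟨_, rfl⟩
  have hL0 : 0 ≤ L := by rw [hL]; exact Real.logb_nonneg (by norm_num) (by exact_mod_cast hs1)
  have hT0 : (0 : ℝ) ≤ T := Nat.cast_nonneg _
  have hπ0 : (0 : ℝ) ≤ π := Nat.cast_nonneg _
  have easy : h ^ 2 ≤ 2 ^ 18 * T → (h : ℝ) ^ 2 ≤ 2 ^ 18 * T * (Real.logb 2 s + π + 1) := by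
    intro h1
    rw [← hL]
    have h2 : (h : ℝ) ^ 2 ≤ 2 ^ 18 * T := by exact_mod_cast h1
    calc (h : ℝ) ^ 2 ≤ 2 ^ 18 * T * 1 := by rw [mul_one]; exact h2
      _ ≤ _ := mul_le_mul_of_nonneg_left (by linarith) (by positivity)
  by_cases h128 : 128 ≤ h
  swap
  · apply easy
    calc h ^ 2 = h * h := by ring
      _ ≤ 128 * T := Nat.mul_le_mul (by omega) (by omega)
      _ ≤ _ := Nat.mul_le_mul_right _ (by norm_num)
  by_cases hT2 : T < h ^ 2 * 1
  swap
  · apply easy
    push Not at hT2
    omega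
  obtain ⟨a, ha⟩ : ∃ a, a = h / 128 := ⟨_, rfl⟩
  obtain ⟨N, hN⟩ : ∃ N, N = (h * 1) / (T / a + 1) := ⟨_, rfl⟩
  have hmain : 2 ^ (N / 16) ≤ 2 ^ π * (s * (T * s ^ 2 + 1) ^ 4) := by
    rcases Nat.eq_zero_or_pos N with hN0 | hN1
    · rw [hN0, Nat.zero_div, pow_zero]
      have h2 : 1 ≤ (T * s ^ 2 + 1) ^ 4 := Nat.one_le_pow _ _ (Nat.succ_pos _)
      have h3 : 1 ≤ 2 ^ π := Nat.one_le_two_pow
      calc 1 = 1 * (1 * 1) := by norm_num
        _ ≤ _ := Nat.mul_le_mul h3 (Nat.mul_le_mul hs1 h2)
    · have h1 := range_count h128 (P r) (T := T) (N₁ := N) hN1 (by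
        rw [← ha, hN, mul_one]
        exact Nat.mul_div_le _ _)
      rw [← hs₀, ← Nat.card_eq_fintype_card (α := Fin h → Fin (2 * h)), hcardY] at h1
      rw [Nat.card_eq_fintype_card, Fintype.card_subtype] at hr
      have h3 : 0 < (2 * h) ^ h := by positivity
      refine Nat.le_of_mul_le_mul_left ?_ h3
      calc (2 * h) ^ h * 2 ^ (N / 16) ≤ (2 ^ π * _) * 2 ^ (N / 16) := Nat.mul_le_mul_right _ hr
        _ = 2 ^ π * (_ * 2 ^ (N / 16)) := by rw [mul_assoc]
        _ ≤ 2 ^ π * _ := Nat.mul_le_mul_left _ h1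
        _ ≤ 2 ^ π * (s * (T * s ^ 2 + 1) ^ 4 * (2 * h) ^ h) := by
            apply Nat.mul_le_mul_left
            apply Nat.mul_le_mul_right
            apply Nat.mul_le_mul hs₀'
            apply Nat.pow_le_pow_left
            apply Nat.succ_le_succ
            exact Nat.mul_le_mul_left _ (Nat.pow_le_pow_left hs₀' 2)
        _ = _ := by ring
  have hfin := final_arith (n := h) (m := 1) (T := T) (s := s) (q := 2) (π := π) (N := N)
    (a := a) h128 le_rfl (by omega) (by omega) hT2 ha hN hmain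
  have e1 : Real.logb 2 ((2 : ℕ) : ℝ) = 1 := by
    push_cast
    exact Real.logb_self_eq_one (by norm_num)
  rw [e1] at hfin
  push_cast at hfin
  linarith

end Pool.Agent.W896.MO
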