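import Pool.Agent.W896.MO.OVOut

/-!
# 3SUM with outputs, on programs with a stack
-/

set_option autoImplicit false
set_option maxHeartbeats 1000000

open Finset

namespace Pool.Agent.W896.MO

/-- `n` different integers in `[-n ^ 4, n ^ 4]`. -/
def ValidS {n : ℕ} (x : Fin n → ℤ) : Prop :=
  (∀ i, |x i| ≤ (n : ℤ) ^ 4) ∧ Function.Injective x

open Classical in
/-- For each number: is it in a solution? -/
noncomputable def s3Out {n : ℕ} (x : Fin n → ℤ) (i : Fin n) : ℤ :=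
  if ∃ j k : Fin n, i ≠ j ∧ i ≠ k ∧ j ≠ k ∧ x i + x j + x k = 0 then 1 else 0

/-- The numbers; `t` is the value of the function at `k`. -/
def nmb (h t k : ℕ) : ℤ :=
  if k < h then 8 * (h : ℤ) ^ 2 + t * h + k else
  if k < 2 * h then 24 * (h : ℤ) ^ 2 - (k - h) else
  if k < 4 * h then -32 * (h : ℤ) ^ 2 - (k - 2 * h) * h else 128 * (h : ℤ) ^ 2 + k

/-- How a number is read. -/
def rdS {h n : ℕ} (i₀ : Fin h) (k : Fin n) : Fin h × (RV h → ℤ) :=
  (if hi : k.val < h then ⟨k.val, hi⟩ else i₀,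
    fun u => nmb h (match u with | .inl t => t.val | .inr _ => 0) k.val)

/-- The instance. -/
def insS {h n : ℕ} (i₀ : Fin h) (y : Fin h → Fin (2 * h)) : Fin n → ℤ :=
  fun k => (rdS i₀ k).2 (rin y (rdS i₀ k).1)

section

variable {h n : ℕ} (i₀ : Fin h) (y : Fin h → Fin (2 * h))

theorem clsS (k : Fin n) :
    (∃ hk : k.val < h, insS i₀ y k = 8 * (h : ℤ) ^ 2 + ((y ⟨k.val, hk⟩).val : ℤ) * h + k.val) ∨
    (h ≤ k.val ∧ k.val < 2 * h ∧ insS i₀ y k = 24 * (h : ℤ) ^ 2 - ((k.val : ℤ) - h)) ∨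
    (2 * h ≤ k.val ∧ k.val < 4 * h ∧
      insS i₀ y k = -32 * (h : ℤ) ^ 2 - ((k.val : ℤ) - 2 * h) * h) ∨
    (4 * h ≤ k.val ∧ insS i₀ y k = 128 * (h : ℤ) ^ 2 + k.val) := by
  unfold insS rdS rin nmb
  by_cases h1 : k.val < h
  · left
    refine ⟨h1, ?_⟩
    simp only [h1, dif_pos, if_true]
  by_cases h2 : k.val < 2 * h
  · right; left
    refine ⟨by omega, h2, ?_⟩
    simp only [h1, h2, if_false, if_true]
  by_cases h3 : k.val < 4 * h
  · right; right; left
    refine ⟨by omega, h3, ?_⟩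
    simp only [h1, h2, h3, if_false, if_true]
  · right; right; right
    refine ⟨by omega, ?_⟩
    simp only [h1, h2, h3, if_false]

/-- The classification with bounds, for linear arithmetic. -/
theorem clsB (k : Fin n) {H : ℤ} (hH : H = (h : ℤ) ^ 2) :
    (k.val < h ∧ 8 * H + k.val ≤ insS i₀ y k ∧ insS i₀ y k ≤ 10 * H - h + k.val) ∨
    (h ≤ k.val ∧ k.val < 2 * h ∧ insS i₀ y k = 24 * H - ((k.val : ℤ) - h)) ∨
    (2 * h ≤ k.val ∧ k.val < 4 * h ∧ -34 * H + h ≤ insS i₀ y k ∧ insS i₀ y k ≤ -32 * H) ∨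
    (4 * h ≤ k.val ∧ insS i₀ y k = 128 * H + k.val) := by
  have hh0 : (0 : ℤ) ≤ h := Int.natCast_nonneg _
  rcases clsS i₀ y k with ⟨hk, e⟩ | ⟨h1, h2, e⟩ | ⟨h1, h2, e⟩ | ⟨h1, e⟩
  · left
    have h3 : ((y ⟨k.val, hk⟩).val : ℤ) ≤ 2 * h - 1 := by
      have := (y ⟨k.val, hk⟩).isLt
      omega
    have h4 : (0 : ℤ) ≤ ((y ⟨k.val, hk⟩).val : ℤ) * h := by positivity
    have h5 : ((y ⟨k.val, hk⟩).val : ℤ) * h ≤ (2 * h - 1) * h := mul_le_mul_of_nonneg_right h3 hh0
    have h6 : ((2 : ℤ) * h - 1) * h = 2 * H - h := by rw [hH]; ring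
    refine ⟨hk, ?_, ?_⟩
    · rw [e, ← hH]; linarith
    · rw [e, ← hH]; linarith
  · right; left
    exact ⟨h1, h2, by rw [e, hH]⟩
  · right; right; left
    have h3 : ((k.val : ℤ) - 2 * h) ≤ 2 * h - 1 := by omega
    have h4 : (0 : ℤ) ≤ ((k.val : ℤ) - 2 * h) * h := mul_nonneg (by omega) hh0
    have h5 : ((k.val : ℤ) - 2 * h) * h ≤ (2 * h - 1) * h := mul_le_mul_of_nonneg_right h3 hh0
    have h6 : ((2 : ℤ) * h - 1) * h = 2 * H - h := by rw [hH]; ring
    refine ⟨h1, h2, ?_, ?_⟩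
    · rw [e, ← hH]; linarith
    · rw [e, ← hH]; linarith
  · right; right; right
    exact ⟨h1, by rw [e, hH]⟩

theorem mul_sub_lt {h : ℕ} {a b c : ℤ} (hc1 : -(h : ℤ) < c) (hc2 : c < h)
    (he : (a - b) * h + c = 0) : a = b ∧ c = 0 := by
  have hh : (0 : ℤ) ≤ h := Int.natCast_nonneg _
  have hab : a = b := by
    rcases lt_trichotomy a b with h1 | h1 | h1
    · exfalso
      have h2 : (a - b) * h ≤ (-1) * h := mul_le_mul_of_nonneg_right (by omega) hh
      linarith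
    · exact h1
    · exfalso
      have h2 : 1 * (h : ℤ) ≤ (a - b) * h := mul_le_mul_of_nonneg_right (by omega) hh
      linarith
  refine ⟨hab, ?_⟩
  rw [hab, sub_self, zero_mul, zero_add] at he
  exact he

theorem sol_iff (hpos : 0 < h) (hn : 4 * h ≤ n) (j : Fin n) (hj1 : 2 * h ≤ j.val)
    (hj2 : j.val < 4 * h) :
    (∃ p q : Fin n, j ≠ p ∧ j ≠ q ∧ p ≠ q ∧ insS i₀ y j + insS i₀ y p + insS i₀ y q = 0) ↔
      ∃ i : Fin h, (y i).val = j.val - 2 * h := by
  obtain ⟨H, hH⟩ : ∃ H : ℤ, H = (h : ℤ) ^ 2 := ⟨_, rfl⟩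
  have hH1 : (h : ℤ) ≤ H := by
    rw [hH, sq]
    have : (1 : ℤ) ≤ h := by exact_mod_cast hpos
    nlinarith
  have hh1 : (1 : ℤ) ≤ h := by exact_mod_cast hpos
  have ej : insS i₀ y j = -32 * H - ((j.val : ℤ) - 2 * h) * h := by
    rcases clsS i₀ y j with ⟨hk, -⟩ | ⟨-, h2, -⟩ | ⟨-, -, e⟩ | ⟨h1, -⟩
    · omega
    · omega
    · rw [e, hH]
    · omega
  have bj : -34 * H + h ≤ insS i₀ y j ∧ insS i₀ y j ≤ -32 * H := by
    rcases clsB i₀ y j hH with ⟨h1, -⟩ | ⟨-, h2, -⟩ | ⟨-, -, e⟩ | ⟨h1, -⟩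
    · omega
    · omega
    · exact e
    · omega
  have main : ∀ p q : Fin n, (hp : p.val < h) → h ≤ q.val → q.val < 2 * h →
      insS i₀ y j + insS i₀ y p + insS i₀ y q = 0 → ∃ i : Fin h, (y i).val = j.val - 2 * h := by
    intro p q hp hq1 hq2 hs
    refine ⟨⟨p.val, hp⟩, ?_⟩
    have ep : insS i₀ y p = 8 * H + ((y ⟨p.val, hp⟩).val : ℤ) * h + p.val := by
      rcases clsS i₀ y p with ⟨hk, e⟩ | ⟨h2, -, -⟩ | ⟨h2, -, -⟩ | ⟨h1, -⟩
      · rw [e, hH]
      · omega
      · omega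
      · omega
    have eq : insS i₀ y q = 24 * H - ((q.val : ℤ) - h) := by
      rcases clsS i₀ y q with ⟨hk, -⟩ | ⟨-, -, e⟩ | ⟨h2, -, -⟩ | ⟨h1, -⟩
      · omega
      · rw [e, hH]
      · omega
      · omega
    rw [ej, ep, eq] at hs
    obtain ⟨h1, -⟩ := mul_sub_lt (h := h) (a := ((y ⟨p.val, hp⟩).val : ℤ))
      (b := (j.val : ℤ) - 2 * h) (c := (p.val : ℤ) - ((q.val : ℤ) - h)) (by omega) (by omega)
      (by linarith)
    omega
  constructor
  · rintro ⟨p, q, hjp, hjq, hpq, hs⟩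
    have hs' : insS i₀ y j + insS i₀ y q + insS i₀ y p = 0 := by linarith
    rcases clsB i₀ y p hH with ⟨a1, a2, a3⟩ | ⟨a1, a2, a3⟩ | ⟨a1, a2, a3, a4⟩ | ⟨a1, a2⟩ <;>
    rcases clsB i₀ y q hH with ⟨b1, b2, b3⟩ | ⟨b1, b2, b3⟩ | ⟨b1, b2, b3, b4⟩ | ⟨b1, b2⟩ <;>
    first
    | exact main p q a1 b1 b2 hs
    | exact main q p b1 a1 a2 hs'
    | (exfalso; omega)
  · rintro ⟨i, hi⟩
    have hil := i.isLt
    refine ⟨⟨i.val, by omega⟩, ⟨h + i.val, by omega⟩, ?_, ?_, ?_, ?_⟩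
    · intro h1; have := congrArg Fin.val h1; simp only at this; omega
    · intro h1; have := congrArg Fin.val h1; simp only at this; omega
    · intro h1; have := congrArg Fin.val h1; simp only at this; omega
    · have ep : insS (n := n) i₀ y ⟨i.val, by omega⟩ = 8 * H + ((y i).val : ℤ) * h + i.val := by
        rcases clsS (n := n) i₀ y ⟨i.val, by omega⟩ with ⟨hk, e⟩ | ⟨h2, -, -⟩ | ⟨h2, -, -⟩ | ⟨h1, -⟩
        · rw [e, hH]
        · simp only at h2; omega
        · simp only at h2; omega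
        · simp only at h1; omega
      have eq : insS (n := n) i₀ y ⟨h + i.val, by omega⟩ = 24 * H - (i.val : ℤ) := by
        rcases clsS (n := n) i₀ y ⟨h + i.val, by omega⟩ with
          ⟨hk, -⟩ | ⟨-, -, e⟩ | ⟨h2, -, -⟩ | ⟨h1, -⟩
        · simp only at hk; omega
        · rw [e, ← hH]
          push_cast
          ring
        · simp only at h2; omega
        · simp only at h1; omega
      rw [ej, ep, eq, hi]
      have e1 : ((j.val - 2 * h : ℕ) : ℤ) = (j.val : ℤ) - 2 * h := by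
        rw [Nat.cast_sub hj1]; push_cast; ring
      rw [e1]
      ring

theorem validS (hpos : 0 < h) (hn1 : 4 * h ≤ n) (hn2 : n ≤ 4 * h + 3) :
    ValidS (insS (n := n) i₀ y) := by
  obtain ⟨H, hH⟩ : ∃ H : ℤ, H = (h : ℤ) ^ 2 := ⟨_, rfl⟩
  have hH1 : (h : ℤ) ≤ H := by
    rw [hH, sq]
    have : (1 : ℤ) ≤ h := by exact_mod_cast hpos
    nlinarith
  have hh1 : (1 : ℤ) ≤ h := by exact_mod_cast hpos
  have hn4 : 132 * H + 4 ≤ (n : ℤ) ^ 4 := by
    have h1 : (4 : ℤ) * h ≤ n := by exact_mod_cast hn1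
    have h2 : ((4 : ℤ) * h) ^ 4 ≤ (n : ℤ) ^ 4 := pow_le_pow_left₀ (by positivity) h1 4
    have h3 : ((4 : ℤ) * h) ^ 4 = 256 * (H * H) := by rw [hH]; ring
    have h4 : H ≤ H * H := by nlinarith
    nlinarith
  constructor
  · intro k
    have hk := k.isLt
    refine le_trans ?_ hn4
    rw [abs_le]
    rcases clsB i₀ y k hH with ⟨a1, a2, a3⟩ | ⟨a1, a2, a3⟩ | ⟨a1, a2, a3, a4⟩ | ⟨a1, a2⟩
    · constructor <;> omega
    · constructor <;> omega
    · constructor <;> omega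
    · constructor <;> omega
  · intro k k' he
    have hk := k.isLt
    have hk' := k'.isLt
    rcases clsB i₀ y k hH with ⟨a1, a2, a3⟩ | ⟨a1, a2, a3⟩ | ⟨a1, a2, a3, a4⟩ | ⟨a1, a2⟩ <;>
    rcases clsB i₀ y k' hH with ⟨b1, b2, b3⟩ | ⟨b1, b2, b3⟩ | ⟨b1, b2, b3, b4⟩ | ⟨b1, b2⟩
    · rcases clsS i₀ y k with ⟨c1, c2⟩ | ⟨c1, -, -⟩ | ⟨c1, -, -⟩ | ⟨c1, -⟩
      · rcases clsS i₀ y k' with ⟨d1, d2⟩ | ⟨d1, -, -⟩ | ⟨d1, -, -⟩ | ⟨d1, -⟩
        · rw [c2, d2] at he
          obtain ⟨-, h2⟩ := mul_sub_lt (h := h) (a := ((y ⟨k.val, c1⟩).val : ℤ))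
            (b := ((y ⟨k'.val, d1⟩).val : ℤ)) (c := (k.val : ℤ) - k'.val) (by omega) (by omega)
            (by linarith)
          exact Fin.ext (by omega)
        · omega
        · omega
        · omega
      · omega
      · omega
      · omega
    · exfalso; omega
    · exfalso; omega
    · exfalso; omega
    · exfalso; omega
    · exact Fin.ext (by omega)
    · exfalso; omega
    · exfalso; omega
    · exfalso; omega
    · exfalso; omega
    · rcases clsS i₀ y k with ⟨c1, -⟩ | ⟨-, c1, -⟩ | ⟨-, -, c2⟩ | ⟨c1, -⟩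
      · omega
      · omega
      · rcases clsS i₀ y k' with ⟨d1, -⟩ | ⟨-, d1, -⟩ | ⟨-, -, d2⟩ | ⟨d1, -⟩
        · omega
        · omega
        · rw [c2, d2] at he
          obtain ⟨h2, -⟩ := mul_sub_lt (h := h) (a := (k.val : ℤ) - 2 * h)
            (b := (k'.val : ℤ) - 2 * h) (c := 0) (by omega) (by omega) (by linarith)
          exact Fin.ext (by omega)
        · omega
      · omega
    · exfalso; omega
    · exfalso; omega
    · exfalso; omega
    · exfalso; omega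
    · exact Fin.ext (by omega)

end

/-- **3SUM with outputs.** -/
theorem s3_out (n T π s : ℕ) (R : Type) [Fintype R] [Nonempty R]
    (P : R → Prog (Fin n) (Fin n) ℤ)
    (hs : ∀ r, Fintype.card (P r).State ≤ s)
    (hc : ∀ x : Fin n → ℤ, ValidS x →
      Nat.card R ≤ 2 ^ π * Nat.card {r // (P r).Computes x (s3Out x) T}) :
    (n : ℝ) ^ 2 ≤ 2 ^ 24 * T * (Real.logb 2 s + π + 1) := by
  classical
  obtain ⟨r₀⟩ := (inferInstance : Nonempty R)
  have hs1 : 1 ≤ s := le_trans (Fintype.card_pos_iff.2 ⟨(P r₀).start⟩) (hs r₀)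
  have hL0 : 0 ≤ Real.logb 2 (s : ℝ) := Real.logb_nonneg (by norm_num) (by exact_mod_cast hs1)
  have hπ0 : (0 : ℝ) ≤ π := Nat.cast_nonneg _
  have hT0 : (0 : ℝ) ≤ T := Nat.cast_nonneg _
  obtain ⟨h, hh⟩ : ∃ h, h = n / 4 := ⟨_, rfl⟩
  rcases Nat.eq_zero_or_pos h with h0 | hpos
  · have hN1 : n ≤ 3 := by omega
    obtain ⟨x₀, hx₀⟩ : ∃ x₀ : Fin n → ℤ, x₀ = fun i => (i.val : ℤ) := ⟨_, rfl⟩
    have hv : ValidS x₀ := by
      constructor
      · intro i
        simp only [hx₀]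
        have hi := i.isLt
        have h1 : (n : ℤ) ≤ (n : ℤ) ^ 4 := by
          have : n ≤ n ^ 4 := Nat.le_self_pow (by norm_num) n
          exact_mod_cast this
        rw [abs_of_nonneg (by positivity)]
        omega
      · intro i j hij
        simp only [hx₀] at hij
        exact Fin.ext (by exact_mod_cast hij)
    have h1 := hc _ hv
    have h2 : 0 < Nat.card {r // (P r).Computes x₀ (s3Out x₀) T} := by
      by_contra hcon
      have h3 : Nat.card {r // (P r).Computes x₀ (s3Out x₀) T} = 0 := by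
        omega
      rw [h3, mul_zero] at h1
      have : 0 < Nat.card R := Nat.card_pos
      omega
    obtain ⟨⟨r, hr⟩⟩ := (Nat.card_pos_iff.1 h2).1
    have h4 := hr.card_le'
    rw [Fintype.card_fin] at h4
    have h5 : (n : ℝ) ≤ T := by exact_mod_cast h4
    have h6 : (n : ℝ) ≤ 3 := by exact_mod_cast hN1
    have h7 : (0 : ℝ) ≤ n := Nat.cast_nonneg _
    calc (n : ℝ) ^ 2 = n * n := by ring
      _ ≤ 3 * T := mul_le_mul h6 h5 h7 (by norm_num)
      _ = (3 * T) * 1 := by ring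
      _ ≤ (2 ^ 24 * T) * (Real.logb 2 s + π + 1) := by
          apply mul_le_mul _ (by linarith) (by norm_num) (by positivity)
          linarith
  have h4n : 4 * h ≤ n := by omega
  have hn3 : n ≤ 4 * h + 3 := by omega
  obtain ⟨i₀, -⟩ : ∃ i₀ : Fin h, i₀.val = 0 := ⟨⟨0, hpos⟩, rfl⟩
  obtain ⟨wr, hwr⟩ : ∃ wr : Fin n → Option (Fin (2 * h)), ∀ j, wr j =
    if hj : 2 * h ≤ j.val ∧ j.val < 4 * h then some ⟨j.val - 2 * h, by omega⟩ else none :=
      ⟨_, fun _ => rfl⟩
  have hmain := range_main h T π s R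
    (fun r => (P r).tr (rdS i₀) wr (fun v => Sum.inr (decide (v = 1))) i₀) (fun r => hs r) (by
      have h1 := sum_up (fun r (y : Fin h → Fin (2 * h)) =>
        ((P r).tr (rdS i₀) wr (fun v => Sum.inr (decide (v = 1))) i₀).Computes (rin y)
          (rf (rin y)) T)
        (2 ^ π) (fun y => by
          refine (hc _ (validS i₀ y hpos h4n hn3)).trans (Nat.mul_le_mul_left _ ?_)
          refine Nat.card_le_card_of_injective (fun r => ⟨r.1, ?_⟩) ?_
          · refine r.2.tr (fun v => rfl) ?_ ?_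
            · intro o o' ho
              rw [hwr] at ho
              split_ifs at ho with hj
              rw [Option.some.injEq] at ho
              unfold rf rin s3Out
              congr 1
              apply decide_eq_decide.2
              have hiff := sol_iff i₀ y hpos h4n o hj.1 hj.2
              constructor
              · intro h2
                have h3 : ∃ p q : Fin n, o ≠ p ∧ o ≠ q ∧ p ≠ q ∧
                    insS i₀ y o + insS i₀ y p + insS i₀ y q = 0 := by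
                  by_contra hcon
                  rw [if_neg hcon] at h2
                  exact absurd h2 (by norm_num)
                obtain ⟨i, hi⟩ := hiff.1 h3
                refine ⟨i, ?_⟩
                rw [Sum.inl.injEq, ← ho, Fin.ext_iff]
                exact hi
              · rintro ⟨i, hi⟩
                rw [Sum.inl.injEq, ← ho, Fin.ext_iff] at hi
                rw [if_pos (hiff.2 ⟨i, hi⟩)]
            · intro o'
              have h1 := o'.isLt
              refine ⟨⟨2 * h + o'.val, by omega⟩, ?_⟩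
              rw [hwr]
              have h2 : 2 * h ≤ 2 * h + o'.val ∧ 2 * h + o'.val < 4 * h := by omega
              simp only [h2, and_self, dif_pos, Option.some.injEq]
              exact Fin.ext (by simp)
          · intro r r' hrr
            have h5 := congrArg Subtype.val hrr
            simp only at h5
            exact Subtype.ext h5)
      have h2 : Nat.card (Fin h → Fin (2 * h)) = (2 * h) ^ h := by
        rw [Nat.card_eq_fintype_card, Fintype.card_fun, Fintype.card_fin, Fintype.card_fin]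
      rw [h2] at h1
      exact h1)
  have h9 : (n : ℝ) ^ 2 ≤ 49 * (h : ℝ) ^ 2 := by
    have h1 : n ^ 2 ≤ 49 * h ^ 2 := by
      calc n ^ 2 ≤ (7 * h) ^ 2 := Nat.pow_le_pow_left (by omega) 2
        _ = _ := by ring
    exact_mod_cast h1
  calc (n : ℝ) ^ 2 ≤ 49 * (h : ℝ) ^ 2 := h9
    _ ≤ 49 * (2 ^ 18 * T * (Real.logb 2 s + π + 1)) :=
        mul_le_mul_of_nonneg_left hmain (by norm_num)
    _ = (49 * 2 ^ 18) * (T * (Real.logb 2 s + π + 1)) := by ring
    _ ≤ 2 ^ 24 * (T * (Real.logb 2 s + π + 1)) := by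
        apply mul_le_mul_of_nonneg_right (by norm_num)
        positivity
    _ = _ := by ring

end Pool.Agent.W896.MO
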