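import Pool.Agent.W896.MO.LinCount

/-!
# Most Toeplitz matrices are hard
-/

set_option autoImplicit false
set_option maxHeartbeats 1000000

open Finset

namespace Pool.Agent.W896.MO

variable {F : Type} [Field F] [Fintype F] [DecidableEq F] {n h : ℕ}

/-- The index of the entry `(o, k)` of the Toeplitz matrix. -/
def tix (hn : 2 * h ≤ n) (o k : Fin h) : Fin n :=
  ⟨o.val + (h - 1 - k.val), by have := o.isLt; have := k.isLt; omega⟩

/-- The Toeplitz matrix of a seed. -/
def toep (hn : 2 * h ≤ n) (a : Fin n → F) : Fin h → Fin h → F := fun o k => a (tix hn o k)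

open Classical in
/-- The number of the seeds for which a given combination of the rows vanishes outside `Q`. -/
theorem seed_count (hn : 2 * h ≤ n) (w : Fin h → F) (hw : w ≠ 0) (Q : Finset (Fin h)) :
    (univ.filter (fun a : Fin n → F => ∀ k, k ∉ Q → ∑ o, w o * toep hn a o k = 0)).card *
      Fintype.card F ^ (h - Q.card) ≤ Fintype.card F ^ n := by
  obtain ⟨o₀, ho₀, hmax⟩ : ∃ o₀, w o₀ ≠ 0 ∧ ∀ o, w o ≠ 0 → o ≤ o₀ := by
    have hne : (univ.filter (fun o => w o ≠ 0)).Nonempty := by
      obtain ⟨o, ho⟩ := Function.ne_iff.1 hw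
      exact ⟨o, mem_filter.2 ⟨mem_univ _, ho⟩⟩
    refine ⟨(univ.filter (fun o => w o ≠ 0)).max' hne, ?_, ?_⟩
    · exact (mem_filter.1 (max'_mem _ hne)).2
    · intro o ho
      exact le_max' (univ.filter (fun o => w o ≠ 0)) o (mem_filter.2 ⟨mem_univ o, ho⟩)
  obtain ⟨P, hP⟩ : ∃ P : Finset (Fin n), P = (univ.filter (fun k => k ∉ Q)).image (tix hn o₀) :=
    ⟨_, rfl⟩
  have hinj : Function.Injective (tix hn o₀) := by
    intro k k' hk
    have h1 := congrArg Fin.val hk
    unfold tix at h1
    simp only at h1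
    have := k.isLt
    have := k'.isLt
    exact Fin.ext (by omega)
  have hPc : P.card = h - Q.card := by
    rw [hP, card_image_of_injective _ hinj]
    have h1 := card_filter_add_card_filter_not (s := (univ : Finset (Fin h))) (fun k => k ∈ Q)
    rw [card_univ, Fintype.card_fin, filter_mem_eq_inter, univ_inter] at h1
    omega
  have hPn : h - Q.card ≤ n := by omega
  have h1 : (univ.filter (fun a : Fin n → F => ∀ k, k ∉ Q → ∑ o, w o * toep hn a o k = 0)).card ≤
      Fintype.card F ^ (n - (h - Q.card)) := by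
    have h2 : Fintype.card ({j : Fin n // j ∉ P} → F) = Fintype.card F ^ (n - (h - Q.card)) := by
      rw [Fintype.card_fun, Fintype.card_subtype_compl, Fintype.card_fin, Fintype.card_coe, hPc]
    rw [← h2, ← Fintype.card_coe]
    refine Fintype.card_le_of_injective (fun a j => a.1 j.1) ?_
    rintro ⟨a, ha⟩ ⟨b, hb⟩ hab
    rw [mem_filter] at ha hb
    apply Subtype.ext
    have key : ∀ N : ℕ, ∀ j : Fin n, j.val < N → a j = b j := by
      intro N
      induction N with
      | zero => intro j hj; omega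
      | succ N ih =>
        intro j hj
        by_cases hjP : j ∈ P
        · rw [hP, mem_image] at hjP
          obtain ⟨k, hk, rfl⟩ := hjP
          rw [mem_filter] at hk
          have e1 := ha.2 k hk.2
          have e2 := hb.2 k hk.2
          rw [← add_sum_erase univ _ (mem_univ o₀)] at e1 e2
          have e3 : ∑ o ∈ univ.erase o₀, w o * toep hn a o k =
              ∑ o ∈ univ.erase o₀, w o * toep hn b o k := by
            refine sum_congr rfl (fun o ho => ?_)
            by_cases hwo : w o = 0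
            · rw [hwo, zero_mul, zero_mul]
            · have h3 := hmax o hwo
              have h4 : o.val < o₀.val :=
                lt_of_le_of_ne h3 (fun h => (mem_erase.1 ho).1 (Fin.ext h))
              congr 1
              apply ih
              have h5 : (tix hn o₀ k).val = o₀.val + (h - 1 - k.val) := rfl
              have h6 : (tix hn o k).val = o.val + (h - 1 - k.val) := rfl
              rw [h5] at hj
              rw [h6]
              omega
          rw [e3] at e1
          have e4 : w o₀ * toep hn a o₀ k = w o₀ * toep hn b o₀ k := by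
            have := e1.trans e2.symm
            exact add_right_cancel this
          exact mul_left_cancel₀ ho₀ e4
        · exact congrFun hab ⟨j, hjP⟩
    funext j
    exact key _ j (Nat.lt_succ_self _)
  calc _ ≤ Fintype.card F ^ (n - (h - Q.card)) * Fintype.card F ^ (h - Q.card) :=
        Nat.mul_le_mul_right _ h1
    _ = Fintype.card F ^ n := by rw [← pow_add]; congr 1; omega

theorem pow9 (n : ℕ) : 9 ^ n ≤ 2 ^ (n / 5 + 1) * 8 ^ n := by
  obtain ⟨a, b, hb, rfl⟩ : ∃ a b, b < 5 ∧ n = 5 * a + b := ⟨n / 5, n % 5, Nat.mod_lt _ (by norm_num),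
    by omega⟩
  have e : (5 * a + b) / 5 = a := by omega
  rw [e]
  have h1 : 9 ^ (5 * a) ≤ 2 ^ a * 8 ^ (5 * a) := by
    rw [pow_mul, pow_mul, ← mul_pow]
    exact Nat.pow_le_pow_left (by norm_num) a
  have h2 : 9 ^ b ≤ 2 * 8 ^ b := by
    interval_cases b <;> norm_num
  calc 9 ^ (5 * a + b) = 9 ^ (5 * a) * 9 ^ b := pow_add _ _ _
    _ ≤ (2 ^ a * 8 ^ (5 * a)) * (2 * 8 ^ b) := Nat.mul_le_mul h1 h2
    _ = 2 ^ (a + 1) * 8 ^ (5 * a + b) := by rw [pow_add, pow_add]; ring

theorem few16 (n : ℕ) :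
    ((univ : Finset (Finset (Fin n))).filter (fun S => S.card ≤ (n + 15) / 16)).card ≤
      2 ^ (n / 5 + 1 + 3 * ((n + 15) / 16)) := by
  rcases Nat.eq_zero_or_pos n with hn | hn
  · subst hn
    calc _ ≤ (univ : Finset (Finset (Fin 0))).card := card_filter_le _ _
      _ = 1 := rfl
      _ ≤ _ := by norm_num
  have hle : (n + 15) / 16 ≤ n := by omega
  have h1 : ((univ : Finset (Finset (Fin n))).filter (fun S => S.card ≤ (n + 15) / 16)).card *
      8 ^ (n - (n + 15) / 16) ≤ 9 ^ n := by
    have h2 := Finset.sum_pow_mul_eq_add_pow (1 : ℕ) 8 (univ : Finset (Fin n))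
    rw [card_univ, Fintype.card_fin] at h2
    have h3 : (1 + 8 : ℕ) = 9 := by norm_num
    rw [h3] at h2
    rw [← h2, ← smul_eq_mul, ← sum_const]
    calc ∑ _S ∈ (univ : Finset (Finset (Fin n))).filter (fun S => S.card ≤ (n + 15) / 16),
        8 ^ (n - (n + 15) / 16) ≤ ∑ S ∈ (univ : Finset (Finset (Fin n))).filter
          (fun S => S.card ≤ (n + 15) / 16), 1 ^ S.card * 8 ^ (n - S.card) := by
          apply sum_le_sum
          intro S hS
          rw [mem_filter] at hS
          rw [one_pow, one_mul]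
          apply Nat.pow_le_pow_right (by norm_num)
          have := hS.2
          omega
      _ ≤ _ := by
          apply sum_le_sum_of_subset
          intro S _
          exact mem_powerset.2 (subset_univ _)
  have h2 := pow9 n
  have h3 : 2 ^ (n / 5 + 1) * 8 ^ n =
      2 ^ (n / 5 + 1 + 3 * ((n + 15) / 16)) * 8 ^ (n - (n + 15) / 16) := by
    have e1 : (8 : ℕ) = 2 ^ 3 := by norm_num
    rw [e1, ← pow_mul, ← pow_mul, ← pow_add, ← pow_add]
    congr 1
    omega
  exact Nat.le_of_mul_le_mul_right (h1.trans (h2.trans h3.le)) (by positivity)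

/-- A bad matrix has a vanishing combination of few rows. -/
theorem short_comb (M : Fin n → Fin n → F) (h : ¬ LG M) :
    ∃ (Q S : Finset (Fin n)) (w : Fin n → F), 32 * Q.card ≤ n ∧ S.card ≤ (n + 15) / 16 ∧
      w ≠ 0 ∧ (∀ o, o ∉ S → w o = 0) ∧ ∀ k, k ∉ Q → ∑ o, w o * M o k = 0 := by
  classical
  unfold LG at h
  push Not at h
  obtain ⟨Q, O, h1, h2⟩ := h
  obtain ⟨O', h3, ⟨c, hc⟩, h5⟩ := dep_of_sol M Q O
  have hq : 2 ≤ Fintype.card F := Fintype.one_lt_card
  have h6 : O'.card < (O.card + 15) / 16 := by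
    by_contra h7
    have h8 : Fintype.card F ^ ((O.card + 15) / 16) ≤ Fintype.card F ^ O'.card :=
      Nat.pow_le_pow_right (by omega) (by omega)
    have h9 := Nat.mul_le_mul_left (sol M Q O).card h8
    omega
  have hOn : O.card ≤ n := by
    have := card_le_univ O
    rwa [Fintype.card_fin] at this
  obtain ⟨S, hSO, hSc⟩ := exists_subset_card_eq (s := O) (n := O'.card + 1) (by omega)
  -- a combination
  obtain ⟨f, hf⟩ : ∃ f : ({o : Fin n // o ∈ S} → F) →ₗ[F] ({o : Fin n // o ∈ O'} → F),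
      ∀ v o', f v o' = ∑ o, v o * c o.1 o'.1 := by
    refine ⟨{ toFun := fun v o' => ∑ o, v o * c o.1 o'.1, map_add' := ?_, map_smul' := ?_ }, ?_⟩
    · intro v v'
      funext o'
      simp only [Pi.add_apply, add_mul, sum_add_distrib]
    · intro r v
      funext o'
      simp only [Pi.smul_apply, smul_eq_mul, RingHom.id_apply, mul_sum, mul_assoc]
    · intro v o'; rfl
  have hker := LinearMap.ker_ne_bot_of_finrank_lt (f := f) (by
    rw [Module.finrank_fintype_fun_eq_card, Module.finrank_fintype_fun_eq_card, Fintype.card_coe,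
      Fintype.card_coe]
    omega)
  obtain ⟨v, hv, hv0⟩ := (Submodule.ne_bot_iff _).1 hker
  rw [LinearMap.mem_ker] at hv
  refine ⟨Q, S, fun o => if h : o ∈ S then v ⟨o, h⟩ else 0, h1, by omega, ?_, ?_, ?_⟩
  · intro h0
    apply hv0
    funext o
    have := congrFun h0 o.1
    simp only [Pi.zero_apply] at this
    rw [dif_pos o.2] at this
    exact this
  · intro o ho
    exact dif_neg ho
  · intro k hk
    have e1 : ∑ o, (if h : o ∈ S then v ⟨o, h⟩ else 0) * M o k =
        ∑ o : {o : Fin n // o ∈ S}, v o * M o.1 k := by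
      have e5 : ∑ o, (if h : o ∈ S then v ⟨o, h⟩ else 0) * M o k =
          ∑ o ∈ S, (if h : o ∈ S then v ⟨o, h⟩ else 0) * M o k := by
        symm
        apply sum_subset (subset_univ _)
        intro o _ ho
        rw [dif_neg ho, zero_mul]
      rw [e5, Finset.sum_subtype S (fun _ => Iff.rfl)]
      exact sum_congr rfl (fun o _ => by rw [dif_pos o.2])
    rw [e1]
    have e2 : ∀ o : {o : Fin n // o ∈ S}, v o * M o.1 k =
        ∑ o' ∈ O', v o * c o.1 o' * M o' k := by
      intro o
      rw [hc o.1 (hSO o.2) k hk, mul_sum]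
      exact sum_congr rfl (fun o' _ => by ring)
    rw [sum_congr rfl (fun o _ => e2 o), sum_comm]
    apply sum_eq_zero
    intro o' ho'
    rw [← sum_mul]
    have e3 := congrFun hv ⟨o', ho'⟩
    rw [hf] at e3
    rw [e3, Pi.zero_apply, zero_mul]

open Classical in
/-- **Most Toeplitz matrices are good.** -/
theorem seed_bad (hn : 2 * h ≤ n) (hh : 64 ≤ h) :
    (univ.filter (fun a : Fin n → F => ¬ LG (toep hn a))).card * Fintype.card F ^ (h / 8) ≤
      Fintype.card F ^ n := by
  obtain ⟨q, hq⟩ : ∃ q, q = Fintype.card F := ⟨_, rfl⟩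
  have hq2 : 2 ≤ q := by rw [hq]; exact Fintype.one_lt_card
  rw [← hq]
  obtain ⟨I, hI⟩ : ∃ I : Finset (Finset (Fin h) × Finset (Fin h)), I =
      ((univ : Finset (Finset (Fin h))).filter (fun S => 32 * S.card ≤ h)) ×ˢ
      ((univ : Finset (Finset (Fin h))).filter (fun S => S.card ≤ (h + 15) / 16)) := ⟨_, rfl⟩
  obtain ⟨W, hW⟩ : ∃ W : Finset (Fin h) → Finset (Fin h → F), ∀ S, W S =
      univ.filter (fun w => w ≠ 0 ∧ ∀ o, o ∉ S → w o = 0) := ⟨_, fun _ => rfl⟩
  obtain ⟨B, hB⟩ : ∃ B : Finset (Fin h) → (Fin h → F) → Finset (Fin n → F), ∀ Q w, B Q w =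
      univ.filter (fun a => ∀ k, k ∉ Q → ∑ o, w o * toep hn a o k = 0) := ⟨_, fun _ _ => rfl⟩
  have hsub : univ.filter (fun a : Fin n → F => ¬ LG (toep hn a)) ⊆
      I.biUnion (fun s => (W s.2).biUnion (B s.1)) := by
    intro a ha
    rw [mem_filter] at ha
    obtain ⟨Q, S, w, h1, h2, h3, h4, h5⟩ := short_comb _ ha.2
    rw [mem_biUnion]
    refine ⟨(Q, S), ?_, ?_⟩
    · rw [hI, mem_product, mem_filter, mem_filter]
      exact ⟨⟨mem_univ _, h1⟩, mem_univ _, h2⟩
    · rw [mem_biUnion]
      refine ⟨w, ?_, ?_⟩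
      · rw [hW, mem_filter]
        exact ⟨mem_univ _, h3, h4⟩
      · rw [hB, mem_filter]
        exact ⟨mem_univ _, h5⟩
  have hWc : ∀ S, (W S).card ≤ q ^ S.card := by
    intro S
    have h1 : Fintype.card ({o : Fin h // o ∈ S} → F) = q ^ S.card := by
      rw [Fintype.card_fun, Fintype.card_coe, hq]
    rw [← h1, ← Fintype.card_coe]
    refine Fintype.card_le_of_injective (fun w o => w.1 o.1) ?_
    rintro ⟨w, hw⟩ ⟨w', hw'⟩ hww
    rw [hW, mem_filter] at hw hw'
    apply Subtype.ext
    funext o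
    by_cases ho : o ∈ S
    · exact congrFun hww ⟨o, ho⟩
    · exact (hw.2.2 o ho).trans (hw'.2.2 o ho).symm
  have hBc : ∀ Q w, 32 * Q.card ≤ h → w ≠ 0 → (B Q w).card * q ^ (h - h / 32) ≤ q ^ n := by
    intro Q w h1 h2
    have h3 := seed_count (F := F) hn w h2 Q
    rw [← hq, ← hB] at h3
    exact (Nat.mul_le_mul_left _ (Nat.pow_le_pow_right (by omega) (by omega))).trans h3
  have h1 : (univ.filter (fun a : Fin n → F => ¬ LG (toep hn a))).card * q ^ (h - h / 32) ≤
      I.card * (q ^ ((h + 15) / 16) * q ^ n) := by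
    calc _ ≤ (∑ s ∈ I, ∑ w ∈ W s.2, (B s.1 w).card) * q ^ (h - h / 32) := by
          apply Nat.mul_le_mul_right
          refine (card_le_card hsub).trans (card_biUnion_le.trans (sum_le_sum (fun s _ => ?_)))
          exact card_biUnion_le
      _ = ∑ s ∈ I, ∑ w ∈ W s.2, (B s.1 w).card * q ^ (h - h / 32) := by
          rw [sum_mul]
          exact sum_congr rfl (fun s _ => sum_mul _ _ _)
      _ ≤ ∑ _s ∈ I, q ^ ((h + 15) / 16) * q ^ n := by
          apply sum_le_sum
          intro s hs
          rw [hI, mem_product, mem_filter, mem_filter] at hs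
          calc ∑ w ∈ W s.2, (B s.1 w).card * q ^ (h - h / 32) ≤ ∑ _w ∈ W s.2, q ^ n := by
                apply sum_le_sum
                intro w hw
                rw [hW, mem_filter] at hw
                exact hBc _ _ hs.1.2 hw.2.1
            _ = (W s.2).card * q ^ n := by rw [sum_const, smul_eq_mul]
            _ ≤ q ^ s.2.card * q ^ n := Nat.mul_le_mul_right _ (hWc _)
            _ ≤ _ := Nat.mul_le_mul_right _ (Nat.pow_le_pow_right (by omega) hs.2.2)
      _ = _ := by rw [sum_const, smul_eq_mul]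
  have h2 : I.card ≤ q ^ (h / 4 + 1 + (h / 5 + 1 + 3 * ((h + 15) / 16))) := by
    rw [hI, card_product]
    calc _ ≤ 2 ^ (h / 4 + 1) * 2 ^ (h / 5 + 1 + 3 * ((h + 15) / 16)) :=
          Nat.mul_le_mul (few_small h) (few16 h)
      _ = 2 ^ (h / 4 + 1 + (h / 5 + 1 + 3 * ((h + 15) / 16))) := (pow_add _ _ _).symm
      _ ≤ _ := Nat.pow_le_pow_left hq2 _
  have h3 : (univ.filter (fun a : Fin n → F => ¬ LG (toep hn a))).card * q ^ (h / 8) *
      q ^ (h - h / 32 - h / 8) ≤ q ^ n * q ^ (h - h / 32 - h / 8) := by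
    calc _ = (univ.filter (fun a : Fin n → F => ¬ LG (toep hn a))).card *
          q ^ (h - h / 32) := by
          rw [mul_assoc, ← pow_add]; congr 2; omega
      _ ≤ I.card * (q ^ ((h + 15) / 16) * q ^ n) := h1
      _ ≤ q ^ (h / 4 + 1 + (h / 5 + 1 + 3 * ((h + 15) / 16))) *
          (q ^ ((h + 15) / 16) * q ^ n) := Nat.mul_le_mul_right _ h2
      _ = q ^ n * q ^ (h / 4 + 1 + (h / 5 + 1 + 3 * ((h + 15) / 16)) + (h + 15) / 16) := by
          rw [pow_add q (h / 4 + 1 + (h / 5 + 1 + 3 * ((h + 15) / 16)))]; ring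
      _ ≤ _ := Nat.mul_le_mul_left _ (Nat.pow_le_pow_right (by omega) (by omega))
  exact Nat.le_of_mul_le_mul_right h3 (by positivity)

end Pool.Agent.W896.MO
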