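import Pool.Agent.W896.MO.Pieces

/-!
# The union bound over the pieces, and the classes of a procedure
-/

set_option autoImplicit false

open Finset

namespace Pool.Agent.W896.MO

variable {ι ω α : Type}

/-- An adaptive procedure: the list of its reads and writes is determined by the values read. -/
structure Proc (Rel : (ι → α) → List (Option (Ev ι ω α)) → Prop) : Prop where
  uniq : ∀ x y l l', Rel x l → Rel y l' →
    (∀ i, some (.inl i) ∈ l → some (.inl i) ∈ l' → x i = y i) → l = l'
  trans : ∀ x y l, Rel x l → (∀ i, some (.inl i) ∈ l → y i = x i) → Rel y l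

/-- The procedure given by a start node and holes. -/
def relOf (P : Prog ι ω α) (q : P.State) (H : ℕ → Option (P.State × P.State)) :
    (ι → α) → List (Option (Ev ι ω α)) → Prop :=
  fun x l => ∃ p e, Der (toQP P) H (ext x) q 0 l p e

theorem proc_relOf (P : Prog ι ω α) (q : P.State) (H : ℕ → Option (P.State × P.State)) :
    Proc (relOf P q H) where
  uniq := by
    rintro x y l l' ⟨p, e, h⟩ ⟨p', e', h'⟩ hxy
    refine (h.agree h' ?_).1
    rintro (i | w) h1 h2
    · exact hxy i h1 h2
    · rfl
  trans := by
    rintro x y l ⟨p, e, h⟩ hxy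
    refine ⟨p, e, h.transfer ?_⟩
    rintro (i | w) h1
    · exact hxy i h1
    · rfl

/-- What a procedure may achieve on the input `y`: few reads and writes, no wrong values, and at
least `N₁` of the outputs that count. -/
def Good {Ω : Type} (X : Ω → ι → α) (f : (ι → α) → ω → α) (Cnt : Ω → ω → Prop) (a N₁ : ℕ)
    (Rel : (ι → α) → List (Option (Ev ι ω α)) → Prop) (y : Ω) : Prop :=
  ∃ l, Rel (X y) l ∧ l.length ≤ 4 * a ∧ (∀ o v, some (.inr (o, v)) ∈ l → v = f (X y) o) ∧
    ∃ O : Finset ω, N₁ ≤ O.card ∧ ∀ o ∈ O, Cnt y o ∧ some (.inr (o, f (X y) o)) ∈ l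

open Classical in
/-- **The union bound.** -/
theorem union_bound {Ω : Type} [Fintype Ω] [Fintype ω] (P : Prog ι ω α) (X : Ω → ι → α)
    (f : (ι → α) → ω → α) (Cnt : Ω → ω → Prop) (Gd : Ω → Prop) {a N₀ N₁ T K : ℕ} (ha : 1 ≤ a)
    (hN₁ : 1 ≤ N₁) (hN : (T / a + 1) * N₁ ≤ N₀)
    (hG : ∀ y, Gd y → N₀ ≤ (univ.filter (fun o => Cnt y o)).card)
    (hK : ∀ Rel, Proc Rel → (univ.filter (fun y => Gd y ∧ Good X f Cnt a N₁ Rel y)).card ≤ K) :
    (univ.filter (fun y => Gd y ∧ P.Computes (X y) (f (X y)) T)).card ≤
      Fintype.card P.State * (T * (Fintype.card P.State) ^ 2 + 1) ^ 4 * K := by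
  have key : ∀ y, Gd y → P.Computes (X y) (f (X y)) T →
      ∃ (q : P.State) (d : Fin 4 → Option (Fin T × P.State × P.State)),
        Good X f Cnt a N₁ (relOf P q (dec d)) y := by
    rintro y hy ⟨l, h1, h2, h3, h4⟩
    obtain ⟨p, h5, -⟩ : ∃ p, Ret (toQP P) (ext (X y)) P.start l p ∧
        (toQP P).act p = QAct.halt := h1.toDec
    obtain ⟨e, h6⟩ := h5.toDer 0
    have hw : ∀ l : List (Ev ι ω α), wt a (l.map some) = l.length := by
      intro l
      induction l with
      | nil => rfl
      | cons b l ih => simp only [List.map_cons, wt, List.length_cons, ih]; omega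
    obtain ⟨L, b1, b2, b3, b4, b5⟩ := pieces ha (wt a (l.map some)) (fun _ => none) P.start p
      (l.map some) e le_rfl h6 (fun c hc => absurd rfl hc)
    rw [hw] at b5
    have hL : L.length ≤ T / a + 1 := by
      have h7 : L.length * a ≤ T + a := by omega
      have h8 : L.length ≤ (T + a) / a := (Nat.le_div_iff_mul_le (by omega)).2 h7
      rwa [Nat.add_div_right _ (by omega)] at h8
    -- the outputs of a piece
    obtain ⟨out, hout⟩ : ∃ out : List (Option (Ev ι ω α)) → Finset ω, ∀ l', out l' =
      univ.filter (fun o => Cnt y o ∧ some (.inr (o, f (X y) o)) ∈ l') := ⟨_, fun _ => rfl⟩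
    have hex : ∃ l' ∈ L, N₁ ≤ (out l').card := by
      by_contra hcon
      push Not at hcon
      have hsub : univ.filter (fun o => Cnt y o) ⊆ L.toFinset.biUnion out := by
        intro o ho
        rw [mem_filter] at ho
        have h7 : some (.inr (o, f (X y) o)) ∈ l.map some :=
          List.mem_map_of_mem (h4 o)
        obtain ⟨l', h8, h9⟩ := b4 _ h7
        rw [mem_biUnion]
        refine ⟨l', List.mem_toFinset.2 h8, ?_⟩
        rw [hout, mem_filter]
        exact ⟨mem_univ _, ho.2, h9⟩
      have h7 : (univ.filter (fun o => Cnt y o)).card ≤ L.length * (N₁ - 1) := by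
        calc _ ≤ (L.toFinset.biUnion out).card := card_le_card hsub
          _ ≤ ∑ l' ∈ L.toFinset, (out l').card := card_biUnion_le
          _ ≤ ∑ _l' ∈ L.toFinset, (N₁ - 1) := sum_le_sum (fun l' hl' => by
              have := hcon l' (List.mem_toFinset.1 hl')
              omega)
          _ = L.toFinset.card * (N₁ - 1) := by rw [sum_const, smul_eq_mul]
          _ ≤ _ := Nat.mul_le_mul_right _ (List.toFinset_card_le L)
      have h8 := hG y hy
      have h9 : L.length * (N₁ - 1) ≤ (T / a + 1) * (N₁ - 1) := Nat.mul_le_mul_right _ hL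
      have h10 : (T / a + 1) * (N₁ - 1) < (T / a + 1) * N₁ :=
        (Nat.mul_lt_mul_left (Nat.succ_pos _)).2 (by omega)
      omega
    obtain ⟨l', h7, h8⟩ := hex
    obtain ⟨q, p', H, e', h9, h10, h11⟩ := b1 l' h7
    have hlen : ∀ l : List (Option (Ev ι ω α)), l.length ≤ wt a l := len_le_wt ha
    -- few holes
    have hcnt : nn l' ≤ 4 := by
      have h12 := nn_wt a l'
      have h13 : nn l' * a ≤ 4 * a := by omega
      exact Nat.le_of_mul_le_mul_right h13 (by omega)
    have hHT : ∀ c, H c ≠ none → c < T := by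
      intro c hc
      have h12 := h11 c hc
      have h13 : c < l'.length := by
        by_contra h14
        rw [List.getElem?_eq_none (by omega)] at h12
        simp at h12
      have h14 := b3 l' h7
      rw [List.length_map] at h14
      omega
    obtain ⟨d, hd⟩ := exists_dec H hHT (by
      refine le_trans ?_ hcnt
      have h12 : (((range T).filter (fun c => H c ≠ none)).card) ≤
          ((range l'.length).filter (fun c => l'[c]? = some none)).card := by
        apply card_le_card
        intro c hc
        rw [mem_filter, mem_range] at hc ⊢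
        have h13 := h11 c hc.2
        refine ⟨?_, h13⟩
        by_contra h14
        rw [List.getElem?_eq_none (by omega)] at h13
        simp at h13
      exact h12.trans (card_nn l').le)
    refine ⟨q, d, l', ⟨p', e', ?_⟩, ?_, ?_, out l', h8, ?_⟩
    · subst hd; exact h9
    · exact (hlen l').trans h10
    · intro o v hv
      have h12 := b2 l' h7 _ hv
      rw [List.mem_map] at h12
      obtain ⟨ev, h13, h14⟩ := h12
      rw [Option.some.injEq] at h14
      rw [h14] at h13
      exact h3 o v h13
    · intro o ho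
      rw [hout, mem_filter] at ho
      exact ho.2
  have hsub : univ.filter (fun y => Gd y ∧ P.Computes (X y) (f (X y)) T) ⊆
      (univ : Finset (P.State × (Fin 4 → Option (Fin T × P.State × P.State)))).biUnion
        (fun u => univ.filter (fun y => Gd y ∧ Good X f Cnt a N₁ (relOf P u.1 (dec u.2)) y)) := by
    intro y hy
    rw [mem_filter] at hy
    obtain ⟨q, d, h⟩ := key y hy.2.1 hy.2.2
    rw [mem_biUnion]
    exact ⟨(q, d), mem_univ _, mem_filter.2 ⟨mem_univ _, hy.2.1, h⟩⟩
  calc _ ≤ _ := card_le_card hsub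
    _ ≤ ∑ u : P.State × (Fin 4 → Option (Fin T × P.State × P.State)),
        (univ.filter (fun y => Gd y ∧ Good X f Cnt a N₁ (relOf P u.1 (dec u.2)) y)).card :=
          card_biUnion_le
    _ ≤ ∑ _u : P.State × (Fin 4 → Option (Fin T × P.State × P.State)), K :=
          sum_le_sum (fun u _ => hK _ (proc_relOf P u.1 (dec u.2)))
    _ = _ := by
          rw [sum_const, card_univ, Fintype.card_prod, card_dec, smul_eq_mul]

end Pool.Agent.W896.MO
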